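import Pool.Agent.H75.SF.Chain

/-!
# SF-19: a translation of half-spaces without common rays

Apply `chain_full` to `(1, false)` to get `(g₁, i₁)`, and to `(g₁, i₁)` to get `(g₂, i₂)`.  Two of `false, i₁, i₂` are equal.
`no_common_ray`: if `g' • A i' ⊆ g • A i` (this is not even needed) and no `w` has `Bdd (fun s => g • φ (s • w)) (g' • F)` then no ray `r` has
`Bdd r (g • F)` and `Bdd r (g' • F)`: by `exists_dir_of_Bdd` (for the isometry `fun u => g • φ u`) `r` is asymptotic to some `fun s => g • φ (s • w)`, `‖w‖ = 1`,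
and `Bdd.asym`.
* `i₁ = false`: `a = 1`, `b = g₁`.  * `i₂ = i₁`: `a = g₁`, `b = g₂`.  * `i₂ = false`: `a = 1`, `b = g₂`: a ray `r` with `Bdd r F`, `Bdd r (g₂ • F)` is asymptotic to
`dir φ w`, `Bdd (dir φ w) (g₂ • F)`, so `Bdd (dir φ w) (g₁ • F)` by `sep_state`, contradiction.
-/

open Set Filter Topology Metric
open Pool.Agent.H29 Pool.Agent.H29.RR
open scoped Pointwise

set_option linter.unusedSectionVars false

namespace Pool.Agent.H75.SF

variable {X : Type*} [MetricSpace X] [IsCAT0 X] [ProperSpace X]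
variable {G : Type*} [Group G] [MulAction G X] [IsIsometricSMul G X]
variable {V : Type*} [NormedAddCommGroup V] [InnerProductSpace ℝ V] [FiniteDimensional ℝ V]
variable {φ : V → X} {A : Bool → Set X}

omit [IsCAT0 X] [ProperSpace X] [IsIsometricSMul G X] [InnerProductSpace ℝ V] [FiniteDimensional ℝ V] in
lemma smul_range' (g : G) (φ : V → X) : g • range φ = range (fun u => g • φ u) := by
  ext x
  simp only [mem_smul_set, mem_range]
  constructor
  · rintro ⟨y, ⟨u, rfl⟩, rfl⟩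
    exact ⟨u, rfl⟩
  · rintro ⟨u, rfl⟩
    exact ⟨φ u, ⟨u, rfl⟩, rfl⟩

lemma no_common_ray (hφ : Isometry φ) {g g' : G}
    (h : ∀ w : V, ‖w‖ = 1 → ¬ Bdd (fun s : ℝ => g • φ (s • w)) (g' • range φ)) {r : ℝ → X}
    (hr : IsRay r) (h1 : Bdd r (g • range φ)) : ¬ Bdd r (g' • range φ) := by
  intro h2
  have hψ : Isometry (fun u => g • φ u) := (isometry_smul X g).comp hφ
  rw [smul_range'] at h1
  obtain ⟨w, hw, hw2⟩ := exists_dir_of_Bdd hψ hr h1
  exact h w hw (h2.asym hw2)

theorem exists_translation (hdim : 2 ≤ Module.finrank ℝ V) (hφ : Isometry φ)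
    (hA : Wall (range φ) A) {ρ : Bool → ℝ → X} {c T : ℝ} (hP : Poles φ A ρ c T)
    {R₁ N ε : ℝ} (hK : Kills G (range φ) R₁ N ε) :
    ∃ (a b : G) (i : Bool), b • A i ⊆ a • A i ∧
      ∀ r : ℝ → X, IsRay r → Bdd r (a • range φ) → ¬ Bdd r (b • range φ) := by
  obtain ⟨g₁, i₁, h1, h1'⟩ := chain_full (G := G) hdim hφ hA hP hK 1 false
  obtain ⟨g₂, i₂, h2, h2'⟩ := chain_full (G := G) hdim hφ hA hP hK g₁ i₁
  by_cases e1 : i₁ = false
  · subst e1
    exact ⟨1, g₁, false, h1, fun r hr hr1 => no_common_ray hφ h1' hr hr1⟩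
  · by_cases e2 : i₂ = i₁
    · subst e2
      exact ⟨g₁, g₂, i₂, h2, fun r hr hr1 => no_common_ray hφ h2' hr hr1⟩
    · have e3 : i₂ = false := by
        cases i₂ <;> cases i₁ <;> simp_all
      subst e3
      refine ⟨1, g₂, false, h2.trans h1, fun r hr hr1 hr2 => ?_⟩
      have hψ : Isometry (fun u => (1 : G) • φ u) := (isometry_smul X (1 : G)).comp hφ
      rw [smul_range'] at hr1
      obtain ⟨w, hw, hw2⟩ := exists_dir_of_Bdd hψ hr hr1
      have h3 := hr2.asym hw2
      refine h1' w hw (sep_state hφ hA (g₀ := 1) h1 h2 ?_ h3)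
      intro t _
      exact smul_mem_smul_set (mem_range_self _)

end Pool.Agent.H75.SF
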