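import Pool.Agent.H75.SF.Wall

/-!
# SF-17: flats without common line do not cross

`(F, A)`, `(F', A')` walls, `F = range φ`, `F' = range ψ` flats of dimension at least two, without common line.

* `not_meets_both`: `F'` does not meet both `A i` and the complement of `F ∪ A i`.  `K₁ = ψ ⁻¹' (F ∪ A i)`, `K₂ = ψ ⁻¹' (A i)ᶜ` are closed (`isClosed_union_side`,
  `isOpen_side`) and convex (`gconvex_union_side`, `gconvex_compl_side`, `flat_pt`), cover `V`, and are proper. `cover_line` gives
  `z, w` with `ψ (z + t • w) ∈ (F ∪ A i) \ A i = F` for all `t` (`A i ∩ F = ∅`): a common line `ℓ t = ψ (z + t • w)` (an isometry, `‖w‖ = 1`).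
* `nested`: `F'` meets `A i`.  So `F' ⊆ F ∪ A i` (otherwise `F'` meets the complement of `F ∪ A i`).  `F` does not meet both `A' false` and `A' true`: `F`
  would meet `A' false` and the complement of `F' ∪ A' false` (as `A' true` is disjoint from both).  So there is `i'` with `F ∩ A' i' = ∅`.
  `A' i'` is path connected inside `Fᶜ` (any two points of `A' i' = Side F' x'` are joined by a path in `A' i'`: a path in `F'ᶜ` starting in the path
  component `A' i'` stays in it; so in `Fᶜ` as `F ∩ A' i' = ∅`); helper `joinedIn_side`.  Take `z ∈ F' ∩ A i`; `A i` is open and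
  `z ∈ closure (A' i')`, so there is `y ∈ A i ∩ A' i'`.  Every point of `A' i'` is joined to `y` in `Fᶜ`, hence lies in `A i`.
-/

open Set Filter Topology Metric
open Pool.Agent.H29 Pool.Agent.H29.RR
open scoped Pointwise

set_option linter.unusedSectionVars false

namespace Pool.Agent.H75.SF

variable {X : Type*} [MetricSpace X] [IsCAT0 X] [ProperSpace X]
variable {V : Type*} [NormedAddCommGroup V] [InnerProductSpace ℝ V] {φ ψ : V → X}

/-- two points of a side are joined inside the side -/
lemma joinedIn_side {F : Set X} {x y z : X} (hy : y ∈ Side F x) (hz : z ∈ Side F x) :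
    JoinedIn (Side F x) y z := by
  have hx : x ∈ Fᶜ := JoinedIn.source_mem hy
  exact (isPathConnected_pathComponentIn hx).joinedIn y hy z hz

private lemma convex_preimage_flat (hψ : Isometry ψ) {C : Set X} (hC : GConvex C) :
    Convex ℝ (ψ ⁻¹' C) := by
  intro u hu w hw a b ha hb hab
  have hb1 : b ∈ Icc (0 : ℝ) 1 := ⟨hb, by linarith⟩
  have h := hC (ψ u) hu (ψ w) hw b hb1
  rw [← flat_pt hψ u w hb1] at h
  have ha' : a = 1 - b := by linarith
  rw [mem_preimage, ha']
  exact h

lemma not_meets_both [FiniteDimensional ℝ V] (hdim : 2 ≤ Module.finrank ℝ V)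
    (hφ : Isometry φ) (hψ : Isometry ψ) {A : Bool → Set X} (hA : Wall (range φ) A)
    (hno : ¬ ∃ ℓ : ℝ → X, Isometry ℓ ∧ (∀ s, ℓ s ∈ range φ) ∧ ∀ s, ℓ s ∈ range ψ) {i : Bool}
    (h1 : ∃ z ∈ range ψ, z ∈ A i) : range ψ ⊆ range φ ∪ A i := by
  obtain ⟨_, ⟨z₁, rfl⟩, hz₁⟩ := h1
  obtain ⟨x, hx, hAi⟩ := hA.side i
  intro y hy
  by_contra hcon
  obtain ⟨u, rfl⟩ := hy
  have hcl1 : IsClosed (range φ ∪ A i) := by
    rw [hAi]; exact isClosed_union_side hA.closed x
  have hcl2 : IsClosed (A i)ᶜ := by
    rw [hAi]; exact (isOpen_side hA.closed x).isClosed_compl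
  have hcv1 : GConvex (range φ ∪ A i) := by
    rw [hAi]; exact gconvex_union_side hA.convex x
  have hcv2 : GConvex (A i)ᶜ := by
    rw [hAi]; exact gconvex_compl_side hA.convex x
  obtain ⟨z, w, hw, hzw⟩ := cover_line hdim (K₁ := ψ ⁻¹' (range φ ∪ A i)) (K₂ := ψ ⁻¹' (A i)ᶜ)
    (hcl1.preimage hψ.continuous) (hcl2.preimage hψ.continuous)
    (convex_preimage_flat hψ hcv1) (convex_preimage_flat hψ hcv2)
    (by
      ext v
      simp only [mem_union, mem_preimage, mem_compl_iff, mem_univ, iff_true]
      by_cases h : ψ v ∈ A i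
      · exact Or.inl (Or.inr h)
      · exact Or.inr h)
    (by
      intro h
      have : u ∈ ψ ⁻¹' (range φ ∪ A i) := by rw [h]; exact mem_univ _
      exact hcon this)
    (by
      intro h
      have : z₁ ∈ ψ ⁻¹' (A i)ᶜ := by rw [h]; exact mem_univ _
      exact this hz₁)
  refine hno ⟨fun t => ψ (z + t • w), ?_, ?_, fun s => mem_range_self _⟩
  · refine Isometry.of_dist_eq (fun s t => ?_)
    rw [hψ.dist_eq, dist_eq_norm, Real.dist_eq]
    have : z + s • w - (z + t • w) = (s - t) • w := by rw [sub_smul]; abel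
    rw [this, norm_smul, hw, mul_one, Real.norm_eq_abs]
  · intro s
    obtain ⟨h1, h2⟩ := hzw s
    rcases h1 with h1 | h1
    · exact h1
    · exact absurd h1 h2

end Pool.Agent.H75.SF
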