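import Pool.Agent.H75.SF.BddRay

/-!
# SF-15: killing a direction

`S` closed, convex, nonempty, such that every ray `r` has some `g : G` with `¬ Bdd r (g • S)`.

Proof of `kill`. Suppose not. Then for every `n : ℕ` (with `R₁ = N = n + 1`, `ε = 1 / (n + 1)`) there is a ray `r n` such that for every `g` with
`infDist (r n 0) (g • S) ≤ n + 1` there is a ray `r'` from `r n 0` with `dist (r n (n + 1)) (r' (n + 1)) ≤ 1 / (n + 1)` and `Bdd r' (g • S)`.
Both sides are `G`-invariant; by cocompactness (`Cocompact.orbit o`) we may translate: there is `k n : G` with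
`dist (r n 0) (k n • o) ≤ R`; replace `r n` by `(k n)⁻¹ • r n`.  So `dist (r n 0) o ≤ R`. Let `r∞` be the limit of the `r n` along
`U = hyperfilter ℕ` (`exists_ray_limit` is for a fixed origin; use `exists_limit_map` for `t ↦ r n (max t 0)` as in its proof; helper lemma
`exists_ray_limit_bdd`).  By hypothesis there is `g` with `¬ Bdd r∞ (g • S)`.  For large `n`:
`infDist (r n 0) (g • S) ≤ infDist o (g • S) + R ≤ n + 1`; let `r' n` be the corresponding ray.  For `0 ≤ t ≤ n + 1`: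
`dist (r n t) (r' n t) ≤ t / (n + 1) * (1 / (n + 1))` (`ray_pt`, `dist_pt_pt_left_le`), so `infDist (r n t) (g • S) ≤
infDist (r' n t) (g • S) + t / (n + 1) ^ 2 ≤ infDist (r' n 0) (g • S) + t / (n + 1) ^ 2` (`Bdd.infDist_le`) `≤ infDist o (g • S) + R + t / (n + 1) ^ 2`.
In the limit `infDist (r∞ t) (g • S) ≤ infDist o (g • S) + R` for all `t ≥ 0`, so `Bdd r∞ (g • S)`, contradiction.
-/

open Set Filter Topology Metric
open Pool.Agent.H29 Pool.Agent.H29.RR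
open scoped Pointwise

set_option linter.unusedSectionVars false

namespace Pool.Agent.H75.SF

variable {X : Type*} [MetricSpace X] [IsCAT0 X] [ProperSpace X]

lemma exists_ray_limit_bdd {α : Type*} (U : Ultrafilter α) {ρ : α → ℝ → X} {o : X} {R : ℝ}
    (hρ : ∀ᶠ a in (U : Filter α), IsRay (ρ a) ∧ dist (ρ a 0) o ≤ R) :
    ∃ σ : ℝ → X, IsRay σ ∧ ∀ t, 0 ≤ t → Tendsto (fun a => ρ a t) U (𝓝 (σ t)) := by
  obtain ⟨σ, hσ⟩ := exists_limit_map U (fun a t => ρ a (max t 0)) o (by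
    intro t
    refine ⟨max t 0 + R, ?_⟩
    filter_upwards [hρ] with a ha
    have h1 : dist (ρ a (max t 0)) (ρ a 0) = max t 0 := by
      rw [ha.1 _ _ (le_max_right _ _) le_rfl, sub_zero, abs_of_nonneg (le_max_right _ _)]
    linarith [dist_triangle (ρ a (max t 0)) (ρ a 0) o, ha.2])
  have hσ' : ∀ t, 0 ≤ t → Tendsto (fun a => ρ a t) U (𝓝 (σ t)) := by
    intro t ht
    have := hσ t
    simpa only [max_eq_left ht] using this
  refine ⟨σ, ?_, hσ'⟩
  intro s t hs ht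
  have h1 : Tendsto (fun a => dist (ρ a s) (ρ a t)) U (𝓝 (dist (σ s) (σ t))) :=
    (hσ' s hs).dist (hσ' t ht)
  apply tendsto_nhds_unique h1
  apply tendsto_const_nhds.congr'
  filter_upwards [hρ] with a ha
  exact (ha.1 s t hs ht).symm

theorem kill {G : Type*} [Group G] [MulAction G X] [IsIsometricSMul G X]
    (hcoc : Cocompact G X) {S : Set X} (hcl : IsClosed S) (hne : S.Nonempty) (hcv : GConvex S)
    (hΩ : ∀ r : ℝ → X, IsRay r → ∃ g : G, ¬ Bdd r (g • S)) :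
    ∃ R₁ N ε : ℝ, 0 < R₁ ∧ 0 < N ∧ 0 < ε ∧ ∀ r : ℝ → X, IsRay r →
      ∃ g : G, infDist (r 0) (g • S) ≤ R₁ ∧ ∀ r' : ℝ → X, IsRay r' → r' 0 = r 0 →
        dist (r N) (r' N) ≤ ε → ¬ Bdd r' (g • S) := by
  by_contra hcon
  push Not at hcon
  have hn : ∀ n : ℕ, (0 : ℝ) < (n : ℝ) + 1 := fun n => by positivity
  -- the rays
  have hex : ∀ n : ℕ, ∃ r : ℝ → X, IsRay r ∧ ∀ g : G, infDist (r 0) (g • S) ≤ (n : ℝ) + 1 →
      ∃ r' : ℝ → X, IsRay r' ∧ r' 0 = r 0 ∧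
        dist (r ((n : ℝ) + 1)) (r' ((n : ℝ) + 1)) ≤ 1 / ((n : ℝ) + 1) ∧ Bdd r' (g • S) := by
    intro n
    obtain ⟨r, hr, h⟩ := hcon ((n : ℝ) + 1) ((n : ℝ) + 1) (1 / ((n : ℝ) + 1)) (hn n) (hn n)
      (by have := hn n; positivity)
    exact ⟨r, hr, h⟩
  choose r hr hr' using hex
  obtain ⟨o, ho⟩ := hne
  have hne : S.Nonempty := ⟨o, ho⟩
  obtain ⟨R, hR⟩ := hcoc.orbit o
  choose k hk using fun n => hR (r n 0)
  -- translated rays
  let ρ : ℕ → ℝ → X := fun n t => (k n)⁻¹ • r n t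
  have hρray : ∀ n, IsRay (ρ n) := fun n => (hr n).smul (k n)⁻¹
  have hρ0 : ∀ n, dist (ρ n 0) o ≤ R := by
    intro n
    have h1 : dist (ρ n 0) o = dist (r n 0) (k n • o) := by
      rw [← dist_smul (k n) (ρ n 0) o]
      simp only [ρ, smul_inv_smul]
    rw [h1]
    exact hk n
  have hρ' : ∀ n : ℕ, ∀ g : G, infDist (ρ n 0) (g • S) ≤ (n : ℝ) + 1 →
      ∃ r' : ℝ → X, IsRay r' ∧ r' 0 = ρ n 0 ∧
        dist (ρ n ((n : ℝ) + 1)) (r' ((n : ℝ) + 1)) ≤ 1 / ((n : ℝ) + 1) ∧ Bdd r' (g • S) := by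
    intro n g hg
    have h1 : infDist (r n 0) ((k n * g) • S) ≤ (n : ℝ) + 1 := by
      have h2 : infDist (r n 0) ((k n * g) • S) = infDist (ρ n 0) (g • S) := by
        have h3 : k n • ρ n 0 = r n 0 := smul_inv_smul _ _
        rw [← infDist_smul_smul (k n) (ρ n 0) (g • S), h3, mul_smul]
      rw [h2]; exact hg
    obtain ⟨r', h2, h3, h4, h5⟩ := hr' n (k n * g) h1
    refine ⟨fun t => (k n)⁻¹ • r' t, h2.smul _, ?_, ?_, ?_⟩
    · change (k n)⁻¹ • r' 0 = (k n)⁻¹ • r n 0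
      rw [h3]
    · change dist ((k n)⁻¹ • r n ((n : ℝ) + 1)) ((k n)⁻¹ • r' ((n : ℝ) + 1)) ≤ _
      rw [dist_smul]
      exact h4
    · have h6 := h5.smul (k n)⁻¹
      rw [smul_smul, inv_mul_cancel_left] at h6
      exact h6
  -- the limit ray
  obtain ⟨σ, hσ, hlim⟩ := exists_ray_limit_bdd (hyperfilter ℕ) (ρ := ρ) (o := o) (R := R)
    (Eventually.of_forall fun n => ⟨hρray n, hρ0 n⟩)
  obtain ⟨g, hg⟩ := hΩ σ hσ
  apply hg
  have hgcl : IsClosed (g • S) := hcl.smul g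
  have hgne : (g • S).Nonempty := hne.smul_set
  have hgcv : GConvex (g • S) := by
    rintro x ⟨a, ha, rfl⟩ y ⟨b, hb, rfl⟩ t ht
    exact ⟨pt a b t, hcv a ha b hb t ht, smul_pt g a b ht⟩
  refine ⟨infDist o (g • S) + R + 1, fun t ht => ?_⟩
  have hcont : Tendsto (fun n => infDist (ρ n t) (g • S)) (hyperfilter ℕ : Filter ℕ)
      (𝓝 (infDist (σ t) (g • S))) :=
    ((continuous_infDist_pt (g • S)).tendsto _).comp (hlim t ht)
  apply le_of_tendsto hcont
  have hlarge : ∀ᶠ n : ℕ in (hyperfilter ℕ : Filter ℕ),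
      t ≤ (n : ℝ) + 1 ∧ infDist o (g • S) + R ≤ (n : ℝ) + 1 := by
    apply Nat.hyperfilter_le_atTop
    have h1 : Tendsto (fun n : ℕ => (n : ℝ) + 1) atTop atTop :=
      tendsto_atTop_add_const_right _ _ tendsto_natCast_atTop_atTop
    exact (h1.eventually_ge_atTop t).and (h1.eventually_ge_atTop _)
  filter_upwards [hlarge] with n hnl
  have h0 : infDist (ρ n 0) (g • S) ≤ infDist o (g • S) + R := by
    have := infDist_le_infDist_add_dist (s := g • S) (x := ρ n 0) (y := o)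
    linarith [hρ0 n]
  obtain ⟨r', h2, h3, h4, h5⟩ := hρ' n g (h0.trans hnl.2)
  have hl : t / ((n : ℝ) + 1) ∈ Icc (0 : ℝ) 1 :=
    ⟨div_nonneg ht (hn n).le, (div_le_one (hn n)).2 hnl.1⟩
  have ht' : t / ((n : ℝ) + 1) * ((n : ℝ) + 1) = t := div_mul_cancel₀ _ (hn n).ne'
  have h6 : dist (ρ n t) (r' t) ≤ 1 := by
    have e1 := ray_pt (hρray n) (hn n).le hl
    have e2 := ray_pt h2 (hn n).le hl
    rw [ht'] at e1 e2
    rw [e1, e2, h3]
    have h7 := dist_pt_pt_left_le (ρ n 0) (ρ n ((n : ℝ) + 1)) (r' ((n : ℝ) + 1)) hl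
    have h8 : 1 / ((n : ℝ) + 1) ≤ 1 := by
      rw [div_le_one (hn n)]
      have : (0 : ℝ) ≤ (n : ℝ) := Nat.cast_nonneg n
      linarith
    have h9 : t / ((n : ℝ) + 1) * dist (ρ n ((n : ℝ) + 1)) (r' ((n : ℝ) + 1)) ≤ 1 * 1 :=
      mul_le_mul hl.2 (h4.trans h8) dist_nonneg zero_le_one
    linarith
  have h7 : infDist (r' t) (g • S) ≤ infDist (ρ n 0) (g • S) := by
    rw [← h3]
    exact h5.infDist_le h2 hgcl hgne hgcv ht
  have h8 := infDist_le_infDist_add_dist (s := g • S) (x := ρ n t) (y := r' t)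
  linarith

end Pool.Agent.H75.SF
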