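import Pool.Agent.H75.SF.OrthRay

/-!
# SF-10: growth along a strong pole

`ρ` orthogonal to `C` with `K = Kset φ ρ` bounded.
* `exists_kappa`: let `φ u₀ = ρ 0`; as `K` is bounded there is `s₀ > 0` with `u₀ + s₀ • v ∉ K` for all unit `v`, i.e.
  `busR ρ (φ (u₀ + s₀ • v)) > 0`; by compactness of the unit sphere there is `κ > 0` with `κ ≤ busR ρ (φ (u₀ + s₀ • v))` for all unit
  vectors `v` (if there is no unit vector take `κ = 1`).
* `growth`: `c = κ / (2 * s₀)`, `T = s₀ ^ 2 / κ` (increase `T` to make it positive).  With `σ t' = φ (u₀ + t' • v)` (a ray from `ρ 0`,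
  asymptotic to `dir φ v`), `busR_lower` at `x = ρ t`, `T = s₀`: `busR σ (ρ t) ≥ (dist (ρ t) (σ s₀) ^ 2 - s₀ ^ 2 - t ^ 2) / (2 * s₀)`,
  and `dist (ρ t) (σ s₀) ≥ t + κ` (`busR_le hρ (σ s₀) ht`).  So `busR σ (ρ t) ≥ (2 t κ - s₀ ^ 2) / (2 s₀) ≥ c * t` for `t ≥ T`.
  `busR σ (ρ 0) = 0`; `busR_asym`.
* `sum_zero_of_parallel`: `ℓ` a line asymptotic to `dir φ v` at `+∞` and to `dir φ (-v)` at `-∞`.  Then
  `busR (dir φ v) (ℓ s) + busR (dir φ (-v)) (ℓ s) = 0` (same argument as `busF_sum_zero` in `Split.lean`: write `m t = φ (t • v)`, a line;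
  `busR (dir φ v) = busR ℓ + k`, `busR (dir φ (-v)) = busR ℓ⁻ + k'` by `busR_asym`; both sums `busF m + busF m⁻`, `busF ℓ + busF ℓ⁻` are
  nonnegative everywhere and vanish on their own line).
* `parallel_far`: `D x = busR (dir φ v) x + busR (dir φ (-v)) x` is 2-Lipschitz (`abs_busR_sub_le`), `D (ρ t) ≥ D (ρ 0) + 2 c t = 2 c t`
  (`D = 0` on the flat, `busR_dir`), `D (ℓ s) = 0`.
-/

open Set Filter Topology Metric
open Pool.Agent.H29 Pool.Agent.H29.RR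
open scoped RealInnerProductSpace

set_option linter.unusedSectionVars false

namespace Pool.Agent.H75.SF

variable {X : Type*} [MetricSpace X] [IsCAT0 X] [ProperSpace X]
variable {V : Type*} [NormedAddCommGroup V] [InnerProductSpace ℝ V] {φ : V → X}
variable {C : Set X} {ρ : ℝ → X}

lemma exists_kappa [FiniteDimensional ℝ V] (hφ : Isometry φ) (h : Orth C ρ)
    (hb : Bornology.IsBounded (Kset φ ρ)) (u₀ : V) :
    ∃ s₀ κ : ℝ, 0 < s₀ ∧ 0 < κ ∧ ∀ v : V, ‖v‖ = 1 → κ ≤ busR ρ (φ (u₀ + s₀ • v)) := by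
  obtain ⟨R, hR⟩ := hb.subset_closedBall (0 : V)
  set s₀ : ℝ := |R| + ‖u₀‖ + 1 with hs₀
  have hs₀pos : 0 < s₀ := by positivity
  have hpos : ∀ v : V, ‖v‖ = 1 → 0 < busR ρ (φ (u₀ + s₀ • v)) := by
    intro v hv
    by_contra hcon
    push Not at hcon
    have h1 : u₀ + s₀ • v ∈ Kset φ ρ := hcon
    have h2 := hR h1
    rw [mem_closedBall, dist_zero_right] at h2
    have h3 : ‖s₀ • v‖ ≤ ‖u₀ + s₀ • v‖ + ‖u₀‖ := by
      have := norm_sub_le (u₀ + s₀ • v) u₀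
      simpa using this
    rw [norm_smul, hv, mul_one, Real.norm_of_nonneg hs₀pos.le] at h3
    have := le_abs_self R
    linarith
  rcases (sphere (0 : V) 1).eq_empty_or_nonempty with hem | hne
  · refine ⟨s₀, 1, hs₀pos, one_pos, fun v hv => ?_⟩
    have : v ∈ sphere (0 : V) 1 := by simpa using hv
    rw [hem] at this
    exact absurd this (notMem_empty v)
  · have hcont : Continuous (fun v : V => busR ρ (φ (u₀ + s₀ • v))) :=
      (continuous_busR h.ray).comp (hφ.continuous.comp (by fun_prop))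
    obtain ⟨v₀, hv₀, hmin⟩ := (isCompact_sphere (0 : V) 1).exists_isMinOn hne hcont.continuousOn
    refine ⟨s₀, busR ρ (φ (u₀ + s₀ • v₀)), hs₀pos, hpos v₀ (by simpa using hv₀), ?_⟩
    intro v hv
    exact hmin (show v ∈ sphere (0 : V) 1 by simpa using hv)

theorem growth [FiniteDimensional ℝ V] (hφ : Isometry φ) (hC : FSide φ C) (h : Orth C ρ)
    (hb : Bornology.IsBounded (Kset φ ρ)) :
    ∃ c T : ℝ, 0 < c ∧ 0 < T ∧ ∀ v : V, ‖v‖ = 1 → ∀ t, T ≤ t →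
      busR (dir φ v) (ρ 0) + c * t ≤ busR (dir φ v) (ρ t) := by
  obtain ⟨u₀, hu₀⟩ := h.foot hC
  obtain ⟨s₀, κ, hs₀, hκ, hk⟩ := exists_kappa hφ h hb u₀
  refine ⟨κ / (2 * s₀), s₀ ^ 2 / κ, by positivity, by positivity, ?_⟩
  intro v hv t ht
  have ht0 : 0 < t := lt_of_lt_of_le (by positivity) ht
  have hκt : s₀ ^ 2 ≤ κ * t := by
    rw [div_le_iff₀ hκ] at ht
    linarith
  set σ : ℝ → X := fun t' => φ (u₀ + t' • v) with hσ
  have hσr : IsRay σ := isRay_flat hφ u₀ hv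
  have hσ0 : σ 0 = ρ 0 := by simp [hσ, hu₀]
  have h1 := busR_lower hσr (ρ t) hs₀
  have h2 : dist (ρ t) (σ 0) = t := by
    rw [hσ0, h.ray t 0 ht0.le le_rfl, sub_zero, abs_of_pos ht0]
  have h3 : κ ≤ dist (σ s₀) (ρ t) - t := (hk v hv).trans (busR_le h.ray _ ht0.le)
  rw [h2] at h1
  have h4 : (t + κ) ^ 2 ≤ dist (ρ t) (σ s₀) ^ 2 := by
    apply pow_le_pow_left₀ (by positivity)
    rw [dist_comm]
    linarith
  have h5 : κ / (2 * s₀) * t ≤ (dist (ρ t) (σ s₀) ^ 2 - s₀ ^ 2 - t ^ 2) / (2 * s₀) := by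
    rw [div_mul_eq_mul_div]
    apply div_le_div_of_nonneg_right _ (by positivity)
    nlinarith [mul_pos hκ ht0]
  have h6 : Asym σ (dir φ v) := by
    refine ⟨‖u₀‖, fun t' _ => ?_⟩
    show dist (φ (u₀ + t' • v)) (φ (t' • v)) ≤ ‖u₀‖
    rw [hφ.dist_eq, dist_eq_norm, add_sub_cancel_right]
  have h7 := busR_asym hσr (isRay_dir hφ hv) h6 (ρ 0) (ρ t)
  have h8 : busR σ (ρ 0) = 0 := by
    rw [← hσ0, busR_apply hσr le_rfl, neg_zero]
  linarith

end Pool.Agent.H75.SF
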