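import Pool.Agent.H75.SF.OrthRay
import Pool.Agent.H75.SF.NC1

/-!
# SF-10: growth along a strong pole

`ρ` orthogonal to `C` with `K = Kset φ ρ` bounded.
* `exists_kappa`: let `φ u₀ = ρ 0`; as `K` is bounded there is `s₀ > 0` with `u₀ + s₀ • v ∉ K` for all unit `v`, i.e.
  `busR ρ (φ (u₀ + s₀ • v)) > 0`; by compactness of the unit sphere there is `κ > 0` with `κ ≤ busR ρ (φ (u₀ + s₀ • v))` for all unit
  vectors `v` (if there is no unit vector take `κ = 1`).
* `growth`: `c = κ / (2 * s₀)`, `T = s₀ ^ 2 / κ` (increase `T` to make it positive).  With `σ t' = φ (u₀ + t' • v)` (a ray from `ρ 0`,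
  asymptotic to `dir φ v`), `busR_lower` at `x = ρ t`, `T = s₀`: `busR σ (ρ t) ≥ (dist (ρ t) (σ s₀) ^ 2 - s₀ ^ 2 - t ^ 2) / (2 * s₀)`,
  and `dist (ρ t) (σ s₀) ≥ t + κ` (`busR_le hρ (σ s₀) ht`).  So `busR σ (ρ t) ≥ (2 t κ - s₀ ^ 2) / (2 s₀) ≥ c * t` for `t ≥ T`.
  `busR σ (ρ 0) = 0`; `busR_asym`.
* `sum_zero_of_parallel`: `ℓ` a line asymptotic to `dir φ v` at `+∞` and to `dir φ (-v)` at `-∞`.  Then
  `busR (dir φ v) (ℓ s) + busR (dir φ (-v)) (ℓ s) = 0` (same argument as `busF_sum_zero` in `Split.lean`: write `m t = φ (t • v)`, a line;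
  `busR (dir φ v) = busR ℓ + k`, `busR (dir φ (-v)) = busR ℓ⁻ + k'` by `busR_asym`; both sums `busF m + busF m⁻`, `busF ℓ + busF ℓ⁻` are
  nonnegative everywhere and vanish on their own line).
* `parallel_far`: `D x = busR (dir φ v) x + busR (dir φ (-v)) x` is 2-Lipschitz (`abs_busR_sub_le`), `D (ρ t) ≥ D (ρ 0) + 2 c t = 2 c t`
  (`D = 0` on the flat, `busR_dir`), `D (ℓ s) = 0`.
-/

open Set Filter Topology Metric
open Pool.Agent.H29 Pool.Agent.H29.RR
open scoped RealInnerProductSpace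

set_option linter.unusedSectionVars false

namespace Pool.Agent.H75.SF

variable {X : Type*} [MetricSpace X] [IsCAT0 X] [ProperSpace X]
variable {V : Type*} [NormedAddCommGroup V] [InnerProductSpace ℝ V] {φ : V → X}
variable {C : Set X} {ρ : ℝ → X}

lemma sum_zero_of_parallel (hφ : Isometry φ) {v : V} (hv : ‖v‖ = 1) {ℓ : ℝ → X}
    (hℓ : Isometry ℓ) (h1 : Asym ℓ (dir φ v)) (h2 : Asym (fun t => ℓ (-t)) (dir φ (-v)))
    (s : ℝ) : busR (dir φ v) (ℓ s) + busR (dir φ (-v)) (ℓ s) = 0 := by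
  have hv' : ‖-v‖ = 1 := by rw [norm_neg]; exact hv
  have r1 := isRay_dir hφ hv
  have r2 := isRay_dir hφ hv'
  have hm : Isometry (dir φ v) := by
    apply hφ.comp
    apply Isometry.of_dist_eq
    intro a b
    rw [dist_eq_norm, ← sub_smul, norm_smul, hv, mul_one, Real.dist_eq, Real.norm_eq_abs]
  have hℓ' := isometry_comp_neg hℓ
  have k1 := busR_asym (isRay_of_isometry hℓ) r1 h1
  have k2 := busR_asym (isRay_of_isometry hℓ') r2 h2
  have e0 : dir φ (-v) = fun t => dir φ v (-t) := by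
    funext t
    simp [dir]
  -- sum along the flat line
  have z1 : ∀ t, busR (dir φ v) (dir φ v t) + busR (dir φ (-v)) (dir φ v t) = 0 := by
    intro t
    have a1 : busR (dir φ v) (dir φ v t) = -t := busF_line hm t
    have a2 : busR (dir φ (-v)) (dir φ v t) = t := by
      have := busF_line (isometry_comp_neg hm) (-t)
      simp only [neg_neg] at this
      rw [← e0] at this
      exact this
    rw [a1, a2]; ring
  have z2 : ∀ t, busR ℓ (ℓ t) + busR (fun t => ℓ (-t)) (ℓ t) = 0 := by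
    intro t
    have a1 : busR ℓ (ℓ t) = -t := busF_line hℓ t
    have a2 : busR (fun t => ℓ (-t)) (ℓ t) = t := by
      have := busF_line hℓ' (-t)
      simp only [neg_neg] at this
      exact this
    rw [a1, a2]; ring
  have p1 : ∀ x, 0 ≤ busR (dir φ v) x + busR (dir φ (-v)) x := by
    intro x
    rw [e0]
    exact busF_add_nonneg hm x
  have p2 : ∀ x, 0 ≤ busR ℓ x + busR (fun t => ℓ (-t)) x := fun x => busF_add_nonneg hℓ x
  have q1 := k1 (ℓ s) (dir φ v 0)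
  have q2 := k2 (ℓ s) (dir φ v 0)
  have := z1 0
  have := z2 s
  have := p1 (ℓ s)
  have := p2 (dir φ v 0)
  linarith

theorem parallel_far [FiniteDimensional ℝ V] (hφ : Isometry φ) (hC : FSide φ C) (h : Orth C ρ)
    (hb : Bornology.IsBounded (Kset φ ρ)) :
    ∃ c T : ℝ, 0 < c ∧ 0 < T ∧ ∀ t, T ≤ t → ∀ v : V, ‖v‖ = 1 → ∀ ℓ : ℝ → X, Isometry ℓ →
      Asym ℓ (dir φ v) → Asym (fun t => ℓ (-t)) (dir φ (-v)) → ∀ s, c * t ≤ dist (ρ t) (ℓ s) := by
  obtain ⟨c, T, hc, hT, hg⟩ := growth hφ hC h hb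
  refine ⟨c, T, hc, hT, ?_⟩
  intro t ht v hv ℓ hℓ h1 h2 s
  have hv' : ‖-v‖ = 1 := by rw [norm_neg]; exact hv
  have a1 := hg v hv t ht
  have a2 := hg (-v) hv' t ht
  have a3 := sum_zero_of_parallel hφ hv hℓ h1 h2 s
  obtain ⟨u, hu⟩ := h.foot hC
  have a4 : busR (dir φ v) (ρ 0) + busR (dir φ (-v)) (ρ 0) = 0 := by
    rw [← hu, busR_dir hφ u hv, busR_dir hφ u hv', inner_neg_right]
    ring
  have a5 := busR_lip (isRay_dir hφ hv) (ρ t) (ℓ s)
  have a6 := busR_lip (isRay_dir hφ hv') (ρ t) (ℓ s)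
  linarith

end Pool.Agent.H75.SF
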