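import Pool.Agent.H75.SF.LP
import Pool.Agent.H75.SF.Min

/-!
# SF-7: a minimal good set is symmetric

`Q` a minimal good set, `e ∈ Q`.  `Q` is closed, so for `-e ∈ Q` it suffices to find, for every small `ε > 0`
(say `ε < 1 / 100`), a point of `Q` at distance at most `2 * (2 * √ε + ε) + ε` from `-e`.

Let `δ₀` be given by `Good.near` for `e` and `ε`; put `δ = min δ₀ ε / 2`.  As `Q` is good there is an orthogonal ray
`ρ` with `Qset φ ρ ⊆ thickening δ Q`, and `Good.near` gives `e' ∈ Qset φ ρ`, `dist e' e < ε`.  Let `φ u₀ = ρ 0`.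

Claim: for all `s > 0` there is `k ∈ Kset φ ρ` with `‖k - (u₀ - s • e)‖ ≤ (2 * √ε + ε) * s + δ`.  Let `H` be given by
`limit_principle` for `ρ, δ, s`; `h = max H (s + 1)`, `x = ρ h`.  `exists_busR_up` for the ray `dir φ e'`: `y` with
`dist x y = s`, `busR (dir φ e') y = busR (dir φ e') x + s`.  As `infDist x C = h > s`, `y ∉ C`; `exists_orth`: orthogonal ray
`ρ'` with `ρ' τ = y`, `τ = infDist y C`.  By `limit_principle` `Qset φ ρ' ⊆ thickening δ (Qset φ ρ) ⊆ thickening δ₀ Q`, so there is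
`v ∈ Qset φ ρ'`, `dist v e < ε`; so `‖v - e'‖ < 2 ε`.  Let `φ u' = ρ' 0`.  Then
`⟪u₀ - u', v⟫ = busR (dir φ v) (ρ' 0) - busR (dir φ v) (ρ 0)` (`busR_dir`) `≥ busR (dir φ v) y - busR (dir φ v) x`
(`Orth.busR_const` for `ρ'`; `busR_proj_le` at `x` with `Orth.proj_eq`) `≥ busR (dir φ e') y - busR (dir φ e') x - 2 ε s =
(1 - 2 ε) s` (`busR_compare` with `L = ‖v - e'‖`, `dist_flat`).  Also `‖u₀ - u'‖ = dist (ρ 0) (ρ' 0) ≤ s` (`proj_lipschitz`).
So `‖u₀ - u' - s • v‖ ^ 2 ≤ s ^ 2 - 2 s (1 - 2 ε) s + s ^ 2 = 4 ε s ^ 2`, hence `‖u' - (u₀ - s • e)‖ ≤ 2 √ε s + ε s`; and `limit_principle`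
gives `k ∈ Kset φ ρ` with `dist u' k < δ`.

`neg_dir_of_claim` (pure convexity; `K = Kset φ ρ` is closed and convex in `V`): the unit-speed directions `(k n - u₀) / n`
for `s = n` are bounded; let `w` be their limit along `hyperfilter ℕ`: `‖w + e‖ ≤ 2 √ε + ε =: η ≤ 1/2`, and `u₀ + t • w ∈ K` for all `t ≥ 0`
(it is the limit of `(1 - t / n) • u₀ + (t / n) • k n`).  So `w ≠ 0`, `w' = w / ‖w‖` satisfies `‖w' + e‖ ≤ 2 η` and is a recession
direction: `w' ∈ Qset φ ρ` by `Qset_of_ray`.  Finally `w' ∈ thickening δ Q`, which gives a point of `Q` within `2 η + δ` of `-e`.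
-/

open Set Filter Topology Metric
open Pool.Agent.H29 Pool.Agent.H29.RR
open scoped RealInnerProductSpace

set_option linter.unusedSectionVars false

namespace Pool.Agent.H75.SF

variable {X : Type*} [MetricSpace X] [IsCAT0 X] [ProperSpace X]
variable {V : Type*} [NormedAddCommGroup V] [InnerProductSpace ℝ V] {φ : V → X}
variable {C : Set X} {Q : Set V}

/-- a closed convex set which contains points close to `u₀ - s e` for all `s` has a recession direction close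
to `-e` -/
lemma neg_dir_of_claim [FiniteDimensional ℝ V] {K : Set V} (hcl : IsClosed K)
    (hcv : Convex ℝ K) {u₀ e : V} (hu : u₀ ∈ K) (he : ‖e‖ = 1) {η δ : ℝ} (hη0 : 0 ≤ η)
    (hη : η ≤ 1 / 2) (h : ∀ s : ℝ, 0 < s → ∃ k ∈ K, ‖k - (u₀ - s • e)‖ ≤ η * s + δ) :
    ∃ w : V, ‖w‖ = 1 ∧ ‖w + e‖ ≤ 2 * η ∧ ∀ t : ℝ, 0 ≤ t → u₀ + t • w ∈ K := by
  have h' : ∀ n : ℕ, ∃ k ∈ K, ‖k - (u₀ - ((n : ℝ) + 1) • e)‖ ≤ η * ((n : ℝ) + 1) + δ :=
    fun n => h _ (by positivity)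
  choose k hkK hk using h'
  let d : ℕ → V := fun n => ((n : ℝ) + 1)⁻¹ • (k n - u₀)
  have hd : ∀ n, ‖d n + e‖ ≤ η + |δ| * ((n : ℝ) + 1)⁻¹ := by
    intro n
    have hn : (0 : ℝ) < (n : ℝ) + 1 := by positivity
    have e1 : d n + e = ((n : ℝ) + 1)⁻¹ • (k n - (u₀ - ((n : ℝ) + 1) • e)) := by
      have e2 : k n - (u₀ - ((n : ℝ) + 1) • e) = (k n - u₀) + ((n : ℝ) + 1) • e := by abel
      rw [e2, smul_add, smul_smul, inv_mul_cancel₀ hn.ne', one_smul]
    rw [e1, norm_smul, norm_inv, Real.norm_of_nonneg hn.le]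
    calc ((n : ℝ) + 1)⁻¹ * ‖k n - (u₀ - ((n : ℝ) + 1) • e)‖
        ≤ ((n : ℝ) + 1)⁻¹ * (η * ((n : ℝ) + 1) + |δ|) := by
          refine mul_le_mul_of_nonneg_left ?_ (inv_nonneg.2 hn.le)
          have := hk n
          have h2 := le_abs_self δ
          linarith
      _ = η + |δ| * ((n : ℝ) + 1)⁻¹ := by field_simp
  have hinv : ∀ n : ℕ, ((n : ℝ) + 1)⁻¹ ≤ 1 := by
    intro n
    rw [inv_le_one₀ (by positivity)]
    have : (0 : ℝ) ≤ n := Nat.cast_nonneg n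
    linarith
  have hball : ∀ n, d n ∈ closedBall (-e) (η + |δ|) := by
    intro n
    rw [mem_closedBall, dist_eq_norm, sub_neg_eq_add]
    refine (hd n).trans ?_
    have h1 := mul_le_mul_of_nonneg_left (hinv n) (abs_nonneg δ)
    linarith
  obtain ⟨w, -, ψ, hψ, hlim⟩ := (isCompact_closedBall (-e) (η + |δ|)).tendsto_subseq hball
  have hψt : Tendsto (fun n => (ψ n : ℝ)) atTop atTop :=
    tendsto_natCast_atTop_atTop.comp hψ.tendsto_atTop
  have hz : Tendsto (fun n => ((ψ n : ℝ) + 1)⁻¹) atTop (𝓝 0) :=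
    tendsto_inv_atTop_zero.comp (tendsto_atTop_add_const_right _ _ hψt)
  have hwe : ‖w + e‖ ≤ η := by
    have h1 : Tendsto (fun n => ‖d (ψ n) + e‖) atTop (𝓝 ‖w + e‖) := (hlim.add_const e).norm
    have h2 : Tendsto (fun n => η + |δ| * ((ψ n : ℝ) + 1)⁻¹) atTop (𝓝 (η + |δ| * 0)) :=
      tendsto_const_nhds.add (tendsto_const_nhds.mul hz)
    rw [mul_zero, add_zero] at h2
    exact le_of_tendsto_of_tendsto' h1 h2 fun n => hd (ψ n)
  have hwK : ∀ t : ℝ, 0 ≤ t → u₀ + t • w ∈ K := by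
    intro t ht
    have h1 : Tendsto (fun n => u₀ + t • d (ψ n)) atTop (𝓝 (u₀ + t • w)) :=
      (hlim.const_smul t).const_add u₀
    refine hcl.mem_of_tendsto h1 ?_
    filter_upwards [hψt.eventually_ge_atTop t] with n hn
    have hN : (0 : ℝ) < (ψ n : ℝ) + 1 := by positivity
    have ha : 0 ≤ t * ((ψ n : ℝ) + 1)⁻¹ := mul_nonneg ht (inv_nonneg.2 hN.le)
    have hb : t * ((ψ n : ℝ) + 1)⁻¹ ≤ 1 := by
      rw [← div_eq_mul_inv, div_le_one hN]
      linarith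
    have h2 := hcv hu (hkK (ψ n)) (sub_nonneg.2 hb) ha (by ring)
    convert h2 using 1
    show u₀ + t • (((ψ n : ℝ) + 1)⁻¹ • (k (ψ n) - u₀)) = _
    rw [smul_smul, smul_sub, sub_smul, one_smul]
    abel
  have habs : |1 - ‖w‖| ≤ η := by
    have h1 := abs_norm_sub_norm_le e (-w)
    rw [sub_neg_eq_add, norm_neg, he, add_comm e w] at h1
    exact h1.trans hwe
  have hw0 : 0 < ‖w‖ := by
    have := (abs_le.1 habs).2
    linarith
  refine ⟨‖w‖⁻¹ • w, ?_, ?_, fun t ht => ?_⟩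
  · rw [norm_smul, norm_inv, norm_norm, inv_mul_cancel₀ hw0.ne']
  · have e1 : ‖w‖⁻¹ • w + e = (‖w‖⁻¹ - 1) • w + (w + e) := by
      rw [sub_smul, one_smul]; abel
    rw [e1]
    refine (norm_add_le _ _).trans ?_
    have e2 : ‖(‖w‖⁻¹ - 1) • w‖ = |1 - ‖w‖| := by
      rw [norm_smul, Real.norm_eq_abs]
      nth_rw 2 [← abs_of_pos hw0]
      rw [← abs_mul, sub_mul, inv_mul_cancel₀ hw0.ne', one_mul]
    rw [e2]
    linarith
  · rw [smul_smul]
    exact hwK _ (mul_nonneg ht (inv_nonneg.2 hw0.le))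

end Pool.Agent.H75.SF
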