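import Pool.Agent.H75.SF.Bus1

/-!
# SF-2: Busemann functions of rays, four tools

* `busR_lower`.  `g t := dist x (ρ t) ^ 2 - t ^ 2` is convex on `[0,∞)` by the CN inequality
  (`cn_pt x (ρ 0) (ρ t) l` with `ray_pt`), so `(g T - g 0) / T ≤ (g t - g 0) / t` for `t ≥ T > 0`, i.e.
  `(t / T) * (g T - g 0) ≤ g t - g 0`; and `(g t - g 0) / t → 2 * busR ρ x`: with
  `b t = dist x (ρ t) - t → busR ρ x` we have `g t = b t ^ 2 + 2 * t * b t`.
* `busR_compare`.  `quad x y (ρ t) (σ t)` (as in `IsDR.bus_sub_const`):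
  `dist x (ρ t)^2 + dist y (σ t)^2 ≤ dist x (σ t)^2 + dist y (ρ t)^2 + 2 * dist x y * dist (ρ t) (σ t)`; write
  all four distances as `t + (bounded convergent)`, divide by `2 t`, let `t → ∞`:
  `b_ρ x + b_σ y ≤ b_σ x + b_ρ y + L * dist x y`. Then exchange `x` and `y`.
* `busR_asym`: `L = 0`.
* `exists_busR_down`: `exists_ray_from hρ x` gives a ray `σ` from `x` asymptotic to `ρ`; take `y = σ s`
  (`busR_asym`, `busR_apply`).
* `exists_busR_up` (geodesic completeness).  For large `n` extend the segment from `ρ n` to `x` beyond `x`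
  (`GeodesicallyComplete.line` for `ρ n ≠ x`) by `s`: points `y n` with `dist x (y n) = s` and
  `dist (y n) (ρ n) = dist x (ρ n) + s`.  `closedBall x s` is compact, take a limit `y` of a subsequence or along an
  ultrafilter.  For fixed `t ≥ 0` and `n ≥ t`: `dist (y n) (ρ t) ≥ dist (y n) (ρ n) - (n - t) =
  (dist x (ρ n) - n) + s + t ≥ busR ρ x + s + t`, hence `dist y (ρ t) - t ≥ busR ρ x + s`, so
  `busR ρ y ≥ busR ρ x + s`; the other inequality is `busR_lip`.
-/

open Set Filter Topology Metric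
open Pool.Agent.H29 Pool.Agent.H29.RR

set_option linter.unusedSectionVars false

namespace Pool.Agent.H75.SF

variable {X : Type*} [MetricSpace X] [IsCAT0 X]

lemma busR_lower {ρ : ℝ → X} (hρ : IsRay ρ) (x : X) {T : ℝ} (hT : 0 < T) :
    (dist x (ρ T) ^ 2 - T ^ 2 - dist x (ρ 0) ^ 2) / (2 * T) ≤ busR ρ x := by
  have tb := tendsto_busR hρ x
  have t0 : Tendsto (fun t : ℝ => t⁻¹) atTop (𝓝 0) := tendsto_inv_atTop_zero
  have tl : Tendsto (fun t : ℝ => (dist x (ρ t) - t) +
      ((dist x (ρ t) - t) ^ 2 - dist x (ρ 0) ^ 2) / 2 * t⁻¹) atTop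
      (𝓝 (busR ρ x + (busR ρ x ^ 2 - dist x (ρ 0) ^ 2) / 2 * 0)) :=
    tb.add ((((tb.pow 2).sub_const _).div_const _).mul t0)
  rw [mul_zero, add_zero] at tl
  refine ge_of_tendsto tl ?_
  filter_upwards [eventually_ge_atTop T] with t ht
  have htpos : 0 < t := hT.trans_le ht
  have hl : T / t ∈ Icc (0 : ℝ) 1 := ⟨by positivity, (div_le_one htpos).2 ht⟩
  have h1 := ray_pt hρ htpos.le hl
  rw [div_mul_cancel₀ _ htpos.ne'] at h1
  have h2 := cn_pt x (ρ 0) (ρ t) hl
  rw [← h1, hρ 0 t le_rfl htpos.le, zero_sub, abs_neg, abs_of_nonneg htpos.le] at h2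
  have h3 : T / t * (1 - T / t) * t ^ 2 = T * t - T ^ 2 := by
    field_simp
  have h4 : dist x (ρ T) ^ 2 - T ^ 2 - dist x (ρ 0) ^ 2 ≤
      T / t * (dist x (ρ t) ^ 2 - dist x (ρ 0) ^ 2) - T * t := by
    rw [h3] at h2
    nlinarith [h2]
  rw [div_le_iff₀ (by positivity)]
  refine h4.trans (le_of_eq ?_)
  field_simp
  ring

lemma busR_compare {ρ σ : ℝ → X} (hρ : IsRay ρ) (hσ : IsRay σ) {L M : ℝ}
    (h : ∀ t, 0 ≤ t → dist (ρ t) (σ t) ≤ L * t + M) (x y : X) :
    |(busR ρ y - busR ρ x) - (busR σ y - busR σ x)| ≤ L * dist x y := by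
  have key : ∀ x y : X, busR ρ x + busR σ y ≤ busR σ x + busR ρ y + L * dist x y := by
    intro x y
    have t0 : Tendsto (fun t : ℝ => t⁻¹) atTop (𝓝 0) := tendsto_inv_atTop_zero
    have tP := tendsto_busR hρ x
    have tQ := tendsto_busR hσ y
    have tP' := tendsto_busR hσ x
    have tQ' := tendsto_busR hρ y
    have tl : Tendsto (fun t : ℝ => ((dist x (ρ t) - t) + (dist y (σ t) - t)) +
        ((dist x (ρ t) - t) ^ 2 + (dist y (σ t) - t) ^ 2) / 2 * t⁻¹) atTop
        (𝓝 ((busR ρ x + busR σ y) + (busR ρ x ^ 2 + busR σ y ^ 2) / 2 * 0)) :=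
      (tP.add tQ).add ((((tP.pow 2).add (tQ.pow 2)).div_const _).mul t0)
    have tr : Tendsto (fun t : ℝ => ((dist x (σ t) - t) + (dist y (ρ t) - t)) +
        ((dist x (σ t) - t) ^ 2 + (dist y (ρ t) - t) ^ 2) / 2 * t⁻¹ +
        (L * dist x y + dist x y * M * t⁻¹)) atTop
        (𝓝 ((busR σ x + busR ρ y) + (busR σ x ^ 2 + busR ρ y ^ 2) / 2 * 0 +
          (L * dist x y + dist x y * M * 0))) :=
      ((tP'.add tQ').add ((((tP'.pow 2).add (tQ'.pow 2)).div_const _).mul t0)).add
        (tendsto_const_nhds.add (t0.const_mul _))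
    have hle := le_of_tendsto_of_tendsto tl tr (by
      filter_upwards [eventually_gt_atTop 0] with t ht
      have hq := quad x y (ρ t) (σ t)
      have h1 : dist x y * dist (ρ t) (σ t) ≤ dist x y * (L * t + M) :=
        mul_le_mul_of_nonneg_left (h t ht.le) dist_nonneg
      set a := dist x (ρ t) - t with ha
      set b := dist y (σ t) - t with hb
      set a' := dist x (σ t) - t with ha'
      set b' := dist y (ρ t) - t with hb'
      have e1 : dist x (ρ t) = a + t := by simp [ha]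
      have e2 : dist y (σ t) = b + t := by simp [hb]
      have e3 : dist x (σ t) = a' + t := by simp [ha']
      have e4 : dist y (ρ t) = b' + t := by simp [hb']
      rw [e1, e2, e3, e4] at hq
      have h2 : a ^ 2 + b ^ 2 + 2 * t * (a + b) ≤
          a' ^ 2 + b' ^ 2 + 2 * t * (a' + b') + 2 * (dist x y * (L * t + M)) := by
        nlinarith [hq, h1]
      have h3 := mul_le_mul_of_nonneg_right h2 (inv_nonneg.2 (by positivity : (0 : ℝ) ≤ 2 * t))
      have l1 : (a ^ 2 + b ^ 2 + 2 * t * (a + b)) * (2 * t)⁻¹ =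
          (a + b) + (a ^ 2 + b ^ 2) / 2 * t⁻¹ := by
        field_simp
        ring
      have l2 : (a' ^ 2 + b' ^ 2 + 2 * t * (a' + b') + 2 * (dist x y * (L * t + M))) * (2 * t)⁻¹ =
          (a' + b') + (a' ^ 2 + b' ^ 2) / 2 * t⁻¹ + (L * dist x y + dist x y * M * t⁻¹) := by
        field_simp
        ring
      rw [l1, l2] at h3
      exact h3)
    simp only [mul_zero, add_zero] at hle
    linarith
  have h1 := key x y
  have h2 := key y x
  rw [dist_comm y x] at h2
  rw [abs_le]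
  constructor <;> linarith

lemma busR_asym {ρ σ : ℝ → X} (hρ : IsRay ρ) (hσ : IsRay σ) (h : Asym ρ σ) (x y : X) :
    busR ρ y - busR ρ x = busR σ y - busR σ x := by
  obtain ⟨M, hM⟩ := h
  have h1 := busR_compare hρ hσ (L := 0) (M := M)
    (fun t ht => by rw [zero_mul, zero_add]; exact hM t ht) x y
  rw [zero_mul] at h1
  have h2 := abs_nonpos_iff.1 h1
  linarith

lemma exists_busR_down [ProperSpace X] {ρ : ℝ → X} (hρ : IsRay ρ) (x : X) {s : ℝ} (hs : 0 ≤ s) :
    ∃ y, dist x y = s ∧ busR ρ y = busR ρ x - s := by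
  obtain ⟨σ, hσ, h0, has⟩ := exists_ray_from hρ x
  refine ⟨σ s, ?_, ?_⟩
  · rw [← h0, hσ 0 s le_rfl hs, zero_sub, abs_neg, abs_of_nonneg hs]
  · have h1 := busR_asym hρ hσ has x (σ s)
    have h2 := busR_apply hσ hs
    have h3 := busR_apply hσ (le_refl 0)
    rw [h0, neg_zero] at h3
    rw [h2, h3] at h1
    linarith

lemma exists_busR_up [ProperSpace X] (hgc : GeodesicallyComplete X) {ρ : ℝ → X} (hρ : IsRay ρ)
    (x : X) {s : ℝ} (hs : 0 ≤ s) : ∃ y, dist x y = s ∧ busR ρ y = busR ρ x + s := by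
  have hex : ∀ n : ℕ, ∃ y, dist x y = s ∧ dist y (ρ n) = dist x (ρ n) + s := by
    intro n
    by_cases hn : ρ n = x
    · obtain ⟨y, hy, -⟩ := exists_busR_down hρ x hs
      refine ⟨y, hy, ?_⟩
      rw [hn, dist_self, dist_comm, hy, zero_add]
    · obtain ⟨c, hc, hc0, hc1⟩ := hgc.line hn
      refine ⟨c (dist (ρ n) x + s), ?_, ?_⟩
      · nth_rewrite 1 [← hc1]
        rw [hc.dist_eq, Real.dist_eq]
        have : dist (ρ n) x - (dist (ρ n) x + s) = -s := by ring
        rw [this, abs_neg, abs_of_nonneg hs]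
      · nth_rewrite 2 [← hc0]
        rw [hc.dist_eq, Real.dist_eq, sub_zero, abs_of_nonneg (by positivity), dist_comm x]
  choose y hy1 hy2 using hex
  obtain ⟨a, -, φ, hφ, ha⟩ := (isCompact_closedBall x s).tendsto_subseq
    (fun n => by rw [mem_closedBall, dist_comm]; exact (hy1 n).le)
  have hda : dist x a = s := by
    have h1 : Tendsto (fun n => dist x (y (φ n))) atTop (𝓝 (dist x a)) :=
      tendsto_const_nhds.dist ha
    have h2 : (fun n => dist x (y (φ n))) = fun _ => s := by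
      funext n
      exact hy1 _
    rw [h2] at h1
    exact tendsto_nhds_unique h1 tendsto_const_nhds
  refine ⟨a, hda, le_antisymm ?_ ?_⟩
  · have := busR_lip hρ a x
    rw [dist_comm a x, hda] at this
    exact this
  · refine ge_of_tendsto (tendsto_busR hρ a) ?_
    filter_upwards [eventually_ge_atTop 0] with t ht
    have h1 : Tendsto (fun n => dist (y (φ n)) (ρ t)) atTop (𝓝 (dist a (ρ t))) :=
      ha.dist tendsto_const_nhds
    have h2 : busR ρ x + s + t ≤ dist a (ρ t) := by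
      refine ge_of_tendsto h1 ?_
      obtain ⟨N, hN⟩ := exists_nat_ge t
      filter_upwards [eventually_ge_atTop N] with n hn
      have h3 : t ≤ (φ n : ℝ) := by
        refine hN.trans ?_
        exact_mod_cast hn.trans (hφ.id_le n)
      have h4 := dist_triangle (y (φ n)) (ρ t) (ρ (φ n))
      rw [hy2, hρ t _ ht (ht.trans h3), abs_sub_comm, abs_of_nonneg (by linarith)] at h4
      have h5 := busR_le hρ x (Nat.cast_nonneg (φ n))
      linarith
    linarith

end Pool.Agent.H75.SF
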