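import Pool.Agent.H75.SF.Flat1
import Pool.Agent.H75.SF.Bus2

/-!
# SF-13: rays at bounded distance from convex sets

* `Bdd.infDist_le`: `IsRay.bdd_le` for the convex function `infDist · S` (`gconvexFun_infDist`).
* `Bdd.asym`: triangle inequality for `infDist` (`infDist_le_infDist_add_dist`).
* `Bdd.smul`: `infDist_smul_smul` in `Pool.Agent.H29.RR.Geo2B`.
* `exists_dir_of_Bdd`: `r` a ray with `Bdd r (range φ)`.  Let `M` be a bound, `p n ∈ range φ` with `dist (r n) (p n) ≤ M`, `p n = φ (u n)`.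
  `‖u n‖ = dist (φ (u n)) (φ 0)` is at least `n - M - dist (r 0) (φ 0)`.  Let `v` be the limit along `U = hyperfilter ℕ` of `u n / ‖u n‖`
  (unit sphere compact).  The geodesic from `φ 0` to `φ (u n)` is `t ↦ φ ((t / ‖u n‖) • u n)`; let `σ` be a ray from `φ 0` asymptotic to `r`
  (`exists_ray_from`).  For fixed `t` and large `n`: `dist (σ t) (φ ((t / ‖u n‖) • u n)) → 0` as both are points of geodesics from `φ 0` to points
  `σ n`, `φ (u n)` at distance `≤ M'`, (`dist_pt_pt_left_le`, `ray_pt`; the times differ by at most `M'`).  So `σ t = φ (t • v)`.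
  (Alternatively: the sequence of midpoint projections; any argument is fine.)
* `dir_unique`: `dist (φ (t • v)) (φ (t • w)) = t * ‖v - w‖` is bounded only if `v = w`.
* `dist_le_of_dir`: `r`, `r'` rays from one point, `Asym r (dir φ v)`, `Asym r' (dir φ w)`: `dist (r t) (r' t) ≤ t * ‖v - w‖ + M` for all `t ≥ 0`;
  and for `0 ≤ N ≤ t`, `dist (r N) (r' N) ≤ (N / t) * dist (r t) (r' t)` (`ray_pt`, `dist_pt_pt_left_le`); let `t → ∞`.
* `Bdd_dir_convex`: on the set of `v` with `Bdd (dir φ v) S` : by `rec_dir`-type monotonicity `infDist (φ (t • v)) S ≤ infDist (φ 0) S` for `t ≥ 0`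
  (the function `t ↦ infDist (φ (t • v)) S` is convex and bounded above on `[0,∞)`, also for `v` not of norm one: `convexOn_comp_flat` and `rec_dir`).
-/

open Set Filter Topology Metric
open Pool.Agent.H29 Pool.Agent.H29.RR
open scoped Pointwise

set_option linter.unusedSectionVars false

namespace Pool.Agent.H75.SF

variable {X : Type*} [MetricSpace X] [IsCAT0 X] [ProperSpace X]
variable {V : Type*} [NormedAddCommGroup V] [InnerProductSpace ℝ V] {φ : V → X}

lemma Bdd.infDist_le {r : ℝ → X} (hr : IsRay r) {S : Set X} (hcl : IsClosed S)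
    (hne : S.Nonempty) (hcv : GConvex S) (h : Bdd r S) {t : ℝ} (ht : 0 ≤ t) :
    infDist (r t) S ≤ infDist (r 0) S := by
  obtain ⟨M, hM⟩ := h
  exact hr.bdd_le (gconvexFun_infDist hcl hne hcv) hM t ht

lemma Bdd.asym {r r' : ℝ → X} {S : Set X} (h : Bdd r S) (ha : Asym r r') :
    Bdd r' S := by
  obtain ⟨M, hM⟩ := h
  obtain ⟨M', hM'⟩ := ha
  refine ⟨M + M', fun t ht => ?_⟩
  have h1 := infDist_le_infDist_add_dist (s := S) (x := r' t) (y := r t)
  rw [dist_comm] at h1
  linarith [hM t ht, hM' t ht]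

lemma Bdd.smul {G : Type*} [Group G] [MulAction G X] [IsIsometricSMul G X] {r : ℝ → X}
    {S : Set X} (h : Bdd r S) (g : G) : Bdd (fun t => g • r t) (g • S) := by
  obtain ⟨M, hM⟩ := h
  refine ⟨M, fun t ht => ?_⟩
  show Metric.infDist (g • r t) (g • S) ≤ M
  rw [infDist_smul_smul]
  exact hM t ht

/-- directions of the flat at bounded distance from `S`: they do not increase the distance to `S` -/
lemma Bdd_dir_le (hφ : Isometry φ) {S : Set X} (hcl : IsClosed S) (hne : S.Nonempty)
    (hcv : GConvex S) {v : V} (h : Bdd (dir φ v) S) (u : V) {t : ℝ} (ht : 0 ≤ t) :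
    infDist (φ (u + t • v)) S ≤ infDist (φ u) S := by
  obtain ⟨M, hM⟩ := h
  have h1 := convexOn_comp_flat hφ (gconvexFun_infDist hcl hne hcv)
  have h2 : Continuous (fun u => infDist (φ u) S) := (continuous_infDist_pt S).comp hφ.continuous
  refine rec_dir (u' := 0) (M := M) h1 h2 (fun s hs => ?_) u ht
  rw [zero_add]
  exact hM s hs

/-- the directions at bounded distance from `S` form a closed convex cone -/
lemma Bdd_dir_add (hφ : Isometry φ) {S : Set X} (hcl : IsClosed S) (hne : S.Nonempty)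
    (hcv : GConvex S) {v w : V} (hv : Bdd (dir φ v) S) (hw : Bdd (dir φ w) S) :
    Bdd (dir φ (v + w)) S := by
  refine ⟨infDist (φ 0) S, fun t ht => ?_⟩
  have h1 := Bdd_dir_le hφ hcl hne hcv hw (t • v) ht
  have h2 := Bdd_dir_le hφ hcl hne hcv hv 0 ht
  rw [zero_add] at h2
  show infDist (φ (t • (v + w))) S ≤ _
  rw [smul_add]
  exact h1.trans h2

lemma Bdd_dir_smul {S : Set X} {v : V} (hv : Bdd (dir φ v) S) {t : ℝ}
    (ht : 0 ≤ t) : Bdd (dir φ (t • v)) S := by
  obtain ⟨M, hM⟩ := hv
  refine ⟨M, fun s hs => ?_⟩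
  show infDist (φ (s • (t • v))) S ≤ _
  rw [smul_smul]
  exact hM (s * t) (mul_nonneg hs ht)

lemma isClosed_Bdd_dir (hφ : Isometry φ) {S : Set X} (hcl : IsClosed S) (hne : S.Nonempty)
    (hcv : GConvex S) : IsClosed {v : V | Bdd (dir φ v) S} := by
  have h1 : {v : V | Bdd (dir φ v) S} =
      ⋂ t : Ici (0 : ℝ), {v : V | infDist (φ ((t : ℝ) • v)) S ≤ infDist (φ 0) S} := by
    ext v
    simp only [mem_setOf_eq, mem_iInter]
    constructor
    · intro h t
      have h2 := Bdd_dir_le hφ hcl hne hcv h 0 t.2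
      rwa [zero_add] at h2
    · intro h
      exact ⟨infDist (φ 0) S, fun t ht => h ⟨t, ht⟩⟩
  rw [h1]
  refine isClosed_iInter fun t => isClosed_le ?_ continuous_const
  exact (continuous_infDist_pt S).comp (hφ.continuous.comp (continuous_const_smul _))

end Pool.Agent.H75.SF
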