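import Pool.Agent.H75.SF.Flat1
import Pool.Agent.H75.SF.Bus2
import Pool.Agent.H75.SF.BddRay1

/-!
# SF-13: rays at bounded distance from convex sets

* `Bdd.infDist_le`: `IsRay.bdd_le` for the convex function `infDist · S` (`gconvexFun_infDist`).
* `Bdd.asym`: triangle inequality for `infDist` (`infDist_le_infDist_add_dist`).
* `Bdd.smul`: `infDist_smul_smul` in `Pool.Agent.H29.RR.Geo2B`.
* `exists_dir_of_Bdd`: `r` a ray with `Bdd r (range φ)`.  Let `M` be a bound, `p n ∈ range φ` with `dist (r n) (p n) ≤ M`, `p n = φ (u n)`.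
  `‖u n‖ = dist (φ (u n)) (φ 0)` is at least `n - M - dist (r 0) (φ 0)`.  Let `v` be the limit along `U = hyperfilter ℕ` of `u n / ‖u n‖`
  (unit sphere compact).  The geodesic from `φ 0` to `φ (u n)` is `t ↦ φ ((t / ‖u n‖) • u n)`; let `σ` be a ray from `φ 0` asymptotic to `r`
  (`exists_ray_from`).  For fixed `t` and large `n`: `dist (σ t) (φ ((t / ‖u n‖) • u n)) → 0` as both are points of geodesics from `φ 0` to points
  `σ n`, `φ (u n)` at distance `≤ M'`, (`dist_pt_pt_left_le`, `ray_pt`; the times differ by at most `M'`).  So `σ t = φ (t • v)`.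
  (Alternatively: the sequence of midpoint projections; any argument is fine.)
* `dir_unique`: `dist (φ (t • v)) (φ (t • w)) = t * ‖v - w‖` is bounded only if `v = w`.
* `dist_le_of_dir`: `r`, `r'` rays from one point, `Asym r (dir φ v)`, `Asym r' (dir φ w)`: `dist (r t) (r' t) ≤ t * ‖v - w‖ + M` for all `t ≥ 0`;
  and for `0 ≤ N ≤ t`, `dist (r N) (r' N) ≤ (N / t) * dist (r t) (r' t)` (`ray_pt`, `dist_pt_pt_left_le`); let `t → ∞`.
* `Bdd_dir_convex`: on the set of `v` with `Bdd (dir φ v) S` : by `rec_dir`-type monotonicity `infDist (φ (t • v)) S ≤ infDist (φ 0) S` for `t ≥ 0`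
  (the function `t ↦ infDist (φ (t • v)) S` is convex and bounded above on `[0,∞)`, also for `v` not of norm one: `convexOn_comp_flat` and `rec_dir`).
-/

open Set Filter Topology Metric
open Pool.Agent.H29 Pool.Agent.H29.RR
open scoped Pointwise

set_option linter.unusedSectionVars false

namespace Pool.Agent.H75.SF

variable {X : Type*} [MetricSpace X] [IsCAT0 X] [ProperSpace X]
variable {V : Type*} [NormedAddCommGroup V] [InnerProductSpace ℝ V] {φ : V → X}

lemma exists_dir_of_Bdd [FiniteDimensional ℝ V] (hφ : Isometry φ) {r : ℝ → X} (hr : IsRay r)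
    (h : Bdd r (range φ)) : ∃ v : V, ‖v‖ = 1 ∧ Asym r (dir φ v) := by
  have hcl := isClosed_range_flat hφ
  have hne : (range φ).Nonempty := range_nonempty φ
  have hcv := gconvex_range hφ
  obtain ⟨σ, hσ, hσ0, hrσ⟩ := exists_ray_from hr (φ 0)
  have hσB : Bdd σ (range φ) := h.asym hrσ
  have hmem : ∀ t : ℝ, 0 ≤ t → ∃ u : V, φ u = σ t := by
    intro t ht
    have h1 := Bdd.infDist_le hσ hcl hne hcv hσB ht
    have h2 : infDist (σ 0) (range φ) = 0 := by
      rw [hσ0]
      exact infDist_zero_of_mem (mem_range_self _)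
    rw [h2] at h1
    have h3 : infDist (σ t) (range φ) = 0 := le_antisymm h1 infDist_nonneg
    exact (hcl.mem_iff_infDist_zero hne).2 h3
  choose! lam hlam using hmem
  have hl0 : lam 0 = 0 := hφ.injective ((hlam 0 le_rfl).trans hσ0)
  have hmul : ∀ T l : ℝ, 0 ≤ T → l ∈ Icc (0 : ℝ) 1 → lam (l * T) = l • lam T := by
    intro T l hT hl
    apply hφ.injective
    rw [hlam _ (mul_nonneg hl.1 hT), ray_pt hσ hT hl, ← hlam 0 le_rfl, ← hlam T hT,
      ← flat_pt hφ _ _ hl, hl0, smul_zero, zero_add]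
  have hlin : ∀ t : ℝ, 0 ≤ t → lam t = t • lam 1 := by
    intro t ht
    rcases le_total t 1 with h1 | h1
    · have h2 := hmul 1 t zero_le_one ⟨ht, h1⟩
      rwa [mul_one] at h2
    · have ht0 : 0 < t := by linarith
      have h2 := hmul t (1 / t) ht ⟨by positivity, by rwa [div_le_one ht0]⟩
      rw [one_div, inv_mul_cancel₀ ht0.ne'] at h2
      rw [h2, smul_smul, mul_inv_cancel₀ ht0.ne', one_smul]
  refine ⟨lam 1, ?_, ?_⟩
  · have h1 := hσ 1 0 zero_le_one le_rfl
    rw [← hlam 1 zero_le_one, ← hlam 0 le_rfl, hφ.dist_eq, hl0, dist_zero_right] at h1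
    rw [h1]
    norm_num
  · obtain ⟨M, hM⟩ := hrσ
    refine ⟨M, fun t ht => ?_⟩
    show dist (r t) (φ (t • lam 1)) ≤ M
    rw [← hlin t ht, hlam t ht]
    exact hM t ht

lemma dir_unique (hφ : Isometry φ) {v w : V} (h : Asym (dir φ v) (dir φ w)) : v = w := by
  obtain ⟨M, hM⟩ := h
  have h1 : ∀ t : ℝ, 0 ≤ t → t * ‖v - w‖ ≤ M := by
    intro t ht
    have h2 := hM t ht
    rw [show dir φ v t = φ (t • v) from rfl, show dir φ w t = φ (t • w) from rfl,
      hφ.dist_eq, dist_eq_norm, ← smul_sub, norm_smul, Real.norm_eq_abs, abs_of_nonneg ht] at h2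
    exact h2
  by_contra hne
  have h3 : 0 < ‖v - w‖ := norm_pos_iff.2 (sub_ne_zero.2 hne)
  have hM0 : 0 ≤ M := by
    have := h1 0 le_rfl
    rwa [zero_mul] at this
  have h4 := h1 ((M + 1) / ‖v - w‖) (by positivity)
  rw [div_mul_cancel₀ _ h3.ne'] at h4
  linarith

lemma dist_le_of_dir (hφ : Isometry φ) {r r' : ℝ → X} (hr : IsRay r) (hr' : IsRay r')
    (h0 : r' 0 = r 0) {v w : V} (h : Asym r (dir φ v)) (h' : Asym r' (dir φ w)) {N : ℝ}
    (hN : 0 ≤ N) : dist (r N) (r' N) ≤ N * ‖v - w‖ := by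
  obtain ⟨M, hM⟩ := h
  obtain ⟨M', hM'⟩ := h'
  have hlim : Tendsto (fun t : ℝ => N * ‖v - w‖ + (N * (M + M')) / t) atTop
      (𝓝 (N * ‖v - w‖ + 0)) :=
    (tendsto_id.const_div_atTop _).const_add _
  rw [add_zero] at hlim
  refine ge_of_tendsto hlim ?_
  filter_upwards [eventually_gt_atTop 0, eventually_ge_atTop N] with t ht htN
  have hl : N / t ∈ Icc (0 : ℝ) 1 := ⟨by positivity, (div_le_one ht).2 htN⟩
  have h1 := ray_pt hr ht.le hl
  have h2 := ray_pt hr' ht.le hl
  rw [div_mul_cancel₀ _ ht.ne'] at h1 h2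
  rw [h1, h2, h0]
  refine (dist_pt_pt_left_le _ _ _ hl).trans ?_
  have h3 : dist (r t) (r' t) ≤ M + t * ‖v - w‖ + M' := by
    have h4 := dist_triangle4 (r t) (dir φ v t) (dir φ w t) (r' t)
    have h5 : dist (dir φ v t) (dir φ w t) = t * ‖v - w‖ := by
      rw [show dir φ v t = φ (t • v) from rfl, show dir φ w t = φ (t • w) from rfl,
        hφ.dist_eq, dist_eq_norm, ← smul_sub, norm_smul, Real.norm_eq_abs, abs_of_nonneg ht.le]
    have h6 := hM t ht.le
    have h7 := hM' t ht.le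
    rw [dist_comm] at h7
    linarith
  calc N / t * dist (r t) (r' t) ≤ N / t * (M + t * ‖v - w‖ + M') :=
        mul_le_mul_of_nonneg_left h3 hl.1
    _ = N * ‖v - w‖ + (N * (M + M')) / t := by
        field_simp
        ring

end Pool.Agent.H75.SF
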