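import Mathlib

/-!
# SF-12: a fixed point in a pointed cone (pure linear algebra)

`K ⊆ V` is a closed convex cone containing no pair `v, -v` with `v ≠ 0`, and `K ≠ {0}`. The maps `T i : V → V` map `K` into `K`, preserve
distances on `K` and fix `0`. Then they have a common fixed point `v ≠ 0` in `K`.

Proof.  `‖T i v‖ = ‖v‖` on `K`, so inner products are preserved on `K`.  Let `S = {v ∈ K | ‖v‖ = 1}`, compact and nonempty (cone, `K ≠ {0}`),
`D = convexHull ℝ S`, compact (`IsCompact.convexHull`), `D ⊆ K` (`K` is convex).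
(1) `0 ∉ D`: otherwise `0 = ∑ w j • v j` with `v j ∈ S`, `w j ≥ 0`, `∑ w j = 1`; some `w j > 0` and `-v j = (1 / w j) • ∑_{l ≠ j} w l • v l ∈ K`,
contradicting pointedness.  (Alternatively: a closed pointed cone has a linear functional positive on `S`.)
(2) `T i` maps `D` to `D`: `v = ∑ w j • v j ∈ D`; then `‖T i v - ∑ w j • T i (v j)‖ ^ 2` expands into inner products of elements `T i v, T i (v j)`,
so it equals `‖v - ∑ w j • v j‖ ^ 2 = 0`; and `T i (v j) ∈ S`.
(3) Let `p` be the point of minimal norm of the closed convex nonempty set `D` (unique: `exists_norm_eq_iInf_of_complete_convex` and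
`norm_eq_iInf_iff_real_inner_le_zero`, or strict convexity of the norm: the midpoint of two points of the same minimal norm).  `T i p ∈ D` has the
same norm, so `T i p = p`.  `p ≠ 0` by (1).
-/

open Set Filter Topology Metric
open scoped RealInnerProductSpace

namespace Pool.Agent.H75.SF

variable {V : Type*} [NormedAddCommGroup V] [InnerProductSpace ℝ V]

theorem cone_fixed [FiniteDimensional ℝ V] {K : Set V} (hcl : IsClosed K)
    (hadd : ∀ v ∈ K, ∀ w ∈ K, v + w ∈ K) (hsmul : ∀ v ∈ K, ∀ t : ℝ, 0 ≤ t → t • v ∈ K)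
    (hpt : ∀ v ∈ K, -v ∈ K → v = 0) (hne : ∃ v ∈ K, v ≠ 0) {ι : Type*} (T : ι → V → V)
    (hT : ∀ i, ∀ v ∈ K, T i v ∈ K)
    (hiso : ∀ i, ∀ v ∈ K, ∀ w ∈ K, dist (T i v) (T i w) = dist v w)
    (h0 : ∀ i, T i 0 = 0) : ∃ v ∈ K, v ≠ 0 ∧ ∀ i, T i v = v := by
  have : ProperSpace V := FiniteDimensional.proper ℝ V
  obtain ⟨v0, hv0, hv0'⟩ := hne
  have hK0 : (0 : V) ∈ K := by
    have := hsmul v0 hv0 0 le_rfl
    rwa [zero_smul] at this
  have hnorm : ∀ i, ∀ v ∈ K, ‖T i v‖ = ‖v‖ := by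
    intro i v hv
    have := hiso i v hv 0 hK0
    rwa [h0 i, dist_zero_right, dist_zero_right] at this
  have hinner : ∀ i, ∀ v ∈ K, ∀ w ∈ K, ⟪T i v, T i w⟫ = ⟪v, w⟫ := by
    intro i v hv w hw
    have h1 := hiso i v hv w hw
    rw [dist_eq_norm, dist_eq_norm] at h1
    have h2 := norm_sub_sq_real (T i v) (T i w)
    have h3 := norm_sub_sq_real v w
    rw [h1, hnorm i v hv, hnorm i w hw] at h2
    linarith
  have hlin : ∀ i, ∀ x ∈ K, ∀ y ∈ K, ∀ a b : ℝ, 0 ≤ a → 0 ≤ b →
      T i (a • x + b • y) = a • T i x + b • T i y := by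
    intro i x hx y hy a b ha hb
    have hz : a • x + b • y ∈ K := hadd _ (hsmul x hx a ha) _ (hsmul y hy b hb)
    set z := a • x + b • y with hzd
    have e1 := hinner i z hz z hz
    have e2 := hinner i z hz x hx
    have e3 := hinner i z hz y hy
    have e4 := hinner i x hx x hx
    have e5 := hinner i x hx y hy
    have e6 := hinner i y hy y hy
    have key : ∀ p q r : V, ⟪p - (a • q + b • r), p - (a • q + b • r)⟫ =
        ⟪p, p⟫ - 2 * a * ⟪p, q⟫ - 2 * b * ⟪p, r⟫ + a * a * ⟪q, q⟫ + 2 * a * b * ⟪q, r⟫ +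
          b * b * ⟪r, r⟫ := by
      intro p q r
      simp only [inner_sub_left, inner_sub_right, inner_add_left, inner_add_right,
        real_inner_smul_left, real_inner_smul_right]
      rw [real_inner_comm q p, real_inner_comm r p, real_inner_comm r q]
      ring
    have h1 := key (T i z) (T i x) (T i y)
    have h2 := key z x y
    rw [e1, e2, e3, e4, e5, e6, ← h2, ← hzd, sub_self, inner_zero_left] at h1
    exact sub_eq_zero.1 (inner_self_eq_zero.1 h1)
  let S : Set V := K ∩ Metric.sphere (0 : V) 1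
  have hSc : IsCompact S := (isCompact_sphere (0 : V) 1).inter_left hcl
  have hSn : S.Nonempty := by
    refine ⟨(‖v0‖)⁻¹ • v0, hsmul v0 hv0 _ (inv_nonneg.2 (norm_nonneg _)), ?_⟩
    rw [mem_sphere_zero_iff_norm, norm_smul, norm_inv, norm_norm]
    exact inv_mul_cancel₀ (norm_ne_zero_iff.2 hv0')
  have hSe : S.Nonempty := hSn
  -- a linear functional positive on `S`
  have hfun : ∀ x ∈ S, ∃ f : StrongDual ℝ V, (∀ v ∈ K, 0 ≤ f v) ∧ 0 < f x := by
    rintro x ⟨hx, hx1⟩
    have hxn : -x ∉ K := by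
      intro h
      have := hpt x hx h
      rw [mem_sphere_zero_iff_norm, this, norm_zero] at hx1
      exact zero_ne_one hx1
    have hKc : Convex ℝ K := by
      rintro x hx y hy a b ha hb hab
      exact hadd _ (hsmul x hx a ha) _ (hsmul y hy b hb)
    obtain ⟨f, u, h1, h2⟩ := geometric_hahn_banach_closed_point hKc hcl hxn
    have hu : 0 < u := by
      have := h1 0 hK0
      rwa [map_zero] at this
    refine ⟨-f, ?_, ?_⟩
    · intro v hv
      rw [neg_apply, neg_nonneg]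
      by_contra hc
      push Not at hc
      have h3 := h1 ((u / f v) • v) (hsmul v hv _ (div_nonneg hu.le hc.le))
      rw [map_smul, smul_eq_mul, div_mul_cancel₀ _ hc.ne'] at h3
      exact lt_irrefl _ h3
    · rw [neg_apply, ← map_neg]
      exact hu.trans h2
  choose! F hF1 hF2 using hfun
  obtain ⟨t, htS, htc⟩ := hSc.elim_nhds_subcover (fun x => {y | 0 < F x y}) (fun x hx =>
    (isOpen_lt continuous_const (F x).continuous).mem_nhds (hF2 x hx))
  let e : StrongDual ℝ V := ∑ x ∈ t, F x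
  have hepos : ∀ y ∈ S, 0 < e y := by
    intro y hy
    have he : e y = ∑ x ∈ t, F x y := by
      simp only [e, sum_apply]
    rw [he]
    obtain ⟨x, hx, hxy⟩ := mem_iUnion₂.1 (htc hy)
    exact Finset.sum_pos' (fun x hx => hF1 x (htS x hx) y hy.1) ⟨x, hx, hxy⟩
  obtain ⟨y0, hy0, hmin⟩ := hSc.exists_isMinOn hSn e.continuous.continuousOn
  let D : Set V := closure (convexHull ℝ S)
  have hDn : D.Nonempty := (hSn.convexHull).closure
  have hDconv : Convex ℝ D := (convex_convexHull ℝ S).closure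
  have hSD : S ⊆ D := (subset_convexHull ℝ S).trans subset_closure
  have hhK : convexHull ℝ S ⊆ K := by
    refine convexHull_min (fun x hx => hx.1) ?_
    rintro x hx y hy a b ha hb hab
    exact hadd _ (hsmul x hx a ha) _ (hsmul y hy b hb)
  have hDK' : D ⊆ K := closure_minimal hhK hcl
  have hDe : D ⊆ {x | e y0 ≤ e x} := by
    refine closure_minimal (convexHull_min (fun x hx => hmin hx) ?_)
      (isClosed_le continuous_const e.continuous)
    exact (convex_Ici (e y0)).linear_preimage e.toLinearMap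
  have hDK : D ⊆ K ∩ {x | x ≠ 0} := by
    intro x hx
    refine ⟨hDK' hx, ?_⟩
    rintro rfl
    have h1 : e y0 ≤ e 0 := hDe hx
    rw [map_zero] at h1
    exact absurd (hepos y0 hy0) (not_lt.2 h1)
  have hTD : ∀ i, ∀ x ∈ D, T i x ∈ D := by
    intro i
    have h1 : convexHull ℝ S ⊆ {x | x ∈ K ∧ T i x ∈ convexHull ℝ S} := by
      refine convexHull_min ?_ ?_
      · rintro x ⟨hx, hx1⟩
        refine ⟨hx, subset_convexHull ℝ S ⟨hT i x hx, ?_⟩⟩
        rw [mem_sphere_zero_iff_norm] at hx1 ⊢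
        rw [hnorm i x hx, hx1]
      · rintro x ⟨hx, hx1⟩ y ⟨hy, hy1⟩ a b ha hb hab
        refine ⟨hadd _ (hsmul x hx a ha) _ (hsmul y hy b hb), ?_⟩
        rw [hlin i x hx y hy a b ha hb]
        exact convex_convexHull ℝ S hx1 hy1 ha hb hab
    intro x hx
    obtain ⟨w, hw, hwx⟩ := mem_closure_iff_seq_limit.1 hx
    refine mem_closure_iff_seq_limit.2 ⟨fun n => T i (w n), fun n => (h1 (hw n)).2, ?_⟩
    rw [tendsto_iff_dist_tendsto_zero] at hwx ⊢
    refine hwx.congr fun n => ?_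
    exact (hiso i _ (h1 (hw n)).1 _ (hDK' hx)).symm
  have hDmin : ∃ p ∈ D, ∀ x ∈ D, ‖p‖ ≤ ‖x‖ := by
    obtain ⟨p, hp, h1⟩ := isClosed_closure.exists_infDist_eq_dist hDn (0 : V)
    refine ⟨p, hp, fun x hx => ?_⟩
    have h2 := infDist_le_dist_of_mem (x := (0 : V)) hx
    rw [h1, dist_zero_left, dist_zero_left] at h2
    exact h2
  obtain ⟨p, hpD, hpmin⟩ := hDmin
  have hpK := (hDK hpD).1
  refine ⟨p, hpK, (hDK hpD).2, fun i => ?_⟩
  have h1 : (1 / 2 : ℝ) • p + (1 / 2 : ℝ) • T i p ∈ D :=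
    hDconv hpD (hTD i p hpD) (by norm_num) (by norm_num) (by norm_num)
  have h2 : ‖p‖ ≤ ‖(1 / 2 : ℝ) • p + (1 / 2 : ℝ) • T i p‖ := hpmin _ h1
  rw [← smul_add, norm_smul, Real.norm_of_nonneg (by norm_num : (0 : ℝ) ≤ 1 / 2)] at h2
  have h3 := parallelogram_law_with_norm ℝ p (T i p)
  rw [hnorm i p hpK] at h3
  have h4 : 2 * ‖p‖ ≤ ‖p + T i p‖ := by linarith
  have h5 : (2 * ‖p‖) * (2 * ‖p‖) ≤ ‖p + T i p‖ * ‖p + T i p‖ :=
    mul_self_le_mul_self (by positivity) h4
  have h6 : ‖p - T i p‖ * ‖p - T i p‖ ≤ 0 := by nlinarith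
  have h7 : ‖p - T i p‖ = 0 := mul_self_eq_zero.1 (le_antisymm h6 (mul_self_nonneg _))
  exact (sub_eq_zero.1 (norm_eq_zero.1 h7)).symm

end Pool.Agent.H75.SF
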