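import Pool.Agent.H75.SF.Bus2
import Pool.Agent.H29.Infinity

/-!
# SF-9: two rays whose Busemann functions have an almost constant sum on large balls

`α, β` rays, `D x = busR α x + busR β x`; for all `M, ε > 0` there is `x` with `|D y - D x| ≤ ε` on `closedBall x M`. `G` acts
cocompactly by isometries. If `X` is irreducible then `X` is a line.

Proof. For `n : ℕ` let `x n` be such a point for `M = n + 1`, `ε = 1 / (n + 1)`.  Fix `o : X`; `Cocompact.orbit` gives `R` and `g n : G`
with `dist (x n) (g n • o) ≤ R`.  Put `α n = fun t => (g n)⁻¹ • α t`, `β n` likewise.  For `z : X` let `σ z n`, `τ z n` be rays from `z`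
asymptotic to `α n`, `β n` (`exists_ray_from`), and `σ z`, `τ z` their limits along `U = hyperfilter ℕ` (`exists_ray_limit`).
(a) `dist (σ z t) (σ w t) ≤ dist z w` for `t ≥ 0` (`Asym.dist_le`, limit), same for `τ`.
(b) `dist (σ z s) (τ z t) = s + t` for `s, t ≥ 0`: `≤` is the triangle inequality.  For `n` large all of `z, σ z n s, τ z n t` are within
`n + 1` of `(g n)⁻¹ • x n` (which is within `R` of `o`), so with `D n y = busR (α n) y + busR (β n) y` (`busR_smul`)
`|D n (τ z n t) - D n z| ≤ 2 / (n + 1)`; `busR (β n) (τ z n t) = busR (β n) z - t` and `busR (α n) (σ z n s) = busR (α n) z - s` (`busR_asym`,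
`busR_apply`), so `busR (α n) (τ z n t) ≥ busR (α n) z + t - 2 / (n + 1)` and
`dist (σ z n s) (τ z n t) ≥ busR (α n) (τ z n t) - busR (α n) (σ z n s) ≥ s + t - 2 / (n + 1)`.
(c) `c z t = if 0 ≤ t then σ z t else τ z (-t)` is a line through `z` (an isometry `ℝ → X`), and any two of them have bounded distance.
(d) `busF_sum_zero`: if `c, ℓ` are lines with `dist (c t) (ℓ t) ≤ M` for all `t : ℝ`, then `busF c (ℓ s) + busF (fun t => c (-t)) (ℓ s) = 0`: by
`busR_asym` `busF c = busF ℓ + k`, `busF c⁻ = busF ℓ⁻ + k'`; at points of `ℓ` the sum `busF ℓ + busF ℓ⁻` is `0` (`busF_line`), so there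
`busF c + busF c⁻ = k + k'`, and `≥ 0` by `busF_add_nonneg`; at points of `c`: `busF c + busF c⁻ = 0 = (busF ℓ + busF ℓ⁻) + (k + k')` with
`busF ℓ + busF ℓ⁻ ≥ 0`, so `k + k' ≤ 0`.
(e) `surjective_of_busF` for `c = c o`.
-/

open Set Filter Topology Metric
open Pool.Agent.H29 Pool.Agent.H29.RR

set_option linter.unusedSectionVars false

namespace Pool.Agent.H75.SF

universe u

variable {X : Type u} [MetricSpace X] [IsCAT0 X] [ProperSpace X]

/-- (d) -/
lemma busF_sum_zero {c ℓ : ℝ → X} (hc : Isometry c) (hℓ : Isometry ℓ) {M : ℝ}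
    (h : ∀ t, dist (c t) (ℓ t) ≤ M) (s : ℝ) :
    busF c (ℓ s) + busF (fun t => c (-t)) (ℓ s) = 0 := by
  have hc' := isometry_comp_neg hc
  have hℓ' := isometry_comp_neg hℓ
  have h1 : Asym c ℓ := ⟨M, fun t _ => h t⟩
  have h2 : Asym (fun t => c (-t)) (fun t => ℓ (-t)) := ⟨M, fun t _ => h (-t)⟩
  have e1 := busR_asym (isRay_of_isometry hc) (isRay_of_isometry hℓ) h1 (ℓ s) (c 0)
  have e2 := busR_asym (isRay_of_isometry hc') (isRay_of_isometry hℓ') h2 (ℓ s) (c 0)
  simp only [busR_eq_busF] at e1 e2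
  have l1 : busF ℓ (ℓ s) = -s := busF_line hℓ s
  have l2 : busF (fun t => ℓ (-t)) (ℓ s) = s := by
    have := busF_line hℓ' (-s)
    simpa using this
  have l3 : busF c (c 0) = 0 := by
    have := busF_line hc 0
    simpa using this
  have l4 : busF (fun t => c (-t)) (c 0) = 0 := by
    have := busF_line hc' 0
    simpa using this
  have n1 := busF_add_nonneg hc (ℓ s)
  have n2 := busF_add_nonneg hℓ (c 0)
  linarith

/-- if through every point there is a line at bounded distance from `c` then `c` is onto -/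
lemma surjective_of_parallel (hirr : MetricIrreducible X) {c : ℝ → X} (hc : Isometry c)
    (h : ∀ z : X, ∃ ℓ : ℝ → X, Isometry ℓ ∧ ℓ 0 = z ∧ ∃ M : ℝ, ∀ t, dist (c t) (ℓ t) ≤ M) :
    Function.Surjective c := by
  refine surjective_of_busF hirr hc fun x => ?_
  obtain ⟨ℓ, hℓ, h0, M, hM⟩ := h x
  have := busF_sum_zero hc hℓ hM 0
  rwa [h0] at this

end Pool.Agent.H75.SF
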