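import Pool.Agent.H75.SF.Bus2
import Pool.Agent.H29.Infinity
import Pool.Agent.H75.SF.Split1

/-!
# SF-9: two rays whose Busemann functions have an almost constant sum on large balls

`α, β` rays, `D x = busR α x + busR β x`; for all `M, ε > 0` there is `x` with `|D y - D x| ≤ ε` on `closedBall x M`. `G` acts
cocompactly by isometries. If `X` is irreducible then `X` is a line.

Proof. For `n : ℕ` let `x n` be such a point for `M = n + 1`, `ε = 1 / (n + 1)`.  Fix `o : X`; `Cocompact.orbit` gives `R` and `g n : G`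
with `dist (x n) (g n • o) ≤ R`.  Put `α n = fun t => (g n)⁻¹ • α t`, `β n` likewise.  For `z : X` let `σ z n`, `τ z n` be rays from `z`
asymptotic to `α n`, `β n` (`exists_ray_from`), and `σ z`, `τ z` their limits along `U = hyperfilter ℕ` (`exists_ray_limit`).
(a) `dist (σ z t) (σ w t) ≤ dist z w` for `t ≥ 0` (`Asym.dist_le`, limit), same for `τ`.
(b) `dist (σ z s) (τ z t) = s + t` for `s, t ≥ 0`: `≤` is the triangle inequality.  For `n` large all of `z, σ z n s, τ z n t` are within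
`n + 1` of `(g n)⁻¹ • x n` (which is within `R` of `o`), so with `D n y = busR (α n) y + busR (β n) y` (`busR_smul`)
`|D n (τ z n t) - D n z| ≤ 2 / (n + 1)`; `busR (β n) (τ z n t) = busR (β n) z - t` and `busR (α n) (σ z n s) = busR (α n) z - s` (`busR_asym`,
`busR_apply`), so `busR (α n) (τ z n t) ≥ busR (α n) z + t - 2 / (n + 1)` and
`dist (σ z n s) (τ z n t) ≥ busR (α n) (τ z n t) - busR (α n) (σ z n s) ≥ s + t - 2 / (n + 1)`.
(c) `c z t = if 0 ≤ t then σ z t else τ z (-t)` is a line through `z` (an isometry `ℝ → X`), and any two of them have bounded distance.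
(d) `busF_sum_zero`: if `c, ℓ` are lines with `dist (c t) (ℓ t) ≤ M` for all `t : ℝ`, then `busF c (ℓ s) + busF (fun t => c (-t)) (ℓ s) = 0`: by
`busR_asym` `busF c = busF ℓ + k`, `busF c⁻ = busF ℓ⁻ + k'`; at points of `ℓ` the sum `busF ℓ + busF ℓ⁻` is `0` (`busF_line`), so there
`busF c + busF c⁻ = k + k'`, and `≥ 0` by `busF_add_nonneg`; at points of `c`: `busF c + busF c⁻ = 0 = (busF ℓ + busF ℓ⁻) + (k + k')` with
`busF ℓ + busF ℓ⁻ ≥ 0`, so `k + k' ≤ 0`.
(e) `surjective_of_busF` for `c = c o`.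

Status: complete (helper26).
-/

open Set Filter Topology Metric
open Pool.Agent.H29 Pool.Agent.H29.RR

set_option linter.unusedSectionVars false

namespace Pool.Agent.H75.SF

universe u

variable {X : Type u} [MetricSpace X] [IsCAT0 X] [ProperSpace X]

lemma busR_along_asym {ρ σ : ℝ → X} (hρ : IsRay ρ) (hσ : IsRay σ) (h : Asym ρ σ) {z : X}
    (hz : σ 0 = z) {t : ℝ} (ht : 0 ≤ t) : busR ρ (σ t) = busR ρ z - t := by
  have h1 := busR_asym hρ hσ h z (σ t)
  rw [busR_apply hσ ht, ← hz, busR_apply hσ le_rfl] at h1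
  rw [← hz]
  linarith

lemma isometry_of_two_rays {σ τ : ℝ → X} (hσ : IsRay σ) (hτ : IsRay τ)
    (h : ∀ s t, 0 ≤ s → 0 ≤ t → dist (σ s) (τ t) = s + t) :
    Isometry (fun t : ℝ => if 0 ≤ t then σ t else τ (-t)) := by
  refine Isometry.of_dist_eq fun s t => ?_
  rw [Real.dist_eq]
  by_cases hs : 0 ≤ s <;> by_cases ht : 0 ≤ t
  · simp only [if_pos hs, if_pos ht]
    exact hσ s t hs ht
  · simp only [if_pos hs, if_neg ht]
    rw [h s (-t) hs (by linarith), abs_of_nonneg (by linarith)]
    ring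
  · simp only [if_neg hs, if_pos ht]
    rw [dist_comm, h t (-s) ht (by linarith), abs_of_nonpos (by linarith)]
    ring
  · simp only [if_neg hs, if_neg ht]
    rw [hτ (-s) (-t) (by linarith) (by linarith), abs_sub_comm]
    congr 1
    ring

theorem line_of_almost_const {G : Type*} [Group G] [MulAction G X] [IsIsometricSMul G X]
    [Nonempty X] (hcoc : Cocompact G X) (hirr : MetricIrreducible X) {α β : ℝ → X}
    (hα : IsRay α) (hβ : IsRay β)
    (h : ∀ M ε : ℝ, 0 < M → 0 < ε → ∃ x : X, ∀ y, dist x y ≤ M →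
      |(busR α y + busR β y) - (busR α x + busR β x)| ≤ ε) :
    ∃ c : ℝ → X, Isometry c ∧ Function.Surjective c := by
  obtain ⟨o⟩ := ‹Nonempty X›
  obtain ⟨R, hR⟩ := hcoc.orbit o
  have hx : ∀ n : ℕ, ∃ x : X, ∀ y, dist x y ≤ (n : ℝ) + 1 →
      |(busR α y + busR β y) - (busR α x + busR β x)| ≤ 1 / ((n : ℝ) + 1) :=
    fun n => h _ _ (by positivity) (by positivity)
  choose x hx using hx
  choose g hg using fun n => hR (x n)
  let α' : ℕ → ℝ → X := fun n t => (g n)⁻¹ • α t
  let β' : ℕ → ℝ → X := fun n t => (g n)⁻¹ • β t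
  have hα' : ∀ n, IsRay (α' n) := fun n => hα.smul _
  have hβ' : ∀ n, IsRay (β' n) := fun n => hβ.smul _
  have hbα : ∀ n y, busR (α' n) y = busR α (g n • y) := by
    intro n y
    have h1 := busR_smul (g n)⁻¹ α (g n • y)
    rwa [inv_smul_smul] at h1
  have hbβ : ∀ n y, busR (β' n) y = busR β (g n • y) := by
    intro n y
    have h1 := busR_smul (g n)⁻¹ β (g n • y)
    rwa [inv_smul_smul] at h1
  have hD1 : ∀ (n : ℕ) (y : X), dist o y + R ≤ (n : ℝ) + 1 →
      |(busR (α' n) y + busR (β' n) y) - (busR α (x n) + busR β (x n))| ≤ 1 / ((n : ℝ) + 1) := by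
    intro n y hy
    rw [hbα, hbβ]
    refine hx n _ ?_
    have h1 := dist_triangle (x n) (g n • o) (g n • y)
    rw [dist_smul] at h1
    have h2 := hg n
    linarith
  have hD : ∀ (n : ℕ) (y z : X), dist o y + R ≤ (n : ℝ) + 1 → dist o z + R ≤ (n : ℝ) + 1 →
      (busR (α' n) z + busR (β' n) z) - (busR (α' n) y + busR (β' n) y) ≤ 2 / ((n : ℝ) + 1) := by
    intro n y z hy hz
    have h1 := (abs_le.1 (hD1 n y hy)).1
    have h2 := (abs_le.1 (hD1 n z hz)).2
    have e : (2 : ℝ) / ((n : ℝ) + 1) = 1 / ((n : ℝ) + 1) + 1 / ((n : ℝ) + 1) := by ring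
    rw [e]
    linarith
  set U : Ultrafilter ℕ := Filter.hyperfilter ℕ with hU
  have hUle : (U : Filter ℕ) ≤ atTop := by
    rw [← Nat.cofinite_eq_atTop]
    exact Filter.hyperfilter_le_cofinite
  choose r hr1 hr2 hr3 using fun (z : X) (n : ℕ) => exists_ray_from (hα' n) z
  choose q hq1 hq2 hq3 using fun (z : X) (n : ℕ) => exists_ray_from (hβ' n) z
  choose σ hσ1 hσ2 hσ3 using fun z : X => exists_ray_limit U (ρ := r z) (o := z)
    (Eventually.of_forall fun n => ⟨hr1 z n, hr2 z n⟩)
  choose τ hτ1 hτ2 hτ3 using fun z : X => exists_ray_limit U (ρ := q z) (o := z)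
    (Eventually.of_forall fun n => ⟨hq1 z n, hq2 z n⟩)
  -- (a)
  have ha : ∀ z w t, 0 ≤ t → dist (σ z t) (σ w t) ≤ dist z w := by
    intro z w t ht
    refine le_of_tendsto ((hσ3 z t ht).dist (hσ3 w t ht)) (Eventually.of_forall fun n => ?_)
    have h1 := Asym.dist_le ((hr3 z n).symm.trans (hr3 w n)) (hr1 z n) (hr1 w n) t ht
    rwa [hr2, hr2] at h1
  have ha' : ∀ z w t, 0 ≤ t → dist (τ z t) (τ w t) ≤ dist z w := by
    intro z w t ht
    refine le_of_tendsto ((hτ3 z t ht).dist (hτ3 w t ht)) (Eventually.of_forall fun n => ?_)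
    have h1 := Asym.dist_le ((hq3 z n).symm.trans (hq3 w n)) (hq1 z n) (hq1 w n) t ht
    rwa [hq2, hq2] at h1
  -- (b)
  have hb : ∀ z s t, 0 ≤ s → 0 ≤ t → dist (σ z s) (τ z t) = s + t := by
    intro z s t hs ht
    apply le_antisymm
    · have h1 := dist_triangle (σ z s) z (τ z t)
      have h2 := hσ1 z s 0 hs le_rfl
      have h3 := hτ1 z 0 t le_rfl ht
      rw [hσ2, sub_zero, abs_of_nonneg hs] at h2
      rw [hτ2, zero_sub, abs_neg, abs_of_nonneg ht] at h3
      linarith
    · have hT : Tendsto (fun n : ℕ => s + t - 2 / ((n : ℝ) + 1)) U (𝓝 (s + t)) := by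
        have h1 : Tendsto (fun n : ℕ => 2 / ((n : ℝ) + 1)) atTop (𝓝 0) :=
          Filter.Tendsto.div_atTop tendsto_const_nhds
            (tendsto_natCast_atTop_atTop.atTop_add tendsto_const_nhds)
        have h2 := (tendsto_const_nhds (x := s + t)).sub (h1.mono_left hUle)
        rwa [sub_zero] at h2
      refine le_of_tendsto_of_tendsto hT ((hσ3 z s hs).dist (hτ3 z t ht)) ?_
      apply hUle
      obtain ⟨N, hN⟩ := exists_nat_ge (dist o z + t + R)
      filter_upwards [eventually_ge_atTop N] with n hn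
      have hn' : (N : ℝ) ≤ n := by exact_mod_cast hn
      have h1 : dist o z + R ≤ (n : ℝ) + 1 := by linarith
      have hdq : dist z (q z n t) = t := by
        have h3 := hq1 z n 0 t le_rfl ht
        rwa [hq2, zero_sub, abs_neg, abs_of_nonneg ht] at h3
      have h2 : dist o (q z n t) + R ≤ (n : ℝ) + 1 := by
        have := dist_triangle o z (q z n t)
        linarith
      have h3 := hD n (q z n t) z h2 h1
      have h4 := busR_along_asym (hβ' n) (hq1 z n) (hq3 z n) (hq2 z n) ht
      have h5 := busR_along_asym (hα' n) (hr1 z n) (hr3 z n) (hr2 z n) hs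
      have h6 := busR_lip (hα' n) (q z n t) (r z n s)
      rw [dist_comm] at h6
      linarith
  -- (c)
  have hc : ∀ z, Isometry (fun t : ℝ => if 0 ≤ t then σ z t else τ z (-t)) :=
    fun z => isometry_of_two_rays (hσ1 z) (hτ1 z) (hb z)
  refine ⟨_, hc o, surjective_of_parallel hirr (hc o) fun z => ⟨_, hc z, ?_, dist o z, fun t => ?_⟩⟩
  · simp only [le_refl, if_true]
    exact hσ2 z
  · by_cases ht : 0 ≤ t
    · simp only [if_pos ht]
      exact ha o z t ht
    · simp only [if_neg ht]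
      exact ha' o z (-t) (by linarith)

end Pool.Agent.H75.SF
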