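import Pool.Agent.H75.SF.Symm
import Pool.Agent.H75.SF.AC
import Pool.Agent.H75.SF.Split

/-!
# Strong poles exist (assembly)
-/

open Set Filter Topology Metric
open Pool.Agent.H29 Pool.Agent.H29.RR
open scoped RealInnerProductSpace

set_option linter.unusedSectionVars false

namespace Pool.Agent.H75.SF

universe u

/-- a space containing a flat of dimension at least two is not a line -/
lemma not_line_of_flat {X : Type*} [MetricSpace X]
    {V : Type*} [NormedAddCommGroup V] [InnerProductSpace ℝ V] {φ : V → X}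
    (hdim : 2 ≤ Module.finrank ℝ V) (hφ : Isometry φ) :
    ¬ ∃ c : ℝ → X, Isometry c ∧ Function.Surjective c := by
  rintro ⟨c, hc, hs⟩
  have : FiniteDimensional ℝ V := FiniteDimensional.of_finrank_pos (by omega)
  set b := stdOrthonormalBasis ℝ V with hb
  set i : Fin (Module.finrank ℝ V) := ⟨0, by omega⟩ with hi
  set j : Fin (Module.finrank ℝ V) := ⟨1, by omega⟩ with hj
  have hij : i ≠ j := by
    intro h
    have := congrArg Fin.val h
    simp [hi, hj] at this
  have n1 : ‖b i‖ = 1 := b.orthonormal.1 i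
  have n2 : ‖b j‖ = 1 := b.orthonormal.1 j
  have n3 : ⟪b i, b j⟫ = 0 := b.orthonormal.2 hij
  obtain ⟨x, hx⟩ := hs (φ 0)
  obtain ⟨y, hy⟩ := hs (φ (b i))
  obtain ⟨z, hz⟩ := hs (φ (b j))
  have h1 : (x - y) ^ 2 = 1 := by
    have : dist (c x) (c y) = dist (φ 0) (φ (b i)) := by rw [hx, hy]
    rw [hc.dist_eq, hφ.dist_eq, Real.dist_eq, dist_eq_norm, zero_sub, norm_neg, n1] at this
    rw [← sq_abs, this]; norm_num
  have h2 : (x - z) ^ 2 = 1 := by
    have : dist (c x) (c z) = dist (φ 0) (φ (b j)) := by rw [hx, hz]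
    rw [hc.dist_eq, hφ.dist_eq, Real.dist_eq, dist_eq_norm, zero_sub, norm_neg, n2] at this
    rw [← sq_abs, this]; norm_num
  have h3 : (y - z) ^ 2 = 2 := by
    have : dist (c y) (c z) = dist (φ (b i)) (φ (b j)) := by rw [hy, hz]
    rw [hc.dist_eq, hφ.dist_eq, Real.dist_eq, dist_eq_norm] at this
    rw [← sq_abs, this, @norm_sub_sq_real, n1, n2, n3]; norm_num
  have h4 : (x - y) * (x - y) = 1 := by nlinarith
  have h5 : (x - z) * (x - z) = 1 := by nlinarith
  rcases mul_self_eq_one_iff.mp h4 with h | h <;> rcases mul_self_eq_one_iff.mp h5 with h' | h' <;>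
    · have e : y - z = (x - z) - (x - y) := by ring
      rw [e, h, h'] at h3
      norm_num at h3

theorem exists_strong_pole {X : Type u} [MetricSpace X] [IsCAT0 X] [ProperSpace X]
    {G : Type*} [Group G] [MulAction G X] [IsIsometricSMul G X]
    {V : Type*} [NormedAddCommGroup V] [InnerProductSpace ℝ V] [FiniteDimensional ℝ V]
    {φ : V → X} {C : Set X}
    (hcoc : Cocompact G X) (hgc : GeodesicallyComplete X) (hirr : MetricIrreducible X)
    (hdim : 2 ≤ Module.finrank ℝ V) (hφ : Isometry φ) (hC : FSide φ C) (hne : C ≠ univ) :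
    ∃ ρ : ℝ → X, Orth C ρ ∧ Bornology.IsBounded (Kset φ ρ) := by
  by_contra hcon
  push Not at hcon
  obtain ⟨y, hy⟩ : ∃ y, y ∉ C := by
    by_contra h
    push Not at h
    exact hne (eq_univ_of_forall h)
  have : Nonempty X := ⟨y⟩
  obtain ⟨ρ₀, hρ₀, -⟩ := exists_orth hgc hC hy
  obtain ⟨Q, hQ, hmin⟩ := exists_minimal_good (φ := φ) ⟨ρ₀, hρ₀⟩
  obtain ⟨e, he⟩ := hQ.nonempty (fun ρ hρ => Qset_nonempty hφ hC hρ (hcon ρ hρ))
  have hneg := minimal_symm hgc hφ hC hQ hmin he
  have he1 : ‖e‖ = 1 := by simpa using hQ.2.1 he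
  have he2 : ‖-e‖ = 1 := by rw [norm_neg]; exact he1
  exact not_line_of_flat hdim hφ (line_of_almost_const hcoc hirr (isRay_dir hφ he1)
    (isRay_dir hφ he2) (fun M ε hM hε => almost_const hgc hφ hC hQ hmin he hneg hM hε))

end Pool.Agent.H75.SF
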