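import Pool.Agent.H75.SF.NC
import Pool.Agent.H75.SF.Cone
import Pool.Agent.H75.SF.BddRay
import Pool.Agent.H75.SF.Pole

/-!
# SF-14: no ray is at bounded distance from all translates of the flat

`F = range φ`; `C` a side with a strong pole `ρ`. Suppose the ray `r` satisfies `Bdd r (g • F)` for all `g : G`.
Let `K = {v : V | ∀ g : G, Bdd (dir φ v) (g • F)}`.
(1) `K` is a closed convex cone (`Bdd_dir_add`, `Bdd_dir_smul`, `isClosed_Bdd_dir`; `g • F` is closed, convex, nonempty).
(2) `K ≠ {0}`: `exists_dir_of_Bdd` for `r` (`g = 1`): a unit `v` with `Asym r (dir φ v)`; `Bdd.asym`.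
(3) for `g : G`, `v ∈ K` there is `w ∈ K` with `Asym (fun t => g • dir φ v t) (dir φ w)`: if `v = 0` take `w = 0`; otherwise `v = a • v'`, `a = ‖v‖ > 0`,
`v'` unit, `r' = fun t => g • dir φ v' t` is a ray, `Bdd r' F` since `Bdd (dir φ v') (g⁻¹ • F)` (`Bdd.smul`), so `exists_dir_of_Bdd` gives a unit
`w'` and `w = a • w'`.  `w ∈ K`: `Bdd (dir φ w) (h • F)` for all `h`, as `Bdd (dir φ v) (g⁻¹ • h • F)`.  Let `T g v` be such a `w`
(choice; `T g v = v` for `v ∉ K`).
(4) `dist (T g v) (T g w) = dist v w`: `dist (φ (t • v)) (φ (t • w)) = t * dist v w` differs from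
`dist (φ (t • T g v)) (φ (t • T g w)) = t * dist (T g v) (T g w)` by a bounded amount.  `T g 0 = 0` similarly (or `dir_unique`).
(5) pointed (`omega_pointed`): let `v, -v ∈ K`, `v ≠ 0`; we may assume `‖v‖ = 1` (cone).  For every `g`: `infDist (φ (t • v)) (g • F)` is bounded for
`t ∈ ℝ`. With `ψ u = g • φ u`, `exists_dir_of_Bdd` gives unit vectors `w, w'` with `Asym (dir φ v) (dir ψ w)`, `Asym (dir φ (-v)) (dir ψ w')`, and
`w' = -w`: `dist (ψ (t • w)) (ψ (t • w')) = t * ‖w - w'‖ ≥ 2 t - const`, and `‖w - w'‖ = 2` for unit vectors only if `w' = -w`.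
So for every `u`, `ℓ t = ψ (u + t • w)` is a line asymptotic to `dir φ v` and, reversed, to `dir φ (-v)`.  By `parallel_far` (with `c, T`)
`c * t ≤ dist (ρ t) (g • φ u)` for all `g`, `u`, `t ≥ T`; but `Cocompact.orbit (φ 0)` gives `R` and, for each `t`, `g` with
`dist (ρ t) (g • φ 0) ≤ R`; contradiction for `t > R / c`.
(6) `cone_fixed`: `v ∈ K`, `v ≠ 0`, `T g v = v` for all `g`; we may scale to `‖v‖ = 1` (`Asym` of reparametrised rays); so
`dist (φ (t • v)) (g • φ (t • v))` is bounded for each `g`, and `line_of_ray` (`N = ⊤`) shows that `X` is a line, contradicting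
`not_line_of_flat`.  (`line_of_ray` needs some `g` and `x` with `g • x ≠ x`: otherwise `X` is compact by cocompactness, but it contains `F`.)
-/

open Set Filter Topology Metric
open Pool.Agent.H29 Pool.Agent.H29.RR
open scoped Pointwise

set_option linter.unusedSectionVars false

namespace Pool.Agent.H75.SF

universe u

variable {X : Type u} [MetricSpace X] [IsCAT0 X] [ProperSpace X]
variable {G : Type*} [Group G] [MulAction G X] [IsIsometricSMul G X]
variable {V : Type*} [NormedAddCommGroup V] [InnerProductSpace ℝ V] [FiniteDimensional ℝ V]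
variable {φ : V → X} {C : Set X} {ρ : ℝ → X}

/-- two unit vectors at distance at least two are opposite -/
lemma om1_opposite {V : Type*} [NormedAddCommGroup V] [InnerProductSpace ℝ V] {w w' : V}
    (hw : ‖w‖ = 1) (hw' : ‖w'‖ = 1) (h : 2 ≤ ‖w - w'‖) : w' = -w := by
  have h1 : ‖w - w'‖ ^ 2 = ‖w‖ ^ 2 - 2 * inner ℝ w w' + ‖w'‖ ^ 2 := norm_sub_sq_real w w'
  have h2 : ‖w + w'‖ ^ 2 = ‖w‖ ^ 2 + 2 * inner ℝ w w' + ‖w'‖ ^ 2 := norm_add_sq_real w w'
  rw [hw, hw'] at h1 h2
  have h3 : (4 : ℝ) ≤ ‖w - w'‖ ^ 2 := by nlinarith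
  have h4 : ‖w + w'‖ ^ 2 ≤ 0 := by linarith
  have h5 : ‖w + w'‖ = 0 := by
    have := sq_nonneg ‖w + w'‖
    exact pow_eq_zero_iff (two_ne_zero) |>.1 (le_antisymm h4 this)
  have h6 : w + w' = 0 := norm_eq_zero.1 h5
  exact (neg_eq_of_add_eq_zero_right h6).symm

lemma om1_unit (hcoc : Cocompact G X) (hφ : Isometry φ) (hC : FSide φ C) (h : Orth C ρ)
    (hb : Bornology.IsBounded (Kset φ ρ)) {v : V} (hv : ‖v‖ = 1)
    (h1 : ∀ g : G, Bdd (dir φ v) (g • range φ))
    (h2 : ∀ g : G, Bdd (dir φ (-v)) (g • range φ)) : False := by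
  obtain ⟨c, T, hc, hT, hfar⟩ := parallel_far hφ hC h hb
  have key : ∀ (g : G) (t : ℝ), T ≤ t → c * t ≤ dist (ρ t) (g • φ 0) := by
    intro g t ht
    set ψ : V → X := fun u => g • φ u with hψ
    have hψi : Isometry ψ := (isometry_smul X g).comp hφ
    have hrange : g • range φ = range ψ := by
      rw [hψ, ← Set.image_smul, ← Set.range_comp]
      rfl
    have hv' : ‖-v‖ = 1 := by rw [norm_neg]; exact hv
    obtain ⟨w, hw, M, hM⟩ := exists_dir_of_Bdd hψi (isRay_dir hφ hv) (hrange ▸ h1 g)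
    obtain ⟨w', hw', M', hM'⟩ := exists_dir_of_Bdd hψi (isRay_dir hφ hv') (hrange ▸ h2 g)
    have hww : w' = -w := by
      apply om1_opposite hw hw'
      by_contra hcon
      push Not at hcon
      have h3 : ∀ t : ℝ, 0 ≤ t → (2 - ‖w - w'‖) * t ≤ M + M' := by
        intro t ht
        have e1 : dist (φ (t • v)) (φ (t • (-v))) = 2 * t := by
          rw [hφ.dist_eq, dist_eq_norm, ← smul_sub, norm_smul, sub_neg_eq_add, ← two_smul ℝ v,
            norm_smul, hv, Real.norm_of_nonneg ht]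
          norm_num
          ring
        have e2 : dist (ψ (t • w)) (ψ (t • w')) = t * ‖w - w'‖ := by
          rw [hψi.dist_eq, dist_eq_norm, ← smul_sub, norm_smul, Real.norm_of_nonneg ht]
        have e3 := hM t ht
        have e4 := hM' t ht
        simp only [dir] at e3 e4
        have e5 := dist_triangle4 (φ (t • v)) (ψ (t • w)) (ψ (t • w')) (φ (t • (-v)))
        rw [dist_comm (ψ (t • w')) (φ (t • (-v)))] at e5
        nlinarith
      have h4 : 0 < 2 - ‖w - w'‖ := by linarith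
      have h5 := h3 ((|M + M'| + 1) / (2 - ‖w - w'‖)) (by positivity)
      rw [mul_div_cancel₀ _ h4.ne'] at h5
      have := le_abs_self (M + M')
      linarith
    subst hww
    have hℓ : Isometry (fun t : ℝ => ψ (t • w)) := by
      refine hψi.comp ?_
      refine Isometry.of_dist_eq fun s t => ?_
      rw [dist_eq_norm, ← sub_smul, norm_smul, hw, mul_one, Real.dist_eq, Real.norm_eq_abs]
    have ha1 : Asym (fun t : ℝ => ψ (t • w)) (dir φ v) := by
      refine ⟨M, fun t ht => ?_⟩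
      rw [dist_comm]
      exact hM t ht
    have ha2 : Asym (fun t : ℝ => (fun t : ℝ => ψ (t • w)) (-t)) (dir φ (-v)) := by
      refine ⟨M', fun t ht => ?_⟩
      rw [dist_comm]
      have := hM' t ht
      simp only [dir, smul_neg] at this ⊢
      rw [neg_smul]
      exact this
    have h3 := hfar t ht v hv _ hℓ ha1 ha2 0
    simpa [hψ] using h3
  obtain ⟨R, hR⟩ := hcoc.orbit (φ 0)
  obtain ⟨g, hg⟩ := hR (ρ (max T (R / c + 1)))
  have h3 := key g (max T (R / c + 1)) (le_max_left _ _)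
  have h4 : c * (R / c + 1) ≤ c * max T (R / c + 1) :=
    mul_le_mul_of_nonneg_left (le_max_right _ _) hc.le
  have h5 : c * (R / c + 1) = R + c := by
    field_simp
  linarith

lemma omega_pointed (hcoc : Cocompact G X) (hφ : Isometry φ) (hC : FSide φ C) (h : Orth C ρ)
    (hb : Bornology.IsBounded (Kset φ ρ)) {v : V}
    (h1 : ∀ g : G, Bdd (dir φ v) (g • range φ))
    (h2 : ∀ g : G, Bdd (dir φ (-v)) (g • range φ)) : v = 0 := by
  by_contra hv
  have hn : 0 < ‖v‖ := norm_pos_iff.2 hv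
  refine om1_unit (v := ‖v‖⁻¹ • v) hcoc hφ hC h hb ?_ (fun g => ?_) (fun g => ?_)
  · rw [norm_smul, norm_inv, norm_norm, inv_mul_cancel₀ hn.ne']
  · exact Bdd_dir_smul (h1 g) (inv_nonneg.2 hn.le)
  · rw [← smul_neg]
    exact Bdd_dir_smul (h2 g) (inv_nonneg.2 hn.le)

end Pool.Agent.H75.SF
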