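import Pool.Agent.H75.SF.NC
import Pool.Agent.H75.SF.Cone
import Pool.Agent.H75.SF.BddRay
import Pool.Agent.H75.SF.Pole
import Pool.Agent.H75.SF.Omega1

/-!
# SF-14: no ray is at bounded distance from all translates of the flat

`F = range φ`; `C` a side with a strong pole `ρ`. Suppose the ray `r` satisfies `Bdd r (g • F)` for all `g : G`.
Let `K = {v : V | ∀ g : G, Bdd (dir φ v) (g • F)}`.
(1) `K` is a closed convex cone (`Bdd_dir_add`, `Bdd_dir_smul`, `isClosed_Bdd_dir`; `g • F` is closed, convex, nonempty).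
(2) `K ≠ {0}`: `exists_dir_of_Bdd` for `r` (`g = 1`): a unit `v` with `Asym r (dir φ v)`; `Bdd.asym`.
(3) for `g : G`, `v ∈ K` there is `w ∈ K` with `Asym (fun t => g • dir φ v t) (dir φ w)`: if `v = 0` take `w = 0`; otherwise `v = a • v'`, `a = ‖v‖ > 0`,
`v'` unit, `r' = fun t => g • dir φ v' t` is a ray, `Bdd r' F` since `Bdd (dir φ v') (g⁻¹ • F)` (`Bdd.smul`), so `exists_dir_of_Bdd` gives a unit
`w'` and `w = a • w'`.  `w ∈ K`: `Bdd (dir φ w) (h • F)` for all `h`, as `Bdd (dir φ v) (g⁻¹ • h • F)`.  Let `T g v` be such a `w`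
(choice; `T g v = v` for `v ∉ K`).
(4) `dist (T g v) (T g w) = dist v w`: `dist (φ (t • v)) (φ (t • w)) = t * dist v w` differs from
`dist (φ (t • T g v)) (φ (t • T g w)) = t * dist (T g v) (T g w)` by a bounded amount.  `T g 0 = 0` similarly (or `dir_unique`).
(5) pointed (`omega_pointed`): let `v, -v ∈ K`, `v ≠ 0`; we may assume `‖v‖ = 1` (cone).  For every `g`: `infDist (φ (t • v)) (g • F)` is bounded for
`t ∈ ℝ`. With `ψ u = g • φ u`, `exists_dir_of_Bdd` gives unit vectors `w, w'` with `Asym (dir φ v) (dir ψ w)`, `Asym (dir φ (-v)) (dir ψ w')`, and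
`w' = -w`: `dist (ψ (t • w)) (ψ (t • w')) = t * ‖w - w'‖ ≥ 2 t - const`, and `‖w - w'‖ = 2` for unit vectors only if `w' = -w`.
So for every `u`, `ℓ t = ψ (u + t • w)` is a line asymptotic to `dir φ v` and, reversed, to `dir φ (-v)`.  By `parallel_far` (with `c, T`)
`c * t ≤ dist (ρ t) (g • φ u)` for all `g`, `u`, `t ≥ T`; but `Cocompact.orbit (φ 0)` gives `R` and, for each `t`, `g` with
`dist (ρ t) (g • φ 0) ≤ R`; contradiction for `t > R / c`.
(6) `cone_fixed`: `v ∈ K`, `v ≠ 0`, `T g v = v` for all `g`; we may scale to `‖v‖ = 1` (`Asym` of reparametrised rays); so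
`dist (φ (t • v)) (g • φ (t • v))` is bounded for each `g`, and `line_of_ray` (`N = ⊤`) shows that `X` is a line, contradicting
`not_line_of_flat`.  (`line_of_ray` needs some `g` and `x` with `g • x ≠ x`: otherwise `X` is compact by cocompactness, but it contains `F`.)
-/

open Set Filter Topology Metric
open Pool.Agent.H29 Pool.Agent.H29.RR
open scoped Pointwise

set_option linter.unusedSectionVars false

namespace Pool.Agent.H75.SF

universe u

variable {X : Type u} [MetricSpace X] [IsCAT0 X] [ProperSpace X]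
variable {G : Type*} [Group G] [MulAction G X] [IsIsometricSMul G X]
variable {V : Type*} [NormedAddCommGroup V] [InnerProductSpace ℝ V] [FiniteDimensional ℝ V]
variable {φ : V → X} {C : Set X} {ρ : ℝ → X}

lemma dir_scale (v : V) (a t : ℝ) : dir φ (a • v) t = dir φ v (t * a) := by
  simp only [dir, smul_smul]

lemma eq_of_linear_bdd {x y M : ℝ} (h : ∀ t : ℝ, 0 ≤ t → |t * x - t * y| ≤ M) : x = y := by
  by_contra hne
  have hpos : 0 < |x - y| := abs_pos.2 (sub_ne_zero.2 hne)
  have hM : 0 ≤ M := (abs_nonneg _).trans (h 0 le_rfl)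
  have h1 := h ((M + 1) / |x - y|) (by positivity)
  rw [← mul_sub, abs_mul, abs_of_nonneg (by positivity : (0 : ℝ) ≤ (M + 1) / |x - y|),
    div_mul_cancel₀ _ hpos.ne'] at h1
  linarith

lemma dist_of_asym (hφ : Isometry φ) {g : G} {v w v' w' : V}
    (hv : Asym (fun t => g • dir φ v t) (dir φ v'))
    (hw : Asym (fun t => g • dir φ w t) (dir φ w')) : dist v' w' = dist v w := by
  obtain ⟨M, hM⟩ := hv
  obtain ⟨N, hN⟩ := hw
  have e : ∀ (x y : V) (t : ℝ), 0 ≤ t → dist (dir φ x t) (dir φ y t) = t * dist x y := by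
    intro x y t ht
    simp only [dir]
    rw [hφ.dist_eq, dist_smul₀, Real.norm_of_nonneg ht]
  apply eq_of_linear_bdd (M := M + N)
  intro t ht
  rw [← e v' w' t ht, ← e v w t ht, ← dist_smul g (dir φ v t) (dir φ w t)]
  have h1 := hM t ht
  have h2 := hN t ht
  have h3 := dist_dist_dist_le (dir φ v' t) (dir φ w' t) (g • dir φ v t) (g • dir φ w t)
  rw [Real.dist_eq] at h3
  refine h3.trans ?_
  rw [dist_comm (dir φ v' t), dist_comm (dir φ w' t)]
  exact add_le_add h1 h2

lemma omega_fixed (hφ : Isometry φ)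
    (hpt : ∀ v : V, (∀ g : G, Bdd (dir φ v) (g • range φ)) →
      (∀ g : G, Bdd (dir φ (-v)) (g • range φ)) → v = 0)
    {r : ℝ → X} (hr : IsRay r) (hr' : ∀ g : G, Bdd r (g • range φ)) :
    ∃ v : V, ‖v‖ = 1 ∧ ∀ g : G, ∃ M : ℝ, ∀ t, 0 ≤ t → dist (dir φ v t) (g • dir φ v t) ≤ M := by
  have hcl : ∀ g : G, IsClosed (g • range φ) := fun g => (isClosed_range_flat hφ).smul g
  have hne : ∀ g : G, (g • range φ).Nonempty := fun g => (range_nonempty φ).smul_set
  have hcv : ∀ g : G, GConvex (g • range φ) := by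
    intro g
    have e : g • range φ = range (fun u => g • φ u) := by
      rw [← Set.image_smul, ← range_comp]
      rfl
    rw [e]
    exact gconvex_range ((isometry_smul X g).comp hφ)
  set K : Set V := {v : V | ∀ g : G, Bdd (dir φ v) (g • range φ)} with hK
  have hKcl : IsClosed K := by
    have : K = ⋂ g : G, {v : V | Bdd (dir φ v) (g • range φ)} := by
      ext v
      simp [hK]
    rw [this]
    exact isClosed_iInter fun g => isClosed_Bdd_dir hφ (hcl g) (hne g) (hcv g)
  have hadd : ∀ v ∈ K, ∀ w ∈ K, v + w ∈ K := fun v hv w hw g =>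
    Bdd_dir_add hφ (hcl g) (hne g) (hcv g) (hv g) (hw g)
  have hsmul : ∀ v ∈ K, ∀ t : ℝ, 0 ≤ t → t • v ∈ K := fun v hv t ht g =>
    Bdd_dir_smul (hv g) ht
  have hnz : ∃ v ∈ K, v ≠ 0 := by
    have h1 : Bdd r (range φ) := by
      have := hr' 1
      rwa [one_smul] at this
    obtain ⟨v, hv, ha⟩ := exists_dir_of_Bdd hφ hr h1
    refine ⟨v, fun g => (hr' g).asym ha, ?_⟩
    rintro rfl
    rw [norm_zero] at hv
    exact zero_ne_one hv
  have h0K : (0 : V) ∈ K := by
    obtain ⟨v, hv, -⟩ := hnz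
    have := hsmul v hv 0 le_rfl
    rwa [zero_smul] at this
  have hA0 : ∀ g : G, Asym (fun t => g • dir φ (0 : V) t) (dir φ 0) := fun g =>
    ⟨dist (g • φ 0) (φ 0), fun t _ => by simp only [dir, smul_zero]; exact le_rfl⟩
  have key : ∀ (g : G) (v : V), ∃ w : V, v ∈ K →
      w ∈ K ∧ Asym (fun t => g • dir φ v t) (dir φ w) := by
    intro g v
    by_cases hv : v ∈ K
    swap
    · exact ⟨0, fun h => absurd h hv⟩
    have main : ∀ w : V, Asym (fun t => g • dir φ v t) (dir φ w) →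
        w ∈ K ∧ Asym (fun t => g • dir φ v t) (dir φ w) := by
      intro w hw
      refine ⟨fun h => ?_, hw⟩
      have h1 := (hv (g⁻¹ * h)).smul g
      rw [← mul_smul, mul_inv_cancel_left] at h1
      exact h1.asym hw
    rcases eq_or_ne v 0 with rfl | hv0
    · exact ⟨0, fun _ => main 0 (hA0 g)⟩
    have ha : 0 < ‖v‖ := norm_pos_iff.2 hv0
    set v' : V := ‖v‖⁻¹ • v with hv'
    have hv'K : v' ∈ K := hsmul v hv _ (inv_nonneg.2 ha.le)
    have hv'1 : ‖v'‖ = 1 := by
      rw [hv', norm_smul, norm_inv, norm_norm]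
      exact inv_mul_cancel₀ ha.ne'
    have h1 : Bdd (fun t => g • dir φ v' t) (range φ) := by
      have := (hv'K g⁻¹).smul g
      rwa [smul_inv_smul] at this
    obtain ⟨w', hw', has⟩ := exists_dir_of_Bdd hφ ((isRay_dir hφ hv'1).smul g) h1
    refine ⟨‖v‖ • w', fun _ => main _ ?_⟩
    obtain ⟨M, hM⟩ := has
    refine ⟨M, fun t ht => ?_⟩
    have e : dir φ v t = dir φ v' (t * ‖v‖) := by
      rw [← dir_scale, hv', smul_smul, mul_inv_cancel₀ ha.ne', one_smul]
    rw [dir_scale]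
    change dist (g • dir φ v t) _ ≤ M
    rw [e]
    exact hM (t * ‖v‖) (mul_nonneg ht ha.le)
  choose T hT using key
  have hfix := cone_fixed hKcl hadd hsmul (fun v hv hnv => hpt v hv hnv) hnz T
    (fun g v hv => (hT g v hv).1)
    (fun g v hv w hw => dist_of_asym hφ (hT g v hv).2 (hT g w hw).2)
    (fun g => by
      have := dist_of_asym hφ (hT g 0 h0K).2 (hA0 g)
      rw [dist_self] at this
      exact dist_eq_zero.1 this)
  obtain ⟨v, hv, hv0, hTv⟩ := hfix
  have ha : 0 < ‖v‖ := norm_pos_iff.2 hv0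
  refine ⟨‖v‖⁻¹ • v, ?_, fun g => ?_⟩
  · rw [norm_smul, norm_inv, norm_norm]
    exact inv_mul_cancel₀ ha.ne'
  · obtain ⟨M, hM⟩ := (hT g v hv).2
    rw [hTv g] at hM
    refine ⟨M, fun t ht => ?_⟩
    rw [dir_scale, dist_comm]
    exact hM _ (mul_nonneg ht (inv_nonneg.2 ha.le))

end Pool.Agent.H75.SF
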