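import Pool.Agent.H75.SF.HP2
import Pool.Agent.H75.SF.BddRay

/-!
# SF-23: the limit half-plane

Data: `F` a half-plane, `F t 0 = c t`, `g • c t = c (t + l)`, `Slopes g D l F b a`.  For `n : ℕ`, `s ≥ 0` put
`R n s = (g ^ n)⁻¹ • F (b + n * l + a n * s) s ∈ D`, `R' n s = (g ^ n)⁻¹ • F (b + (n + 1) * l + a (n + 1) * s) s ∈ g • D` (as `(g ^ n)⁻¹ • g ^ (n + 1) • D = g • D`).
`dist (R n s) (R n s') ^ 2 = (1 + a n ^ 2) * (s - s') ^ 2`; `dist (R n s) (R' n s) = |l + (a (n + 1) - a n) * s|`; `R n 0 = (g ^ n)⁻¹ • c (b + n * l) = c b`.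
`a` is monotone and bounded, so `a n → a∞` and `a (n + 1) - a n → 0`.  By `exists_limit_map` along `U = hyperfilter ℕ` (for `s ↦ R n (max s 0)`, in the ball of radius
`(1 + L) * s` around `c b`) get limits `R∞ s ∈ D` with `dist (R∞ s) (R∞ s') = √(1 + a∞ ^ 2) * |s - s'|`.  `infDist (R n s) (g • D) ≤ |l + (a (n + 1) - a n) * s| → |l|`, and
`infDist · (g • D)` is continuous, so `infDist (R∞ s) (g • D) ≤ |l|` for `s ≥ 0`.  `r t = R∞ (t / √(1 + a∞ ^ 2))` is a ray (for `t ≥ 0`), `Bdd r D` with bound `0`, and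
`Bdd r (g • D)` with bound `|l|`.
-/

open Set Filter Topology Metric
open Pool.Agent.H29 Pool.Agent.H29.RR
open scoped Pointwise

set_option linter.unusedSectionVars false

namespace Pool.Agent.H75.SF

variable {X : Type*} [MetricSpace X] [IsCAT0 X] [ProperSpace X]
variable {G : Type*} [Group G] [MulAction G X] [IsIsometricSMul G X]
variable {D : Set X}

theorem common_ray_of_slopes (hcl : IsClosed D) {g : G} {l : ℝ} {c : ℝ → X}
    (hgc : ∀ t, g • c t = c (t + l)) {F : ℝ → ℝ → X} (hF : HPlane F) (hF0 : ∀ t, F t 0 = c t)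
    {b : ℝ} {a : ℕ → ℝ} (hs : Slopes g D l F b a) :
    ∃ r : ℝ → X, IsRay r ∧ Bdd r D ∧ Bdd r (g • D) := by
  obtain ⟨L, hL⟩ := hs.bdd
  have hsq : ∀ (x y : X) (z : ℝ), dist x y ^ 2 = z ^ 2 → dist x y = |z| := fun x y z h => by
    rw [← abs_of_nonneg (dist_nonneg (x := x) (y := y))]
    exact (sq_eq_sq_iff_abs_eq_abs _ _).1 h
  have hgn : ∀ (n : ℕ) (t : ℝ), g ^ n • c t = c (t + n * l) := by
    intro n
    induction n with
    | zero => intro t; simp
    | succ n ih =>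
      intro t
      rw [pow_succ, mul_smul, hgc, ih]
      congr 1
      push_cast
      ring
  set R : ℕ → ℝ → X := fun n s => (g ^ n)⁻¹ • F (b + n * l + a n * s) s with hR
  have hRD : ∀ (n : ℕ) (s : ℝ), 0 ≤ s → R n s ∈ D := by
    intro n s hs0
    exact mem_smul_set_iff_inv_smul_mem.1 (hs.mem n s hs0)
  have hR0 : ∀ n, R n 0 = c b := by
    intro n
    simp only [hR]
    rw [mul_zero, add_zero, hF0, ← hgn n b, inv_smul_smul]
  have hRd : ∀ (n : ℕ) (s s' : ℝ), 0 ≤ s → 0 ≤ s' →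
      dist (R n s) (R n s') ^ 2 = (1 + a n ^ 2) * (s - s') ^ 2 := by
    intro n s s' h1 h2
    simp only [hR]
    rw [dist_smul, hF _ _ _ _ h1 h2]
    ring
  have hR' : ∀ (n : ℕ) (s : ℝ), 0 ≤ s →
      infDist (R n s) (g • D) ≤ |l + (a (n + 1) - a n) * s| := by
    intro n s h0
    have hm := hs.mem (n + 1) s h0
    rw [pow_succ, mul_smul] at hm
    have hm' := mem_smul_set_iff_inv_smul_mem.1 hm
    refine (infDist_le_dist_of_mem hm').trans (le_of_eq ?_)
    simp only [hR]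
    rw [dist_smul]
    apply hsq
    rw [hF _ _ _ _ h0 h0]
    push_cast
    ring
  obtain ⟨σ, hσ⟩ := exists_limit_map (hyperfilter ℕ) (fun n t => R n (max t 0)) (c b) (by
    intro t
    have hm : 0 ≤ max t 0 := le_max_right _ _
    refine ⟨(1 + |L|) * max t 0, Eventually.of_forall fun n => ?_⟩
    rw [← hR0 n]
    refine (sq_le_sq₀ dist_nonneg (by positivity)).1 ?_
    rw [hRd n _ _ hm le_rfl, sub_zero, mul_pow]
    refine mul_le_mul_of_nonneg_right ?_ (by positivity)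
    have h1 : |a n| ≤ |L| := (hL n).trans (le_abs_self L)
    have h2 : a n ^ 2 ≤ |L| ^ 2 := by
      rw [← sq_abs (a n)]
      exact pow_le_pow_left₀ (abs_nonneg _) h1 2
    nlinarith [abs_nonneg L])
  have hσ' : ∀ t, 0 ≤ t → Tendsto (fun n => R n t) (hyperfilter ℕ : Filter ℕ) (𝓝 (σ t)) := by
    intro t ht
    have := hσ t
    simpa only [max_eq_left ht] using this
  have haA : Tendsto a atTop (𝓝 (⨆ i, a i)) :=
    tendsto_atTop_ciSup hs.mono ⟨L, by rintro _ ⟨n, rfl⟩; exact (le_abs_self _).trans (hL n)⟩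
  set A := ⨆ i, a i with hA
  have haU : Tendsto a (hyperfilter ℕ : Filter ℕ) (𝓝 A) := haA.mono_left Nat.hyperfilter_le_atTop
  have haU' : Tendsto (fun n => a (n + 1)) (hyperfilter ℕ : Filter ℕ) (𝓝 A) :=
    ((tendsto_add_atTop_iff_nat 1).2 haA).mono_left Nat.hyperfilter_le_atTop
  have hσd : ∀ s s' : ℝ, 0 ≤ s → 0 ≤ s' →
      dist (σ s) (σ s') ^ 2 = (1 + A ^ 2) * (s - s') ^ 2 := by
    intro s s' h1 h2
    have e1 := ((hσ' s h1).dist (hσ' s' h2)).pow 2
    have e2 : Tendsto (fun n => (1 + a n ^ 2) * (s - s') ^ 2) (hyperfilter ℕ : Filter ℕ)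
        (𝓝 ((1 + A ^ 2) * (s - s') ^ 2)) :=
      ((haU.pow 2).const_add 1).mul_const _
    refine tendsto_nhds_unique e1 (e2.congr fun n => ?_)
    exact (hRd n s s' h1 h2).symm
  have hσD : ∀ s, 0 ≤ s → σ s ∈ D := fun s h0 =>
    hcl.mem_of_tendsto (hσ' s h0) (Eventually.of_forall fun n => hRD n s h0)
  have hσg : ∀ s, 0 ≤ s → infDist (σ s) (g • D) ≤ |l| := by
    intro s h0
    have e1 : Tendsto (fun n => infDist (R n s) (g • D)) (hyperfilter ℕ : Filter ℕ)
        (𝓝 (infDist (σ s) (g • D))) :=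
      ((continuous_infDist_pt (g • D)).tendsto _).comp (hσ' s h0)
    have e2 : Tendsto (fun n => |l + (a (n + 1) - a n) * s|) (hyperfilter ℕ : Filter ℕ)
        (𝓝 |l + (A - A) * s|) :=
      (((haU'.sub haU).mul_const s).const_add l).abs
    rw [sub_self, zero_mul, add_zero] at e2
    exact le_of_tendsto_of_tendsto' e1 e2 fun n => hR' n s h0
  have hpos : 0 < 1 + A ^ 2 := by positivity
  have hsq0 : 0 < √(1 + A ^ 2) := Real.sqrt_pos.2 hpos
  refine ⟨fun t => σ (t / √(1 + A ^ 2)), ?_, ⟨0, fun t ht => ?_⟩, ⟨|l|, fun t ht => ?_⟩⟩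
  · intro s t h1 h2
    apply hsq
    rw [hσd _ _ (div_nonneg h1 hsq0.le) (div_nonneg h2 hsq0.le), ← sub_div, div_pow,
      Real.sq_sqrt hpos.le]
    field_simp
  · exact (infDist_zero_of_mem (hσD _ (div_nonneg ht hsq0.le))).le
  · exact hσg _ (div_nonneg ht hsq0.le)

end Pool.Agent.H75.SF
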