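import Pool.Agent.H75.SF.NC
import Pool.Agent.H75.SF.Cone
import Pool.Agent.H75.SF.BddRay
import Pool.Agent.H75.SF.Pole
import Pool.Agent.H75.SF.Omega1
import Pool.Agent.H75.SF.Omega2

/-!
# SF-14: no ray is at bounded distance from all translates of the flat

`F = range φ`; `C` a side with a strong pole `ρ`. Suppose the ray `r` satisfies `Bdd r (g • F)` for all `g : G`.
Let `K = {v : V | ∀ g : G, Bdd (dir φ v) (g • F)}`.
(1) `K` is a closed convex cone (`Bdd_dir_add`, `Bdd_dir_smul`, `isClosed_Bdd_dir`; `g • F` is closed, convex, nonempty).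
(2) `K ≠ {0}`: `exists_dir_of_Bdd` for `r` (`g = 1`): a unit `v` with `Asym r (dir φ v)`; `Bdd.asym`.
(3) for `g : G`, `v ∈ K` there is `w ∈ K` with `Asym (fun t => g • dir φ v t) (dir φ w)`: if `v = 0` take `w = 0`; otherwise `v = a • v'`, `a = ‖v‖ > 0`,
`v'` unit, `r' = fun t => g • dir φ v' t` is a ray, `Bdd r' F` since `Bdd (dir φ v') (g⁻¹ • F)` (`Bdd.smul`), so `exists_dir_of_Bdd` gives a unit
`w'` and `w = a • w'`.  `w ∈ K`: `Bdd (dir φ w) (h • F)` for all `h`, as `Bdd (dir φ v) (g⁻¹ • h • F)`.  Let `T g v` be such a `w`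
(choice; `T g v = v` for `v ∉ K`).
(4) `dist (T g v) (T g w) = dist v w`: `dist (φ (t • v)) (φ (t • w)) = t * dist v w` differs from
`dist (φ (t • T g v)) (φ (t • T g w)) = t * dist (T g v) (T g w)` by a bounded amount.  `T g 0 = 0` similarly (or `dir_unique`).
(5) pointed (`omega_pointed`): let `v, -v ∈ K`, `v ≠ 0`; we may assume `‖v‖ = 1` (cone).  For every `g`: `infDist (φ (t • v)) (g • F)` is bounded for
`t ∈ ℝ`. With `ψ u = g • φ u`, `exists_dir_of_Bdd` gives unit vectors `w, w'` with `Asym (dir φ v) (dir ψ w)`, `Asym (dir φ (-v)) (dir ψ w')`, and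
`w' = -w`: `dist (ψ (t • w)) (ψ (t • w')) = t * ‖w - w'‖ ≥ 2 t - const`, and `‖w - w'‖ = 2` for unit vectors only if `w' = -w`.
So for every `u`, `ℓ t = ψ (u + t • w)` is a line asymptotic to `dir φ v` and, reversed, to `dir φ (-v)`.  By `parallel_far` (with `c, T`)
`c * t ≤ dist (ρ t) (g • φ u)` for all `g`, `u`, `t ≥ T`; but `Cocompact.orbit (φ 0)` gives `R` and, for each `t`, `g` with
`dist (ρ t) (g • φ 0) ≤ R`; contradiction for `t > R / c`.
(6) `cone_fixed`: `v ∈ K`, `v ≠ 0`, `T g v = v` for all `g`; we may scale to `‖v‖ = 1` (`Asym` of reparametrised rays); so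
`dist (φ (t • v)) (g • φ (t • v))` is bounded for each `g`, and `line_of_ray` (`N = ⊤`) shows that `X` is a line, contradicting
`not_line_of_flat`.  (`line_of_ray` needs some `g` and `x` with `g • x ≠ x`: otherwise `X` is compact by cocompactness, but it contains `F`.)
-/

open Set Filter Topology Metric
open Pool.Agent.H29 Pool.Agent.H29.RR
open scoped Pointwise

set_option linter.unusedSectionVars false

namespace Pool.Agent.H75.SF

universe u

variable {X : Type u} [MetricSpace X] [IsCAT0 X] [ProperSpace X]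
variable {G : Type*} [Group G] [MulAction G X] [IsIsometricSMul G X]
variable {V : Type*} [NormedAddCommGroup V] [InnerProductSpace ℝ V] [FiniteDimensional ℝ V]
variable {φ : V → X} {C : Set X} {ρ : ℝ → X}

theorem omega [ProperlyDiscontinuousSMul G X] (hcoc : Cocompact G X)
    (hgc : GeodesicallyComplete X) (hirr : MetricIrreducible X)
    (hdim : 2 ≤ Module.finrank ℝ V) (hφ : Isometry φ) (hC : FSide φ C) (hne : C ≠ univ)
    {r : ℝ → X} (hr : IsRay r) : ∃ g : G, ¬ Bdd r (g • range φ) := by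
  by_contra hcon
  push Not at hcon
  obtain ⟨ρ, hρ, hb⟩ := exists_strong_pole hcoc hgc hirr hdim hφ hC hne
  obtain ⟨v, hv, hfix⟩ := omega_fixed (G := G) hφ
    (fun v h1 h2 => omega_pointed hcoc hφ hC hρ hb h1 h2) hr hcon
  have hray : IsRay (dir φ v) := isRay_dir hφ hv
  refine not_line_of_flat hdim hφ (line_of_ray hgc hcoc hirr (⊤ : Subgroup G) ?_ hray
    (fun n _ => hfix n))
  by_contra htriv
  push Not at htriv
  obtain ⟨K, hK, hKG⟩ := hcoc
  have hall : ∀ x : X, x ∈ K := by
    intro x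
    obtain ⟨g, hg⟩ := hKG x
    rwa [htriv g trivial x] at hg
  obtain ⟨R, hR⟩ := hK.isBounded.subset_closedBall (dir φ v 0)
  have h1 := hR (hall (dir φ v (|R| + 1)))
  rw [mem_closedBall, hray _ _ (by positivity) le_rfl, sub_zero,
    abs_of_nonneg (by positivity : (0 : ℝ) ≤ |R| + 1)] at h1
  linarith [le_abs_self R]

end Pool.Agent.H75.SF
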