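import Mathlib

/-!
# SF-11: two closed convex sets covering a Euclidean space of dimension at least two

`K₁ ∪ K₂ = V`, both closed, convex and proper; then `K₁ ∩ K₂` contains a line.

Proof.  Take `x₁ ∉ K₁`, `x₂ ∉ K₂`, so `x₁ ∈ K₂`, `x₂ ∈ K₁`.  The segment `[x₁, x₂]` is connected and covered by the closed sets
`K₁, K₂`, both of which it meets; so there is `z ∈ K₁ ∩ K₂` (`isPreconnected_closed_iff` / `Convex.isPreconnected`).
Hahn-Banach (`geometric_hahn_banach_point_closed` or `..._closed_point`): a continuous linear `f` and `α` with `f < α` on `K₁` and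
`α < f x₁`.  So the half-space `{y | α ≤ f y}` is disjoint from `K₁`, hence contained in `K₂`.  As `2 ≤ finrank` there is `w ≠ 0` with
`f w = 0`; normalise `‖w‖ = 1`.
(1) `add_mem_of_ray`: if `K` is closed and convex and `a + t • w ∈ K` for all `t ≥ 0` then `y + t • w ∈ K` for all `y ∈ K`, `t ≥ 0`
(`y + t • w = lim_s ((1 - t / s) • y + (t / s) • (a + s • w))`).
(2) `x₁ + t • w ∈ K₂` for all `t : ℝ` (`f (x₁ + t • w) = f x₁ > α`).  So `K₂` is invariant under `± t • w` by (1) for `w` and `-w`.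
(3) Hence the complement of `K₂` is invariant too: `x₂ + t • w ∉ K₂`, so `x₂ + t • w ∈ K₁` for all `t : ℝ`, and `K₁` is invariant by (1).
(4) So `z + t • w ∈ K₁ ∩ K₂` for all `t`.
-/

open Set Filter Topology Metric

namespace Pool.Agent.H75.SF

variable {V : Type*} [NormedAddCommGroup V] [InnerProductSpace ℝ V]

lemma add_mem_of_ray {K : Set V} (hcl : IsClosed K) (hcv : Convex ℝ K) {a w : V}
    (h : ∀ t : ℝ, 0 ≤ t → a + t • w ∈ K) {y : V} (hy : y ∈ K) {t : ℝ} (ht : 0 ≤ t) :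
    y + t • w ∈ K := by
  -- the points (1 - t / s) • y + (t / s) • (a + s • w)
  have key : ∀ᶠ s : ℝ in atTop, (1 - t / s) • y + (t / s) • (a + s • w) ∈ K := by
    filter_upwards [eventually_ge_atTop (max t 1)] with s hs
    have hs1 : 1 ≤ s := (le_max_right _ _).trans hs
    have hst : t ≤ s := (le_max_left _ _).trans hs
    have hs0 : 0 < s := by linarith
    apply hcv hy (h s hs0.le)
    · rw [sub_nonneg, div_le_one hs0]
      exact hst
    · positivity
    · ring
  have hlim : Tendsto (fun s : ℝ => (1 - t / s) • y + (t / s) • (a + s • w)) atTop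
      (𝓝 ((1 - 0 : ℝ) • y + ((0 : ℝ) • a + t • w))) := by
    have h1 : Tendsto (fun s : ℝ => t / s) atTop (𝓝 0) := tendsto_const_nhds.div_atTop tendsto_id
    have h2 : Tendsto (fun s : ℝ => (1 - t / s) • y + ((t / s) • a + t • w)) atTop
        (𝓝 ((1 - 0 : ℝ) • y + ((0 : ℝ) • a + t • w))) :=
      ((tendsto_const_nhds.sub h1).smul_const y).add ((h1.smul_const a).add_const _)
    apply h2.congr'
    filter_upwards [eventually_gt_atTop 0] with s hs
    rw [smul_add, smul_smul, div_mul_cancel₀ _ hs.ne']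
  have := hcl.mem_of_tendsto hlim key
  simpa using this

theorem cover_line [FiniteDimensional ℝ V] (hdim : 2 ≤ Module.finrank ℝ V) {K₁ K₂ : Set V}
    (h1 : IsClosed K₁) (h2 : IsClosed K₂) (c1 : Convex ℝ K₁) (c2 : Convex ℝ K₂)
    (hcov : K₁ ∪ K₂ = univ) (n1 : K₁ ≠ univ) (n2 : K₂ ≠ univ) :
    ∃ z w : V, ‖w‖ = 1 ∧ ∀ t : ℝ, z + t • w ∈ K₁ ∩ K₂ := by
  obtain ⟨x₁, hx₁⟩ := (ne_univ_iff_exists_notMem K₁).1 n1
  obtain ⟨x₂, hx₂⟩ := (ne_univ_iff_exists_notMem K₂).1 n2
  have hcov' : ∀ x, x ∉ K₁ → x ∈ K₂ := fun x hx => by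
    have := hcov.ge (mem_univ x)
    exact this.resolve_left hx
  have hcov'' : ∀ x, x ∉ K₂ → x ∈ K₁ := fun x hx => by
    have := hcov.ge (mem_univ x)
    exact this.resolve_right hx
  -- a common point
  obtain ⟨z, hz⟩ : (K₁ ∩ K₂).Nonempty := by
    have hpre : IsPreconnected (univ : Set V) := isPreconnected_univ
    rw [isPreconnected_closed_iff] at hpre
    have := hpre K₁ K₂ h1 h2 hcov.ge ⟨x₂, mem_univ _, hcov'' _ hx₂⟩ ⟨x₁, mem_univ _, hcov' _ hx₁⟩
    simpa using this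
  -- Hahn-Banach
  obtain ⟨f, α, hf1, hf2⟩ := geometric_hahn_banach_closed_point c1 h1 hx₁
  -- a vector in the kernel
  obtain ⟨w, hw, hw1⟩ : ∃ w : V, f w = 0 ∧ ‖w‖ = 1 := by
    have hker : ∃ w : V, w ∈ LinearMap.ker (f : V →ₗ[ℝ] ℝ) ∧ w ≠ 0 := by
      have h3 := LinearMap.finrank_range_add_finrank_ker (f : V →ₗ[ℝ] ℝ)
      have h4 : Module.finrank ℝ (LinearMap.range (f : V →ₗ[ℝ] ℝ)) ≤ 1 := by
        have := Submodule.finrank_le (LinearMap.range (f : V →ₗ[ℝ] ℝ))
        simpa using this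
      have h5 : 0 < Module.finrank ℝ (LinearMap.ker (f : V →ₗ[ℝ] ℝ)) := by omega
      have h6 : Nontrivial (LinearMap.ker (f : V →ₗ[ℝ] ℝ)) := Module.nontrivial_of_finrank_pos h5
      obtain ⟨w, hw⟩ := exists_ne (0 : LinearMap.ker (f : V →ₗ[ℝ] ℝ))
      exact ⟨w, w.2, fun h => hw (Subtype.ext h)⟩
    obtain ⟨w, hw, hw0⟩ := hker
    refine ⟨(‖w‖)⁻¹ • w, ?_, ?_⟩
    · rw [map_smul]
      have : f w = 0 := hw
      rw [this, smul_zero]
    · rw [norm_smul, norm_inv, norm_norm, inv_mul_cancel₀ (norm_ne_zero_iff.2 hw0)]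
  have hfw : ∀ t : ℝ, f (x₁ + t • w) = f x₁ := fun t => by
    rw [map_add, map_smul, hw, smul_zero, add_zero]
  have hK2 : ∀ t : ℝ, x₁ + t • w ∈ K₂ := fun t => by
    apply hcov'
    intro hmem
    have := hf1 _ hmem
    rw [hfw] at this
    linarith
  have inv2 : ∀ y ∈ K₂, ∀ t : ℝ, y + t • w ∈ K₂ := fun y hy t => by
    rcases le_total 0 t with ht | ht
    · exact add_mem_of_ray h2 c2 (fun s _ => hK2 s) hy ht
    · have := add_mem_of_ray (w := -w) h2 c2 (a := x₁) (fun s _ => by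
        have := hK2 (-s)
        rwa [neg_smul, ← smul_neg] at this) hy (t := -t) (by linarith)
      rwa [smul_neg, neg_smul, neg_neg] at this
  have hK1 : ∀ t : ℝ, x₂ + t • w ∈ K₁ := fun t => by
    apply hcov''
    intro hmem
    have := inv2 _ hmem (-t)
    rw [neg_smul, add_neg_cancel_right] at this
    exact hx₂ this
  have inv1 : ∀ y ∈ K₁, ∀ t : ℝ, y + t • w ∈ K₁ := fun y hy t => by
    rcases le_total 0 t with ht | ht
    · exact add_mem_of_ray h1 c1 (fun s _ => hK1 s) hy ht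
    · have := add_mem_of_ray (w := -w) h1 c1 (a := x₂) (fun s _ => by
        have := hK1 (-s)
        rwa [neg_smul, ← smul_neg] at this) hy (t := -t) (by linarith)
      rwa [smul_neg, neg_smul, neg_neg] at this
  exact ⟨z, w, hw1, fun t => ⟨inv1 z hz.1 t, inv2 z hz.2 t⟩⟩

end Pool.Agent.H75.SF
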