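import Pool.Agent.H75.SF.Flat1
import Pool.Agent.H75.SF.Cover
import Pool.Agent.H29.RR.Geo3

/-!
# SF-16: two-sided flats and their sides

`Side F x` (`Pool.Agent.H29.RR.Geo1`) is the path component of `x` in `Fᶜ`.

* `isOpen_side`: `F` closed; for `z ∈ Side F x` the ball of radius `infDist z F > 0` around `z` lies in `Side F x`
  (`joinedIn_of_pt`: all points of the segment from `z` to a point of the ball are in the ball, which avoids `F`).  (`F` empty: `Side = univ` by
  `joinedIn_of_pt`.)
* `gconvex_compl_side`: let `a, b ∉ Side F x` and suppose that `m = pt a b t ∈ Side F x`.  By `side_meets` the segments `[m, a]` and `[m, b]`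
  meet `F` in `p`, `q`; then `m` lies on the segment `[p, q]` (`pt_pt_pt`), so `m ∈ F`, contradiction.
* `isClosed_union`, `gconvex_union`: `F ∪ Side F x` is closed: its complement is the union of the other sides, which are open.  Convexity: let
  `a, b ∈ F ∪ Side F x`, `m = pt a b t ∉ F ∪ Side F x`; then `a, b ∉ Side F m` (`side_eq`), so `m ∉ Side F m` by `gconvex_compl_side`, but
  `mem_side_self`.
* `Wall.fside`: for a wall `(range φ, A)`, `FSide φ (A i)ᶜ`: `(A i)ᶜ \ range φ` is the complement of the closed set `range φ ∪ A i`.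
* `sep_infDist`: `F` closed, convex; `x ∉ A`, `S ⊆ F ∪ A`, `S` nonempty, `A` a side of `F`: the geodesic from `x` to `s ∈ S` meets `F` (if `s ∈ A`:
  `side_meets`), so `infDist x F ≤ dist x s`; hence `infDist x F ≤ infDist x S`.
* `Wall.smul`: `side_smul`, isometries preserve closures.
-/

open Set Filter Topology Metric
open Pool.Agent.H29 Pool.Agent.H29.RR
open scoped Pointwise

set_option linter.unusedSectionVars false

namespace Pool.Agent.H75.SF

variable {X : Type*} [MetricSpace X] [IsCAT0 X] [ProperSpace X]

lemma isOpen_side {F : Set X} (hcl : IsClosed F) (x : X) : IsOpen (Side F x) := by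
  rw [Metric.isOpen_iff]
  intro z hz
  have hzF : z ∈ Fᶜ := side_subset hz
  obtain ⟨ε, hε, hball⟩ := Metric.isOpen_iff.mp hcl.isOpen_compl z hzF
  refine ⟨ε, hε, fun w hw => ?_⟩
  refine (mem_side.mp hz).trans (joinedIn_of_pt (fun t ht => hball ?_))
  rw [Metric.mem_ball, dist_comm, dist_left_pt z w ht]
  rw [Metric.mem_ball, dist_comm] at hw
  have h1 : t * dist z w ≤ dist z w := mul_le_of_le_one_left dist_nonneg ht.2
  exact lt_of_le_of_lt h1 hw

lemma gconvex_compl_side {F : Set X} (hcv : GConvex F) (x : X) : GConvex (Side F x)ᶜ := by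
  intro a ha b hb t ht hm
  obtain ⟨s, hs, hp⟩ := side_meets hm ha
  obtain ⟨s', hs', hq⟩ := side_meets hm hb
  have e1 : pt (pt a b t) a s = pt a b ((1 - s) * t) := by
    have h := pt_pt_pt a b ht zero_mem_I hs
    rw [pt_zero] at h
    rw [h, mul_zero, add_zero]
  have e2 : pt (pt a b t) b s' = pt a b ((1 - s') * t + s') := by
    have h := pt_pt_pt a b ht one_mem_I hs'
    rw [pt_one] at h
    rw [h, mul_one]
  rw [e1] at hp
  rw [e2] at hq
  have hst : 0 ≤ s * t := mul_nonneg hs.1 ht.1
  have hu : (1 - s) * t ∈ Icc (0 : ℝ) 1 := by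
    constructor
    · exact mul_nonneg (by linarith [hs.2]) ht.1
    · nlinarith [ht.2]
  have hs't : 0 ≤ s' * (1 - t) := mul_nonneg hs'.1 (by linarith [ht.2])
  have hv : (1 - s') * t + s' ∈ Icc (0 : ℝ) 1 := by
    constructor
    · have := mul_nonneg (sub_nonneg.mpr hs'.2) ht.1
      linarith [hs'.1]
    · have := mul_nonneg (sub_nonneg.mpr hs'.2) (sub_nonneg.mpr ht.2)
      nlinarith
  have hut : (1 - s) * t ≤ t := by nlinarith
  have htv : t ≤ (1 - s') * t + s' := by nlinarith
  have hmF : pt a b t ∉ F := side_subset hm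
  rcases eq_or_lt_of_le hut with h | h
  · rw [h] at hp
    exact hmF hp
  · have hpos : 0 < (1 - s') * t + s' - (1 - s) * t := by linarith
    have hr : (t - (1 - s) * t) / ((1 - s') * t + s' - (1 - s) * t) ∈ Icc (0 : ℝ) 1 := by
      refine ⟨div_nonneg (by linarith) hpos.le, ?_⟩
      rw [div_le_one hpos]
      linarith
    have h1 := hcv _ hp _ hq _ hr
    rw [pt_pt_pt a b hu hv hr] at h1
    have h2 : ∀ c d : ℝ, 0 < d - c → (1 - (t - c) / (d - c)) * c + (t - c) / (d - c) * d = t := by
      intro c d hcd
      have hne : d - c ≠ 0 := hcd.ne'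
      field_simp
      ring
    rw [h2 _ _ hpos] at h1
    exact hmF h1

lemma isClosed_union_side {F : Set X} (hcl : IsClosed F) (x : X) : IsClosed (F ∪ Side F x) := by
  rw [← isOpen_compl_iff, isOpen_iff_forall_mem_open]
  intro z hz
  have hzF : z ∉ F := fun h => hz (Or.inl h)
  have hzS : z ∉ Side F x := fun h => hz (Or.inr h)
  refine ⟨Side F z, ?_, isOpen_side hcl z, mem_side_self hzF⟩
  intro w hw hcon
  rcases hcon with h | h
  · exact side_subset hw h
  · apply hzS
    rw [side_eq h, ← side_eq hw]
    exact mem_side_self hzF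

lemma gconvex_union_side {F : Set X} (hcv : GConvex F) (x : X) : GConvex (F ∪ Side F x) := by
  intro a ha b hb t ht
  by_contra hcon
  have hmF : pt a b t ∉ F := fun h => hcon (Or.inl h)
  have hmS : pt a b t ∉ Side F x := fun h => hcon (Or.inr h)
  have key : ∀ c ∈ F ∪ Side F x, c ∈ (Side F (pt a b t))ᶜ := by
    intro c hc hc'
    have hcF : c ∉ F := side_subset hc'
    have hcS : c ∈ Side F x := hc.resolve_left hcF
    apply hmS
    rw [side_eq hcS, ← side_eq hc']
    exact mem_side_self hmF
  exact gconvex_compl_side hcv (pt a b t) a (key a ha) b (key b hb) t ht (mem_side_self hmF)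

/-- a closed convex set with two different sides, both adjacent to all of it -/
structure Wall (F : Set X) (A : Bool → Set X) : Prop where
  closed : IsClosed F
  convex : GConvex F
  side : ∀ i, ∃ x, x ∉ F ∧ A i = Side F x
  disj : Disjoint (A false) (A true)
  adj : ∀ i, F ⊆ closure (A i)

lemma Wall.smul {G : Type*} [Group G] [MulAction G X] [IsIsometricSMul G X] {F : Set X}
    {A : Bool → Set X} (h : Wall F A) (g : G) : Wall (g • F) (fun i => g • A i) := by
  constructor
  · exact (isometry_smul X g).isClosedEmbedding.isClosedMap F h.closed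
  · rintro x ⟨a, ha, rfl⟩ y ⟨b, hb, rfl⟩ t ht
    exact ⟨pt a b t, h.convex a ha b hb t ht, smul_pt g a b ht⟩
  · intro i
    obtain ⟨x, hx, hxA⟩ := h.side i
    refine ⟨g • x, fun hcon => hx (Set.smul_mem_smul_set_iff.mp hcon), ?_⟩
    simp only [hxA]
    exact side_smul g F x
  · exact (Set.disjoint_image_iff (MulAction.injective g)).mpr h.disj
  · intro i
    have h1 : g • F ⊆ g • closure (A i) := Set.smul_set_mono (h.adj i)
    have h2 : g • closure (A i) ⊆ closure (g • A i) :=
      image_closure_subset_closure_image (isometry_smul X g).continuous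
    exact h1.trans h2

lemma Wall.fside {V : Type*} {φ : V → X} {A : Bool → Set X} (h : Wall (range φ) A) (i : Bool) :
    FSide φ (A i)ᶜ := by
  obtain ⟨x, hx, hxA⟩ := h.side i
  rw [hxA]
  constructor
  · exact (isOpen_side h.closed x).isClosed_compl
  · exact gconvex_compl_side h.convex x
  · intro z hz hcon
    exact side_subset hcon hz
  · have h1 : (Side (range φ) x)ᶜ \ range φ = (range φ ∪ Side (range φ) x)ᶜ := by
      ext z
      simp only [Set.mem_sdiff, mem_compl_iff, mem_union, not_or]
      exact and_comm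
    rw [h1]
    exact (isClosed_union_side h.closed x).isOpen_compl

lemma sep_infDist {F : Set X} {x₀ x : X} (hx : x ∉ Side F x₀) {S : Set X}
    (hS : S ⊆ F ∪ Side F x₀) (hne : S.Nonempty) : infDist x F ≤ infDist x S := by
  rw [Metric.le_infDist hne]
  intro s hs
  rcases hS hs with h | h
  · exact infDist_le_dist_of_mem h
  · obtain ⟨t, ht, hp⟩ := side_meets h hx
    have h1 : infDist x F ≤ dist x (pt s x t) := infDist_le_dist_of_mem hp
    have h2 : dist x (pt s x t) = (1 - t) * dist s x := by
      rw [dist_comm, dist_pt_right s x ht]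
    have h3 : (1 - t) * dist s x ≤ dist x s := by
      rw [dist_comm x s]
      exact mul_le_of_le_one_left dist_nonneg (by linarith [ht.1])
    linarith

end Pool.Agent.H75.SF
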