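import Pool.Agent.H75.SF.Defs

/-!
# SF-1: Busemann functions of rays, basic facts

`busR ρ x = bus (fun n : ℕ => ρ n) 1 x`.  All of this is in `Pool.Agent.H29.Line` for discrete rays
(`IsDR`): `isDR_ray` is immediate, then `IsDR.bus_lip`, `IsDR.continuous_bus`, `IsDR.gconvexFun_bus`.
For real `t`: `t ↦ dist x (ρ t) - t` is antitone on `[0,∞)` (triangle inequality), hence it converges to the
same limit as along the integers, and `busR ρ x ≤ dist x (ρ t) - t`.
-/

open Set Filter Topology Metric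
open Pool.Agent.H29 Pool.Agent.H29.RR
open scoped Pointwise

set_option linter.unusedSectionVars false

namespace Pool.Agent.H75.SF

variable {X : Type*} [MetricSpace X] [IsCAT0 X]

lemma isDR_ray {ρ : ℝ → X} (hρ : IsRay ρ) : IsDR (fun n : ℕ => ρ n) 1 := by
  intro m n
  rw [hρ _ _ (Nat.cast_nonneg m) (Nat.cast_nonneg n), one_mul]

lemma ray_antitone {ρ : ℝ → X} (hρ : IsRay ρ) (x : X) {s t : ℝ} (hs : 0 ≤ s) (hst : s ≤ t) :
    dist x (ρ t) - t ≤ dist x (ρ s) - s := by
  have h1 := dist_triangle x (ρ s) (ρ t)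
  rw [hρ s t hs (hs.trans hst), abs_sub_comm, abs_of_nonneg (by linarith)] at h1
  linarith

lemma busR_le {ρ : ℝ → X} (hρ : IsRay ρ) (x : X) {t : ℝ} (ht : 0 ≤ t) :
    busR ρ x ≤ dist x (ρ t) - t := by
  obtain ⟨n, hn⟩ := exists_nat_ge t
  have h1 := (isDR_ray hρ).bus_le x n
  have h2 := ray_antitone hρ x ht hn
  unfold busR
  linarith

lemma tendsto_busR {ρ : ℝ → X} (hρ : IsRay ρ) (x : X) :
    Tendsto (fun t : ℝ => dist x (ρ t) - t) atTop (𝓝 (busR ρ x)) := by
  have h1 := (isDR_ray hρ).tendsto x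
  rw [Metric.tendsto_atTop] at h1 ⊢
  intro ε hε
  obtain ⟨N, hN⟩ := h1 ε hε
  refine ⟨max N 0, fun t ht => ?_⟩
  have ht0 : 0 ≤ t := (le_max_right _ _).trans ht
  have htN : (N : ℝ) ≤ t := (le_max_left _ _).trans ht
  have h2 := hN N le_rfl
  rw [Real.dist_eq, abs_lt] at h2 ⊢
  have h3 := busR_le hρ x ht0
  have h4 := ray_antitone hρ x (Nat.cast_nonneg N) htN
  unfold busR at h3 ⊢
  constructor <;> linarith

lemma busR_apply {ρ : ℝ → X} (hρ : IsRay ρ) {t : ℝ} (ht : 0 ≤ t) : busR ρ (ρ t) = -t := by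
  apply tendsto_nhds_unique (tendsto_busR hρ (ρ t))
  apply tendsto_const_nhds.congr'
  filter_upwards [eventually_ge_atTop t] with s hs
  rw [hρ t s ht (ht.trans hs), abs_sub_comm, abs_of_nonneg (by linarith)]
  ring

lemma busR_lip {ρ : ℝ → X} (hρ : IsRay ρ) (x y : X) : busR ρ x ≤ busR ρ y + dist x y :=
  (isDR_ray hρ).bus_lip x y

lemma abs_busR_sub_le {ρ : ℝ → X} (hρ : IsRay ρ) (x y : X) :
    |busR ρ x - busR ρ y| ≤ dist x y := by
  have h1 := busR_lip hρ x y
  have h2 := busR_lip hρ y x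
  rw [dist_comm y x] at h2
  rw [abs_le]
  constructor <;> linarith

lemma continuous_busR {ρ : ℝ → X} (hρ : IsRay ρ) : Continuous (busR ρ) :=
  (isDR_ray hρ).continuous_bus

lemma gconvexFun_busR {ρ : ℝ → X} (hρ : IsRay ρ) : GConvexFun (busR ρ) :=
  (isDR_ray hρ).gconvexFun_bus

/-- lines give rays -/
lemma isRay_of_isometry {c : ℝ → X} (hc : Isometry c) : IsRay c := by
  intro s t _ _
  rw [hc.dist_eq, Real.dist_eq]

lemma busR_eq_busF (c : ℝ → X) : busR c = busF c := rfl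

/-- equivariance -/
lemma busR_smul {G : Type*} [Group G] [MulAction G X] [IsIsometricSMul G X] (g : G) (ρ : ℝ → X)
    (x : X) : busR (fun t => g • ρ t) (g • x) = busR ρ x := by
  unfold busR
  rw [bus_smul]
  congr 1
  funext n
  simp

end Pool.Agent.H75.SF
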