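import Pool.Agent.H75.SF.Cross
import Pool.Agent.H75.SF.NC
import Pool.Agent.H75.SF.BddRay

/-!
# SF-18: the chain

`(F, A)` a wall, `F = range φ`, `dim V ≥ 2`.  `hfar`: there are strong poles: for `i : Bool` an orthogonal ray `ρ i` of `(A i)ᶜ` and `c > 0`, `T > 0` such
that lines parallel to lines of `F` have distance `≥ c * t` from `ρ i t` for `t ≥ T` (`parallel_far`).  `hkill`: the conclusion of `kill` for `S = F`.

* `no_common_line`: let `t ≥ T`, `dist (g • ρ i t) (g' • φ p) < c * t`.  Then `g • F` and `g' • F` have no common line: let `ℓ` be one.  By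
  `line_in_flat` for the isometry `fun u => g' • φ u`, `ℓ s = g' • φ (z + s • w)`, and for `fun u => g • φ u`: `ℓ s = g • φ (z' + s • w')`.  The line
  `ℓ' s = g⁻¹ • g' • φ (p + s • w)` is at bounded distance (`dist_flat`) from `g⁻¹ • ℓ s = φ (z' + s • w')`, so asymptotic to `dir φ w'` and, reversed, to
  `dir φ (-w')`.  So `c * t ≤ dist (ρ i t) (ℓ' 0) = dist (g • ρ i t) (g' • φ p)`, contradiction.
* `chain_step`: state `(g, i)`, unit vector `v`, `g₀ : G`.  Let `t = max T (R₁ / c) + R₁ + 1`... any `t ≥ T` with `R₁ < c * t`, `R₁ < t`; `y = g • ρ i t`.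
  `exists_ray_from`: a ray `r` from `y` asymptotic to `fun s => g₀ • φ (s • v)`.  `hkill` for `r`: `g'` with `infDist y (g' • F) ≤ R₁` and no ray `r'`
  from `y` with `dist (r N) (r' N) ≤ ε` is `Bdd` to `g' • F`.  Let `q ∈ g' • F` be a nearest point, `q = g' • φ p`, `dist y q ≤ R₁ < c * t`.
  So `no_common_line` applies.  `infDist (ρ i t) (A i)ᶜ = t > R₁ ≥ dist (ρ i t) (g⁻¹ • q)`, so `g⁻¹ • q ∈ A i`, `q ∈ g • A i`.  `nested` for
  `fun u => g • φ u`, `fun u => g' • φ u` (with `Wall.smul`; `range (fun u => g • φ u) = g • range φ`) gives `g' • F ⊆ g • F ∪ g • A i` and `i'` with `g' • A i' ⊆ g • A i`.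
  Let `w` be a unit vector with `dist v w ≤ ε / N` and suppose `Bdd (fun s => g₀ • φ (s • w)) (g' • F)`. Let `r'` be the ray from `y` asymptotic to
  it; `dist_le_of_dir` (for the isometry `fun u => g₀ • φ u`): `dist (r N) (r' N) ≤ N * ‖v - w‖ ≤ ε`; `Bdd.asym`: `Bdd r' (g' • F)`, contradiction.
* `sep_state`: `g₁ • A i₁ ⊆ g₀ • A i₀`, `g₂ • F ⊆ g₁ • F ∪ g₁ • A i₁`.  Then `Bdd (fun s => g₀ • φ (s • w)) (g₂ • F)` implies
  `Bdd (fun s => g₀ • φ (s • w)) (g₁ • F)`: points `x ∈ g₀ • F` are not in `g₀ • A i₀`, so not in `g₁ • A i₁`: `sep_infDist`.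
* `chain_full`: cover the compact unit sphere by finitely many balls of radius `η = ε / N` around unit vectors `v ∈ s` (`Finset`; `finite_cover_balls_of_compact`).  By
  induction on the finset: for every finset `s` of unit vectors there is `(g', i')` with `g' • A i' ⊆ g₀ • A i₀` and `¬ Bdd (fun t => g₀ • φ (t • w)) (g' • F)`
  for all unit `w` with `dist v w ≤ η` for some `v ∈ s`: for the step from `(g₁, i₁)` apply `chain_step` to get `(g₂, i₂)`; the old directions stay killed by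
  `sep_state`.  (To have `g' • F ⊆ g₀ • F ∪ g₀ • A i₀` too note `F ⊆ closure (A i')` and `closure (A i₀) ⊆ F ∪ A i₀`.)
-/

open Set Filter Topology Metric
open Pool.Agent.H29 Pool.Agent.H29.RR
open scoped Pointwise

set_option linter.unusedSectionVars false

namespace Pool.Agent.H75.SF

variable {X : Type*} [MetricSpace X] [IsCAT0 X] [ProperSpace X]
variable {G : Type*} [Group G] [MulAction G X] [IsIsometricSMul G X]
variable {V : Type*} [NormedAddCommGroup V] [InnerProductSpace ℝ V] [FiniteDimensional ℝ V]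
variable {φ : V → X} {A : Bool → Set X}

/-- strong poles on both sides, with uniform constants -/
structure Poles (φ : V → X) (A : Bool → Set X) (ρ : Bool → ℝ → X) (c T : ℝ) : Prop where
  cpos : 0 < c
  Tpos : 0 < T
  orth : ∀ i, Orth (A i)ᶜ (ρ i)
  far : ∀ i t, T ≤ t → ∀ v : V, ‖v‖ = 1 → ∀ ℓ : ℝ → X, Isometry ℓ →
      Asym ℓ (dir φ v) → Asym (fun t => ℓ (-t)) (dir φ (-v)) → ∀ s, c * t ≤ dist (ρ i t) (ℓ s)

/-- the conclusion of `kill` -/
def Kills (G : Type*) [Group G] [MulAction G X] (S : Set X) (R₁ N ε : ℝ) : Prop :=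
  0 < R₁ ∧ 0 < N ∧ 0 < ε ∧ ∀ r : ℝ → X, IsRay r →
      ∃ g : G, infDist (r 0) (g • S) ≤ R₁ ∧ ∀ r' : ℝ → X, IsRay r' → r' 0 = r 0 →
        dist (r N) (r' N) ≤ ε → ¬ Bdd r' (g • S)

end Pool.Agent.H75.SF
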