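import Pool.Agent.H75.SF.Cross
import Pool.Agent.H75.SF.NC
import Pool.Agent.H75.SF.BddRay
import Pool.Agent.H75.SF.ChainDefs
import Pool.Agent.H75.SF.Chain1

/-!
# SF-18: the chain

`(F, A)` a wall, `F = range φ`, `dim V ≥ 2`.  `hfar`: there are strong poles: for `i : Bool` an orthogonal ray `ρ i` of `(A i)ᶜ` and `c > 0`, `T > 0` such
that lines parallel to lines of `F` have distance `≥ c * t` from `ρ i t` for `t ≥ T` (`parallel_far`).  `hkill`: the conclusion of `kill` for `S = F`.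

* `no_common_line`: let `t ≥ T`, `dist (g • ρ i t) (g' • φ p) < c * t`.  Then `g • F` and `g' • F` have no common line: let `ℓ` be one.  By
  `line_in_flat` for the isometry `fun u => g' • φ u`, `ℓ s = g' • φ (z + s • w)`, and for `fun u => g • φ u`: `ℓ s = g • φ (z' + s • w')`.  The line
  `ℓ' s = g⁻¹ • g' • φ (p + s • w)` is at bounded distance (`dist_flat`) from `g⁻¹ • ℓ s = φ (z' + s • w')`, so asymptotic to `dir φ w'` and, reversed, to
  `dir φ (-w')`.  So `c * t ≤ dist (ρ i t) (ℓ' 0) = dist (g • ρ i t) (g' • φ p)`, contradiction.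
* `chain_step`: state `(g, i)`, unit vector `v`, `g₀ : G`.  Let `t = max T (R₁ / c) + R₁ + 1`... any `t ≥ T` with `R₁ < c * t`, `R₁ < t`; `y = g • ρ i t`.
  `exists_ray_from`: a ray `r` from `y` asymptotic to `fun s => g₀ • φ (s • v)`.  `hkill` for `r`: `g'` with `infDist y (g' • F) ≤ R₁` and no ray `r'`
  from `y` with `dist (r N) (r' N) ≤ ε` is `Bdd` to `g' • F`.  Let `q ∈ g' • F` be a nearest point, `q = g' • φ p`, `dist y q ≤ R₁ < c * t`.
  So `no_common_line` applies.  `infDist (ρ i t) (A i)ᶜ = t > R₁ ≥ dist (ρ i t) (g⁻¹ • q)`, so `g⁻¹ • q ∈ A i`, `q ∈ g • A i`.  `nested` for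
  `fun u => g • φ u`, `fun u => g' • φ u` (with `Wall.smul`; `range (fun u => g • φ u) = g • range φ`) gives `g' • F ⊆ g • F ∪ g • A i` and `i'` with `g' • A i' ⊆ g • A i`.
  Let `w` be a unit vector with `dist v w ≤ ε / N` and suppose `Bdd (fun s => g₀ • φ (s • w)) (g' • F)`. Let `r'` be the ray from `y` asymptotic to
  it; `dist_le_of_dir` (for the isometry `fun u => g₀ • φ u`): `dist (r N) (r' N) ≤ N * ‖v - w‖ ≤ ε`; `Bdd.asym`: `Bdd r' (g' • F)`, contradiction.
* `sep_state`: `g₁ • A i₁ ⊆ g₀ • A i₀`, `g₂ • F ⊆ g₁ • F ∪ g₁ • A i₁`.  Then `Bdd (fun s => g₀ • φ (s • w)) (g₂ • F)` implies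
  `Bdd (fun s => g₀ • φ (s • w)) (g₁ • F)`: points `x ∈ g₀ • F` are not in `g₀ • A i₀`, so not in `g₁ • A i₁`: `sep_infDist`.
* `chain_full`: cover the compact unit sphere by finitely many balls of radius `η = ε / N` around unit vectors `v ∈ s` (`Finset`; `finite_cover_balls_of_compact`).  By
  induction on the finset: for every finset `s` of unit vectors there is `(g', i')` with `g' • A i' ⊆ g₀ • A i₀` and `¬ Bdd (fun t => g₀ • φ (t • w)) (g' • F)`
  for all unit `w` with `dist v w ≤ η` for some `v ∈ s`: for the step from `(g₁, i₁)` apply `chain_step` to get `(g₂, i₂)`; the old directions stay killed by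
  `sep_state`.  (To have `g' • F ⊆ g₀ • F ∪ g₀ • A i₀` too note `F ⊆ closure (A i')` and `closure (A i₀) ⊆ F ∪ A i₀`.)
-/

open Set Filter Topology Metric
open Pool.Agent.H29 Pool.Agent.H29.RR
open scoped Pointwise

set_option linter.unusedSectionVars false

namespace Pool.Agent.H75.SF

variable {X : Type*} [MetricSpace X] [IsCAT0 X] [ProperSpace X]
variable {G : Type*} [Group G] [MulAction G X] [IsIsometricSMul G X]
variable {V : Type*} [NormedAddCommGroup V] [InnerProductSpace ℝ V] [FiniteDimensional ℝ V]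
variable {φ : V → X} {A : Bool → Set X}

/-- nested walls: the flat of the smaller half-space lies in the larger one -/
lemma flat_subset (hA : Wall (range φ) A) {g g' : G} {i i' : Bool}
    (h : g' • A i' ⊆ g • A i) : g' • range φ ⊆ g • range φ ∪ g • A i := by
  have h1 := hA.smul g'
  have h2 := hA.smul g
  obtain ⟨x, hx, hAx⟩ := h2.side i
  have hcl : IsClosed (g • range φ ∪ g • A i) := by
    have h3 := isClosed_union_side h2.closed x
    rwa [← hAx] at h3
  have h4 : g' • range φ ⊆ closure (g' • A i') := h1.adj i'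
  exact h4.trans (closure_minimal (h.trans Set.subset_union_right) hcl)

lemma sep_state (hφ : Isometry φ) (hA : Wall (range φ) A) {g₀ g₁ g₂ : G} {i₀ i₁ i₂ : Bool}
    (h1 : g₁ • A i₁ ⊆ g₀ • A i₀) (h2 : g₂ • A i₂ ⊆ g₁ • A i₁) {r : ℝ → X}
    (hr : ∀ t, 0 ≤ t → r t ∈ g₀ • range φ) (hb : Bdd r (g₂ • range φ)) :
    Bdd r (g₁ • range φ) := by
  obtain ⟨M, hM⟩ := hb
  refine ⟨M, fun t ht => le_trans ?_ (hM t ht)⟩
  obtain ⟨x₀, -, hA0⟩ := (hA.smul g₀).side i₀
  obtain ⟨x₁, -, hA1⟩ := (hA.smul g₁).side i₁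
  have hA0' : g₀ • A i₀ = Side (g₀ • range φ) x₀ := hA0
  have hA1' : g₁ • A i₁ = Side (g₁ • range φ) x₁ := hA1
  have hne : (g₂ • range φ).Nonempty := Set.Nonempty.smul_set ⟨φ 0, mem_range_self 0⟩
  have hsub := flat_subset hA h2
  rw [hA1'] at hsub
  have hnot : r t ∉ Side (g₁ • range φ) x₁ := by
    intro hcon
    rw [← hA1'] at hcon
    have h3 := h1 hcon
    rw [hA0'] at h3
    exact side_subset h3 (hr t ht)
  exact sep_infDist hnot hsub hne

end Pool.Agent.H75.SF
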