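import Pool.Agent.H75.SF.Cross
import Pool.Agent.H75.SF.NC
import Pool.Agent.H75.SF.BddRay
import Pool.Agent.H75.SF.ChainDefs
import Pool.Agent.H75.SF.Chain1
import Pool.Agent.H75.SF.Chain2

/-!
# SF-18: the chain

`(F, A)` a wall, `F = range φ`, `dim V ≥ 2`.  `hfar`: there are strong poles: for `i : Bool` an orthogonal ray `ρ i` of `(A i)ᶜ` and `c > 0`, `T > 0` such
that lines parallel to lines of `F` have distance `≥ c * t` from `ρ i t` for `t ≥ T` (`parallel_far`).  `hkill`: the conclusion of `kill` for `S = F`.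

* `no_common_line`: let `t ≥ T`, `dist (g • ρ i t) (g' • φ p) < c * t`.  Then `g • F` and `g' • F` have no common line: let `ℓ` be one.  By
  `line_in_flat` for the isometry `fun u => g' • φ u`, `ℓ s = g' • φ (z + s • w)`, and for `fun u => g • φ u`: `ℓ s = g • φ (z' + s • w')`.  The line
  `ℓ' s = g⁻¹ • g' • φ (p + s • w)` is at bounded distance (`dist_flat`) from `g⁻¹ • ℓ s = φ (z' + s • w')`, so asymptotic to `dir φ w'` and, reversed, to
  `dir φ (-w')`.  So `c * t ≤ dist (ρ i t) (ℓ' 0) = dist (g • ρ i t) (g' • φ p)`, contradiction.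
* `chain_step`: state `(g, i)`, unit vector `v`, `g₀ : G`.  Let `t = max T (R₁ / c) + R₁ + 1`... any `t ≥ T` with `R₁ < c * t`, `R₁ < t`; `y = g • ρ i t`.
  `exists_ray_from`: a ray `r` from `y` asymptotic to `fun s => g₀ • φ (s • v)`.  `hkill` for `r`: `g'` with `infDist y (g' • F) ≤ R₁` and no ray `r'`
  from `y` with `dist (r N) (r' N) ≤ ε` is `Bdd` to `g' • F`.  Let `q ∈ g' • F` be a nearest point, `q = g' • φ p`, `dist y q ≤ R₁ < c * t`.
  So `no_common_line` applies.  `infDist (ρ i t) (A i)ᶜ = t > R₁ ≥ dist (ρ i t) (g⁻¹ • q)`, so `g⁻¹ • q ∈ A i`, `q ∈ g • A i`.  `nested` for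
  `fun u => g • φ u`, `fun u => g' • φ u` (with `Wall.smul`; `range (fun u => g • φ u) = g • range φ`) gives `g' • F ⊆ g • F ∪ g • A i` and `i'` with `g' • A i' ⊆ g • A i`.
  Let `w` be a unit vector with `dist v w ≤ ε / N` and suppose `Bdd (fun s => g₀ • φ (s • w)) (g' • F)`. Let `r'` be the ray from `y` asymptotic to
  it; `dist_le_of_dir` (for the isometry `fun u => g₀ • φ u`): `dist (r N) (r' N) ≤ N * ‖v - w‖ ≤ ε`; `Bdd.asym`: `Bdd r' (g' • F)`, contradiction.
* `sep_state`: `g₁ • A i₁ ⊆ g₀ • A i₀`, `g₂ • F ⊆ g₁ • F ∪ g₁ • A i₁`.  Then `Bdd (fun s => g₀ • φ (s • w)) (g₂ • F)` implies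
  `Bdd (fun s => g₀ • φ (s • w)) (g₁ • F)`: points `x ∈ g₀ • F` are not in `g₀ • A i₀`, so not in `g₁ • A i₁`: `sep_infDist`.
* `chain_full`: cover the compact unit sphere by finitely many balls of radius `η = ε / N` around unit vectors `v ∈ s` (`Finset`; `finite_cover_balls_of_compact`).  By
  induction on the finset: for every finset `s` of unit vectors there is `(g', i')` with `g' • A i' ⊆ g₀ • A i₀` and `¬ Bdd (fun t => g₀ • φ (t • w)) (g' • F)`
  for all unit `w` with `dist v w ≤ η` for some `v ∈ s`: for the step from `(g₁, i₁)` apply `chain_step` to get `(g₂, i₂)`; the old directions stay killed by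
  `sep_state`.  (To have `g' • F ⊆ g₀ • F ∪ g₀ • A i₀` too note `F ⊆ closure (A i')` and `closure (A i₀) ⊆ F ∪ A i₀`.)
-/

open Set Filter Topology Metric
open Pool.Agent.H29 Pool.Agent.H29.RR
open scoped Pointwise

set_option linter.unusedSectionVars false

namespace Pool.Agent.H75.SF

variable {X : Type*} [MetricSpace X] [IsCAT0 X] [ProperSpace X]
variable {G : Type*} [Group G] [MulAction G X] [IsIsometricSMul G X]
variable {V : Type*} [NormedAddCommGroup V] [InnerProductSpace ℝ V] [FiniteDimensional ℝ V]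
variable {φ : V → X} {A : Bool → Set X}

private lemma chain3_range (g : G) (φ : V → X) :
    range (fun u => g • φ u) = g • range φ := by
  ext x
  simp only [mem_range, mem_smul_set]
  constructor
  · rintro ⟨u, rfl⟩
    exact ⟨φ u, ⟨u, rfl⟩, rfl⟩
  · rintro ⟨y, ⟨u, rfl⟩, rfl⟩
    exact ⟨u, rfl⟩

private lemma chain3_isometry (hφ : Isometry φ) (g : G) : Isometry (fun u => g • φ u) :=
  (isometry_smul X g).comp hφ

private lemma chain3_ray (hφ : Isometry φ) (g : G) {v : V} (hv : ‖v‖ = 1) :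
    IsRay (fun s : ℝ => g • φ (s • v)) := by
  intro s t _ _
  rw [(chain3_isometry hφ g).dist_eq, dist_eq_norm, ← sub_smul, norm_smul, hv, mul_one,
    Real.norm_eq_abs]

lemma chain_step (hdim : 2 ≤ Module.finrank ℝ V) (hφ : Isometry φ) (hA : Wall (range φ) A)
    {ρ : Bool → ℝ → X} {c T : ℝ} (hP : Poles φ A ρ c T) {R₁ N ε : ℝ}
    (hK : Kills G (range φ) R₁ N ε) (g₀ g : G) (i : Bool) {v : V} (hv : ‖v‖ = 1) :
    ∃ (g' : G) (i' : Bool), g' • A i' ⊆ g • A i ∧
      ∀ w : V, ‖w‖ = 1 → dist v w ≤ ε / N →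
        ¬ Bdd (fun s : ℝ => g₀ • φ (s • w)) (g' • range φ) := by
  obtain ⟨hR, hN, hε, hkill⟩ := hK
  have hc := hP.cpos
  have hT := hP.Tpos
  set t : ℝ := max T (R₁ / c) + R₁ + 1 with ht
  have ht1 : T ≤ t := by
    have := le_max_left T (R₁ / c)
    linarith
  have ht2 : R₁ < t := by
    have := le_max_left T (R₁ / c)
    linarith
  have ht3 : R₁ < c * t := by
    have h1 : R₁ / c < t := by
      have := le_max_right T (R₁ / c)
      linarith
    rw [div_lt_iff₀ hc] at h1
    linarith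
  obtain ⟨r, hr, hr0, hra⟩ := exists_ray_from (chain3_ray hφ g₀ hv) (g • ρ i t)
  obtain ⟨g', hg1, hg2⟩ := hkill r hr
  rw [hr0] at hg1
  have hcl' : IsClosed (g' • range φ) := (hA.smul g').closed
  have hne' : (g' • range φ).Nonempty := ⟨g' • φ 0, smul_mem_smul_set (mem_range_self 0)⟩
  obtain ⟨q, hq, hqd⟩ := hcl'.exists_infDist_eq_dist hne' (g • ρ i t)
  obtain ⟨y, ⟨p, rfl⟩, rfl⟩ := hq
  have hd : dist (g • ρ i t) (g' • φ p) ≤ R₁ := by
    have : dist (g • ρ i t) (g' • φ p) = infDist (g • ρ i t) (g' • range φ) := hqd.symm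
    rw [this]
    exact hg1
  have hno := no_common_line hφ hP ht1 i g g' p (hd.trans_lt ht3)
  have hqA : g' • φ p ∈ g • A i := by
    rw [mem_smul_set_iff_inv_smul_mem]
    by_contra hcon
    have h1 : infDist (ρ i t) (A i)ᶜ ≤ dist (ρ i t) (g⁻¹ • g' • φ p) := infDist_le_dist_of_mem hcon
    rw [(hP.orth i).infDist t (by linarith)] at h1
    have h2 : dist (ρ i t) (g⁻¹ • g' • φ p) = dist (g • ρ i t) (g' • φ p) := by
      rw [← dist_smul g, smul_inv_smul]
    rw [h2] at h1
    linarith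
  have hW : Wall (range fun u => g • φ u) (fun i => g • A i) := by
    rw [chain3_range]
    exact hA.smul g
  have hW' : Wall (range fun u => g' • φ u) (fun i => g' • A i) := by
    rw [chain3_range]
    exact hA.smul g'
  obtain ⟨-, i', hi'⟩ := nested hdim (chain3_isometry hφ g) (chain3_isometry hφ g') hW hW' (by
    rw [chain3_range, chain3_range]
    exact hno) (i := i) ⟨g' • φ p, ⟨p, rfl⟩, hqA⟩
  refine ⟨g', i', hi', fun w hw hvw hb => ?_⟩
  obtain ⟨r', hr', hr0', hra'⟩ := exists_ray_from (chain3_ray hφ g₀ hw) (g • ρ i t)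
  have h1 : dist (r N) (r' N) ≤ N * ‖v - w‖ :=
    dist_le_of_dir (chain3_isometry hφ g₀) hr hr' (by rw [hr0, hr0']) hra.symm hra'.symm hN.le
  have h2 : dist (r N) (r' N) ≤ ε := by
    rw [dist_eq_norm, le_div_iff₀ hN] at hvw
    linarith
  exact hg2 r' hr' (by rw [hr0, hr0']) h2 (hb.asym hra')

end Pool.Agent.H75.SF
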