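import Pool.Agent.H75.SF.Cross
import Pool.Agent.H75.SF.NC
import Pool.Agent.H75.SF.BddRay
import Pool.Agent.H75.SF.ChainDefs
import Pool.Agent.H75.SF.Chain1
import Pool.Agent.H75.SF.Chain2
import Pool.Agent.H75.SF.Chain3

/-!
# SF-18: the chain

`(F, A)` a wall, `F = range φ`, `dim V ≥ 2`.  `hfar`: there are strong poles: for `i : Bool` an orthogonal ray `ρ i` of `(A i)ᶜ` and `c > 0`, `T > 0` such
that lines parallel to lines of `F` have distance `≥ c * t` from `ρ i t` for `t ≥ T` (`parallel_far`).  `hkill`: the conclusion of `kill` for `S = F`.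

* `no_common_line`: let `t ≥ T`, `dist (g • ρ i t) (g' • φ p) < c * t`.  Then `g • F` and `g' • F` have no common line: let `ℓ` be one.  By
  `line_in_flat` for the isometry `fun u => g' • φ u`, `ℓ s = g' • φ (z + s • w)`, and for `fun u => g • φ u`: `ℓ s = g • φ (z' + s • w')`.  The line
  `ℓ' s = g⁻¹ • g' • φ (p + s • w)` is at bounded distance (`dist_flat`) from `g⁻¹ • ℓ s = φ (z' + s • w')`, so asymptotic to `dir φ w'` and, reversed, to
  `dir φ (-w')`.  So `c * t ≤ dist (ρ i t) (ℓ' 0) = dist (g • ρ i t) (g' • φ p)`, contradiction.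
* `chain_step`: state `(g, i)`, unit vector `v`, `g₀ : G`.  Let `t = max T (R₁ / c) + R₁ + 1`... any `t ≥ T` with `R₁ < c * t`, `R₁ < t`; `y = g • ρ i t`.
  `exists_ray_from`: a ray `r` from `y` asymptotic to `fun s => g₀ • φ (s • v)`.  `hkill` for `r`: `g'` with `infDist y (g' • F) ≤ R₁` and no ray `r'`
  from `y` with `dist (r N) (r' N) ≤ ε` is `Bdd` to `g' • F`.  Let `q ∈ g' • F` be a nearest point, `q = g' • φ p`, `dist y q ≤ R₁ < c * t`.
  So `no_common_line` applies.  `infDist (ρ i t) (A i)ᶜ = t > R₁ ≥ dist (ρ i t) (g⁻¹ • q)`, so `g⁻¹ • q ∈ A i`, `q ∈ g • A i`.  `nested` for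
  `fun u => g • φ u`, `fun u => g' • φ u` (with `Wall.smul`; `range (fun u => g • φ u) = g • range φ`) gives `g' • F ⊆ g • F ∪ g • A i` and `i'` with `g' • A i' ⊆ g • A i`.
  Let `w` be a unit vector with `dist v w ≤ ε / N` and suppose `Bdd (fun s => g₀ • φ (s • w)) (g' • F)`. Let `r'` be the ray from `y` asymptotic to
  it; `dist_le_of_dir` (for the isometry `fun u => g₀ • φ u`): `dist (r N) (r' N) ≤ N * ‖v - w‖ ≤ ε`; `Bdd.asym`: `Bdd r' (g' • F)`, contradiction.
* `sep_state`: `g₁ • A i₁ ⊆ g₀ • A i₀`, `g₂ • F ⊆ g₁ • F ∪ g₁ • A i₁`.  Then `Bdd (fun s => g₀ • φ (s • w)) (g₂ • F)` implies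
  `Bdd (fun s => g₀ • φ (s • w)) (g₁ • F)`: points `x ∈ g₀ • F` are not in `g₀ • A i₀`, so not in `g₁ • A i₁`: `sep_infDist`.
* `chain_full`: cover the compact unit sphere by finitely many balls of radius `η = ε / N` around unit vectors `v ∈ s` (`Finset`; `finite_cover_balls_of_compact`).  By
  induction on the finset: for every finset `s` of unit vectors there is `(g', i')` with `g' • A i' ⊆ g₀ • A i₀` and `¬ Bdd (fun t => g₀ • φ (t • w)) (g' • F)`
  for all unit `w` with `dist v w ≤ η` for some `v ∈ s`: for the step from `(g₁, i₁)` apply `chain_step` to get `(g₂, i₂)`; the old directions stay killed by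
  `sep_state`.  (To have `g' • F ⊆ g₀ • F ∪ g₀ • A i₀` too note `F ⊆ closure (A i')` and `closure (A i₀) ⊆ F ∪ A i₀`.)
-/

open Set Filter Topology Metric
open Pool.Agent.H29 Pool.Agent.H29.RR
open scoped Pointwise

set_option linter.unusedSectionVars false

namespace Pool.Agent.H75.SF

variable {X : Type*} [MetricSpace X] [IsCAT0 X] [ProperSpace X]
variable {G : Type*} [Group G] [MulAction G X] [IsIsometricSMul G X]
variable {V : Type*} [NormedAddCommGroup V] [InnerProductSpace ℝ V] [FiniteDimensional ℝ V]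
variable {φ : V → X} {A : Bool → Set X}

theorem chain_full (hdim : 2 ≤ Module.finrank ℝ V) (hφ : Isometry φ) (hA : Wall (range φ) A)
    {ρ : Bool → ℝ → X} {c T : ℝ} (hP : Poles φ A ρ c T) {R₁ N ε : ℝ}
    (hK : Kills G (range φ) R₁ N ε) (g₀ : G) (i₀ : Bool) :
    ∃ (g' : G) (i' : Bool), g' • A i' ⊆ g₀ • A i₀ ∧
      ∀ w : V, ‖w‖ = 1 → ¬ Bdd (fun s : ℝ => g₀ • φ (s • w)) (g' • range φ) := by
  have hη : 0 < ε / N := div_pos hK.2.2.1 hK.2.1
  have key : ∀ S : Finset V, (∀ v ∈ S, ‖v‖ = 1) → ∃ (g' : G) (i' : Bool),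
      g' • A i' ⊆ g₀ • A i₀ ∧ ∀ w : V, ‖w‖ = 1 → (∃ v ∈ S, dist v w ≤ ε / N) →
        ¬ Bdd (fun s : ℝ => g₀ • φ (s • w)) (g' • range φ) := by
    classical
    intro S
    induction S using Finset.induction_on with
    | empty =>
      intro _
      exact ⟨g₀, i₀, Subset.rfl, by simp⟩
    | insert v S _ ih =>
      intro hS
      obtain ⟨g₁, i₁, h1, h2⟩ := ih (fun u hu => hS u (Finset.mem_insert_of_mem hu))
      obtain ⟨g₂, i₂, h3, h4⟩ := chain_step hdim hφ hA hP hK g₀ g₁ i₁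
        (hS v (Finset.mem_insert_self v S))
      refine ⟨g₂, i₂, h3.trans h1, ?_⟩
      rintro w hw ⟨u, hu, huw⟩ hB
      rcases Finset.mem_insert.mp hu with rfl | hu
      · exact h4 w hw huw hB
      · exact h2 w hw ⟨u, hu, huw⟩ (sep_state hφ hA h1 h3
          (fun t _ => smul_mem_smul_set (mem_range_self _)) hB)
  obtain ⟨t, ht, hfin, hcov⟩ := (isCompact_sphere (0 : V) 1).finite_cover_balls hη
  obtain ⟨g', i', h1, h2⟩ := key hfin.toFinset (by
    intro v hv
    have := ht (hfin.mem_toFinset.mp hv)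
    simpa using this)
  refine ⟨g', i', h1, fun w hw => h2 w hw ?_⟩
  have hw' : w ∈ sphere (0 : V) 1 := by simpa using hw
  have := hcov hw'
  simp only [mem_iUnion, mem_ball] at this
  obtain ⟨v, hv, hvw⟩ := this
  refine ⟨v, hfin.mem_toFinset.mpr hv, ?_⟩
  rw [dist_comm]
  exact hvw.le

end Pool.Agent.H75.SF
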