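import Pool.Agent.H75.SF.Wall
import Pool.Agent.H75.SF.Cross1

/-!
# SF-17: flats without common line do not cross

`(F, A)`, `(F', A')` walls, `F = range φ`, `F' = range ψ` flats of dimension at least two, without common line.

* `not_meets_both`: `F'` does not meet both `A i` and the complement of `F ∪ A i`.  `K₁ = ψ ⁻¹' (F ∪ A i)`, `K₂ = ψ ⁻¹' (A i)ᶜ` are closed (`isClosed_union_side`,
  `isOpen_side`) and convex (`gconvex_union_side`, `gconvex_compl_side`, `flat_pt`), cover `V`, and are proper. `cover_line` gives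
  `z, w` with `ψ (z + t • w) ∈ (F ∪ A i) \ A i = F` for all `t` (`A i ∩ F = ∅`): a common line `ℓ t = ψ (z + t • w)` (an isometry, `‖w‖ = 1`).
* `nested`: `F'` meets `A i`.  So `F' ⊆ F ∪ A i` (otherwise `F'` meets the complement of `F ∪ A i`).  `F` does not meet both `A' false` and `A' true`: `F`
  would meet `A' false` and the complement of `F' ∪ A' false` (as `A' true` is disjoint from both).  So there is `i'` with `F ∩ A' i' = ∅`.
  `A' i'` is path connected inside `Fᶜ` (any two points of `A' i' = Side F' x'` are joined by a path in `A' i'`: a path in `F'ᶜ` starting in the path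
  component `A' i'` stays in it; so in `Fᶜ` as `F ∩ A' i' = ∅`); helper `joinedIn_side`.  Take `z ∈ F' ∩ A i`; `A i` is open and
  `z ∈ closure (A' i')`, so there is `y ∈ A i ∩ A' i'`.  Every point of `A' i'` is joined to `y` in `Fᶜ`, hence lies in `A i`.
-/

open Set Filter Topology Metric
open Pool.Agent.H29 Pool.Agent.H29.RR
open scoped Pointwise

set_option linter.unusedSectionVars false

namespace Pool.Agent.H75.SF

variable {X : Type*} [MetricSpace X] [IsCAT0 X] [ProperSpace X]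
variable {V : Type*} [NormedAddCommGroup V] [InnerProductSpace ℝ V] {φ ψ : V → X}

theorem nested [FiniteDimensional ℝ V] (hdim : 2 ≤ Module.finrank ℝ V)
    (hφ : Isometry φ) (hψ : Isometry ψ) {A A' : Bool → Set X} (hA : Wall (range φ) A)
    (hA' : Wall (range ψ) A')
    (hno : ¬ ∃ ℓ : ℝ → X, Isometry ℓ ∧ (∀ s, ℓ s ∈ range φ) ∧ ∀ s, ℓ s ∈ range ψ) {i : Bool}
    (h1 : ∃ z ∈ range ψ, z ∈ A i) :
    range ψ ⊆ range φ ∪ A i ∧ ∃ i', A' i' ⊆ A i := by
  have hsub : range ψ ⊆ range φ ∪ A i := not_meets_both hdim hφ hψ hA hno h1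
  refine ⟨hsub, ?_⟩
  have hno' : ¬ ∃ ℓ : ℝ → X, Isometry ℓ ∧ (∀ s, ℓ s ∈ range ψ) ∧ ∀ s, ℓ s ∈ range φ := by
    rintro ⟨ℓ, h2, h3, h4⟩
    exact hno ⟨ℓ, h2, h4, h3⟩
  have hdis : ∃ i', ∀ y ∈ A' i', y ∉ range φ := by
    by_contra hc
    push Not at hc
    obtain ⟨y, hy, hyF⟩ := hc false
    obtain ⟨z, hz, hzF⟩ := hc true
    have h2 := not_meets_both hdim hψ hφ hA' hno' (i := false) ⟨y, hyF, hy⟩
    rcases h2 hzF with h3 | h3
    · obtain ⟨x, hx, hAx⟩ := hA'.side true
      rw [hAx] at hz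
      exact side_subset hz h3
    · exact Set.disjoint_left.mp hA'.disj h3 hz
  obtain ⟨i', hi'⟩ := hdis
  refine ⟨i', ?_⟩
  obtain ⟨x', hx', hAx'⟩ := hA'.side i'
  obtain ⟨x, hx, hAx⟩ := hA.side i
  obtain ⟨z, hzF, hzA⟩ := h1
  have hop : IsOpen (A i) := by
    rw [hAx]
    exact isOpen_side hA.closed x
  have hcl : z ∈ closure (A' i') := hA'.adj i' hzF
  obtain ⟨y, hyA, hyA'⟩ := mem_closure_iff.mp hcl (A i) hop hzA
  intro w hw
  have hj : JoinedIn (Side (range ψ) x') y w := by
    apply joinedIn_side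
    · rw [← hAx']
      exact hyA'
    · rw [← hAx']
      exact hw
  have hj2 : JoinedIn (range φ)ᶜ y w := by
    refine hj.mono ?_
    intro v hv
    rw [← hAx'] at hv
    exact hi' v hv
  rw [hAx] at hyA ⊢
  exact (mem_side.mp hyA).trans hj2

end Pool.Agent.H75.SF
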