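import Pool.Agent.H29.RR.Ray
import Pool.Agent.H29.RR.Geo2B
import Pool.Agent.H29.Axis

/-!
# Rank rigidity with a separating flat: definitions

`X` is a proper CAT(0) space, `φ : V → X` an isometric embedding of a finite dimensional inner
product space, `F = range φ` a flat.  `C ⊆ X` will be the complement of a path component `A` of
`Fᶜ`; it is a closed convex set with `F ⊆ C` and `C \ F` open (`FSide φ C`).
-/

open Set Filter Topology Metric
open Pool.Agent.H29 Pool.Agent.H29.RR
open scoped Pointwise

set_option linter.unusedSectionVars false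

namespace Pool.Agent.H75.SF

section

variable {X : Type*} [MetricSpace X]

/-- Busemann function of a ray -/
noncomputable def busR (ρ : ℝ → X) (x : X) : ℝ := bus (fun n : ℕ => ρ n) 1 x

/-- the ray `r` stays at bounded distance from the set `S` -/
def Bdd (r : ℝ → X) (S : Set X) : Prop := ∃ M : ℝ, ∀ t, 0 ≤ t → infDist (r t) S ≤ M

/-- rays orthogonal to `C` -/
structure Orth (C : Set X) (ρ : ℝ → X) : Prop where
  ray : IsRay ρ
  infDist : ∀ t, 0 ≤ t → infDist (ρ t) C = t

variable [IsCAT0 X]

/-- `C` is a closed convex set containing the flat `range φ`, whose boundary lies in the flat -/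
structure FSide {V : Type*} (φ : V → X) (C : Set X) : Prop where
  closed : IsClosed C
  convex : GConvex C
  sub : range φ ⊆ C
  isOpen : IsOpen (C \ range φ)

end

section

variable {X : Type*} [MetricSpace X] {V : Type*} [NormedAddCommGroup V] [InnerProductSpace ℝ V]

/-- the ray of the flat with direction `v` (unit speed if `‖v‖ = 1`) -/
def dir (φ : V → X) (v : V) : ℝ → X := fun t => φ (t • v)

/-- the minimum set of the Busemann function of the orthogonal ray `ρ` (its minimum on `C` is `0`) -/
def Kset (φ : V → X) (ρ : ℝ → X) : Set V := {u | busR ρ (φ u) ≤ 0}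

/-- the unit recession directions of `Kset φ ρ` -/
def Qset (φ : V → X) (ρ : ℝ → X) : Set V :=
  {v | ‖v‖ = 1 ∧ ∀ u ∈ Kset φ ρ, ∀ t : ℝ, 0 ≤ t → u + t • v ∈ Kset φ ρ}

end

end Pool.Agent.H75.SF
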