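import Pool.Agent.H75.SF.Wall

/-!
# SF-20: the axis of a translation of half-spaces

`(D, A)` a wall (a closed convex set with two adjacent sides), `g • A i ⊆ A i`, no ray is at bounded distance from both `D` and `g • D`, and some ray is at
bounded distance from `D`.
* `Wall.inf_order`: `A i ≠ g • A i`: for a wall `closure (A i) \ A i = D` (`adj`, `isClosed_union_side`, `A i` open and disjoint from `D`), so `g • A i = A i`
  would give `g • D = D`.  So `g • A i ⊂ A i`, hence `g ^ n • A i ⊆ g • A i ⊂ A i` for `n ≥ 1`: `g ^ n ≠ 1`.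
* `exists_axis` gives the line `c` with `g • c t = c (t + l)`, `l > 0`.
* `tendsto_infDist_axis`: `f t = infDist (c t) D` is convex along `c` (`GConvexFun.comp_line`).  If it does not tend to `∞` at `+∞` it is bounded on `[0,∞)`
  (convexity: if `f t > f 0` for some `t > 0` then `f` grows at least linearly; see `ConvR`), i.e. `Bdd c D`; then also `Bdd c (g • D)` as
  `infDist (c t) (g • D) = infDist (g⁻¹ • c t) D = infDist (c (t - l)) D` (`infDist_smul_smul`), contradiction.  Same for `t ↦ c (-t)`.
* `axis_fwd`: take `x ∈ A i`; `g ^ n • x ∈ A i` for all `n`, `dist (g ^ n • x) (c (n * l)) = dist x (c 0) =: d`.  For `t` large, `n = ⌊t / l⌋`: `dist (c t) (g ^ n • x) ≤ d + l`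
  and `infDist (c t) D > d + l`, so the segment from `g ^ n • x` to `c t` avoids `D` (`joinedIn_of_pt`), and `c t ∈ A i`.
* `axis_bwd`: take `x ∈ A (!i)`, so `x ∉ D ∪ A i`. `D ∪ A i = closure (A i)` is mapped into itself by `g`; so `g⁻¹ ^ n • x ∉ D ∪ A i`.  For `t → -∞` the point
  `c t` is joined in `Dᶜ` to such a point, so it is not in `D ∪ A i`.
-/

open Set Filter Topology Metric
open Pool.Agent.H29 Pool.Agent.H29.RR
open scoped Pointwise

set_option linter.unusedSectionVars false

namespace Pool.Agent.H75.SF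

variable {X : Type*} [MetricSpace X] [IsCAT0 X] [ProperSpace X]
variable {G : Type*} [Group G] [MulAction G X] [IsIsometricSMul G X]
variable {D : Set X} {A : Bool → Set X}

lemma Wall.closure_eq (h : Wall D A) (i : Bool) : closure (A i) = D ∪ A i := by
  obtain ⟨x, _, hA⟩ := h.side i
  apply Subset.antisymm
  · have hcl : IsClosed (D ∪ A i) := by
      rw [hA]
      exact isClosed_union_side h.closed x
    exact closure_minimal subset_union_right hcl
  · exact union_subset (h.adj i) subset_closure

private lemma ends1_pow_smul {g : G} {B : Set X} (hg : g • B ⊆ B) :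
    ∀ n : ℕ, g ^ n • B ⊆ B := by
  intro n
  induction n with
  | zero => simp
  | succ n ih =>
    rw [pow_succ', mul_smul]
    exact (smul_set_mono ih).trans hg

lemma Wall.inf_order (h : Wall D A) {i : Bool} {g : G} (hg : g • A i ⊆ A i)
    (hno : ∀ r : ℝ → X, IsRay r → Bdd r D → ¬ Bdd r (g • D))
    (hray : ∃ r : ℝ → X, IsRay r ∧ Bdd r D) : ∀ n : ℕ, 0 < n → g ^ n ≠ 1 := by
  have hdis : Disjoint D (A i) := by
    obtain ⟨x, _, hA⟩ := h.side i
    rw [hA, Set.disjoint_left]
    intro z hz hz'
    exact side_subset hz' hz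
  have hdiff : ∀ B : Set X, Disjoint B (A i) → (B ∪ A i) \ A i = B := by
    intro B hB
    rw [union_sdiff_right]
    exact hB.sdiff_eq_left
  have hD : (D ∪ A i) \ A i = D := hdiff D hdis
  have hne : g • A i ≠ A i := by
    intro he
    have h1 : g • (D ∪ A i) = D ∪ A i := by
      rw [← h.closure_eq i, ← closure_smul, he]
    have h2 : g • D = D := by
      rw [smul_set_union, he] at h1
      have hdis' : Disjoint (g • D) (A i) := by
        rw [← he]
        exact (Set.disjoint_smul_set).2 hdis
      rw [← hdiff (g • D) hdis', h1, hD]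
    obtain ⟨r, hr, hrD⟩ := hray
    exact hno r hr hrD (by rw [h2]; exact hrD)
  intro n hn hgn
  apply hne
  apply Subset.antisymm hg
  obtain ⟨m, rfl⟩ : ∃ m, n = m + 1 := ⟨n - 1, by omega⟩
  have h3 : g ^ (m + 1) • A i = A i := by rw [hgn, one_smul]
  rw [pow_succ', mul_smul] at h3
  calc A i = g • g ^ m • A i := h3.symm
    _ ⊆ g • A i := smul_set_mono (ends1_pow_smul hg m)

end Pool.Agent.H75.SF
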