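import Pool.Agent.H75.SF.Wall
import Pool.Agent.H75.SF.Ends1

/-!
# SF-20: the axis of a translation of half-spaces

`(D, A)` a wall (a closed convex set with two adjacent sides), `g • A i ⊆ A i`, no ray is at bounded distance from both `D` and `g • D`, and some ray is at
bounded distance from `D`.
* `Wall.inf_order`: `A i ≠ g • A i`: for a wall `closure (A i) \ A i = D` (`adj`, `isClosed_union_side`, `A i` open and disjoint from `D`), so `g • A i = A i`
  would give `g • D = D`.  So `g • A i ⊂ A i`, hence `g ^ n • A i ⊆ g • A i ⊂ A i` for `n ≥ 1`: `g ^ n ≠ 1`.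
* `exists_axis` gives the line `c` with `g • c t = c (t + l)`, `l > 0`.
* `tendsto_infDist_axis`: `f t = infDist (c t) D` is convex along `c` (`GConvexFun.comp_line`).  If it does not tend to `∞` at `+∞` it is bounded on `[0,∞)`
  (convexity: if `f t > f 0` for some `t > 0` then `f` grows at least linearly; see `ConvR`), i.e. `Bdd c D`; then also `Bdd c (g • D)` as
  `infDist (c t) (g • D) = infDist (g⁻¹ • c t) D = infDist (c (t - l)) D` (`infDist_smul_smul`), contradiction.  Same for `t ↦ c (-t)`.
* `axis_fwd`: take `x ∈ A i`; `g ^ n • x ∈ A i` for all `n`, `dist (g ^ n • x) (c (n * l)) = dist x (c 0) =: d`.  For `t` large, `n = ⌊t / l⌋`: `dist (c t) (g ^ n • x) ≤ d + l`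
  and `infDist (c t) D > d + l`, so the segment from `g ^ n • x` to `c t` avoids `D` (`joinedIn_of_pt`), and `c t ∈ A i`.
* `axis_bwd`: take `x ∈ A (!i)`, so `x ∉ D ∪ A i`. `D ∪ A i = closure (A i)` is mapped into itself by `g`; so `g⁻¹ ^ n • x ∉ D ∪ A i`.  For `t → -∞` the point
  `c t` is joined in `Dᶜ` to such a point, so it is not in `D ∪ A i`.
-/

open Set Filter Topology Metric
open Pool.Agent.H29 Pool.Agent.H29.RR
open scoped Pointwise

set_option linter.unusedSectionVars false

namespace Pool.Agent.H75.SF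

variable {X : Type*} [MetricSpace X] [IsCAT0 X] [ProperSpace X]
variable {G : Type*} [Group G] [MulAction G X] [IsIsometricSMul G X]
variable {D : Set X} {A : Bool → Set X}

private lemma ends2_conv {f : ℝ → ℝ} (hf : ConvR f) :
    Tendsto f atTop atTop ∨ ∀ t, 0 ≤ t → f t ≤ f 0 := by
  by_cases h : ∀ t, 0 ≤ t → f t ≤ f 0
  · exact Or.inr h
  left
  push Not at h
  obtain ⟨t, ht0, ht⟩ := h
  have htpos : 0 < t := by
    rcases ht0.lt_or_eq with h1 | h1
    · exact h1
    · rw [← h1] at ht
      exact absurd ht (lt_irrefl _)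
  have hκ : 0 < (f t - f 0) / t := div_pos (by linarith) htpos
  have h1 : Tendsto (fun s : ℝ => f 0 + s * ((f t - f 0) / t)) atTop atTop :=
    tendsto_atTop_add_const_left _ _ (tendsto_id.atTop_mul_const hκ)
  refine tendsto_atTop_mono' _ ?_ h1
  filter_upwards [eventually_ge_atTop t] with s hs
  have hspos : 0 < s := htpos.trans_le hs
  have h2 := hf 0 s (t / s) ⟨by positivity, by rw [div_le_one hspos]; exact hs⟩
  rw [show (1 - t / s) * 0 + t / s * s = t by field_simp; ring] at h2
  have h3 : s * f t ≤ (s - t) * f 0 + t * f s := by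
    have h4 := mul_le_mul_of_nonneg_left h2 hspos.le
    calc s * f t ≤ s * ((1 - t / s) * f 0 + t / s * f s) := h4
      _ = (s - t) * f 0 + t * f s := by field_simp
  have h5 : (f 0 + s * ((f t - f 0) / t)) * t ≤ f s * t := by
    have h6 : (f 0 + s * ((f t - f 0) / t)) * t = f 0 * t + s * (f t - f 0) := by field_simp
    rw [h6]
    nlinarith
  exact le_of_mul_le_mul_right h5 htpos

private lemma ends2_half (h : Wall D A) (hne : D.Nonempty) {g : G} {c : ℝ → X}
    (hc : Isometry c) {l : ℝ} (hgc : ∀ t, g⁻¹ • c t = c (t + l))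
    (hno : ∀ r : ℝ → X, IsRay r → Bdd r D → ¬ Bdd r (g • D)) :
    Tendsto (fun t => infDist (c t) D) atTop atTop := by
  have hf := (gconvexFun_infDist h.closed hne h.convex).comp_line hc
  rcases ends2_conv hf with h1 | h1
  · exact h1
  exfalso
  have hr : IsRay c := isRay_of_isometry hc
  refine hno c hr ⟨infDist (c 0) D, h1⟩ ⟨infDist (c 0) D + |l|, fun t ht => ?_⟩
  have h2 : infDist (c t) (g • D) = infDist (c (t + l)) D := by
    rw [← hgc t, ← infDist_smul_smul g (g⁻¹ • c t) D, smul_inv_smul]
  rw [h2]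
  by_cases h3 : 0 ≤ t + l
  · have := h1 (t + l) h3
    have := abs_nonneg l
    linarith
  · have h4 : infDist (c (t + l)) D ≤ infDist (c 0) D + dist (c (t + l)) (c 0) :=
      infDist_le_infDist_add_dist
    have h5 : dist (c (t + l)) (c 0) ≤ |l| := by
      rw [hc.dist_eq, Real.dist_eq, sub_zero, abs_of_neg (by linarith)]
      have := neg_abs_le l
      linarith
    linarith

lemma tendsto_infDist_axis (h : Wall D A) (hne : D.Nonempty) {g : G} {c : ℝ → X}
    (hc : Isometry c) {l : ℝ} (hl : 0 < l) (hgc : ∀ t, g • c t = c (t + l))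
    (hno : ∀ r : ℝ → X, IsRay r → Bdd r D → ¬ Bdd r (g • D)) :
    Tendsto (fun t => infDist (c t) D) atTop atTop ∧
      Tendsto (fun t => infDist (c t) D) atBot atTop := by
  have hinv : ∀ t, g⁻¹ • c t = c (t + -l) := fun t => by
    rw [inv_smul_eq_iff, hgc]
    congr 1
    ring
  constructor
  · exact ends2_half h hne hc hinv hno
  · have h1 := ends2_half h hne (isometry_comp_neg hc) (l := l) (fun t => by
      show g⁻¹ • c (-t) = c (-(t + l))
      rw [hinv]
      congr 1
      ring) hno
    have h2 := h1.comp tendsto_neg_atBot_atTop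
    refine h2.congr fun t => ?_
    simp

end Pool.Agent.H75.SF
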