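import Pool.Agent.H75.SF.Wall
import Pool.Agent.H75.SF.Ends1
import Pool.Agent.H75.SF.Ends2

/-!
# SF-20: the axis of a translation of half-spaces

`(D, A)` a wall (a closed convex set with two adjacent sides), `g • A i ⊆ A i`, no ray is at bounded distance from both `D` and `g • D`, and some ray is at
bounded distance from `D`.
* `Wall.inf_order`: `A i ≠ g • A i`: for a wall `closure (A i) \ A i = D` (`adj`, `isClosed_union_side`, `A i` open and disjoint from `D`), so `g • A i = A i`
  would give `g • D = D`.  So `g • A i ⊂ A i`, hence `g ^ n • A i ⊆ g • A i ⊂ A i` for `n ≥ 1`: `g ^ n ≠ 1`.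
* `exists_axis` gives the line `c` with `g • c t = c (t + l)`, `l > 0`.
* `tendsto_infDist_axis`: `f t = infDist (c t) D` is convex along `c` (`GConvexFun.comp_line`).  If it does not tend to `∞` at `+∞` it is bounded on `[0,∞)`
  (convexity: if `f t > f 0` for some `t > 0` then `f` grows at least linearly; see `ConvR`), i.e. `Bdd c D`; then also `Bdd c (g • D)` as
  `infDist (c t) (g • D) = infDist (g⁻¹ • c t) D = infDist (c (t - l)) D` (`infDist_smul_smul`), contradiction.  Same for `t ↦ c (-t)`.
* `axis_fwd`: take `x ∈ A i`; `g ^ n • x ∈ A i` for all `n`, `dist (g ^ n • x) (c (n * l)) = dist x (c 0) =: d`.  For `t` large, `n = ⌊t / l⌋`: `dist (c t) (g ^ n • x) ≤ d + l`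
  and `infDist (c t) D > d + l`, so the segment from `g ^ n • x` to `c t` avoids `D` (`joinedIn_of_pt`), and `c t ∈ A i`.
* `axis_bwd`: take `x ∈ A (!i)`, so `x ∉ D ∪ A i`. `D ∪ A i = closure (A i)` is mapped into itself by `g`; so `g⁻¹ ^ n • x ∉ D ∪ A i`.  For `t → -∞` the point
  `c t` is joined in `Dᶜ` to such a point, so it is not in `D ∪ A i`.
-/

open Set Filter Topology Metric
open Pool.Agent.H29 Pool.Agent.H29.RR
open scoped Pointwise

set_option linter.unusedSectionVars false

namespace Pool.Agent.H75.SF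

variable {X : Type*} [MetricSpace X] [IsCAT0 X] [ProperSpace X]
variable {G : Type*} [Group G] [MulAction G X] [IsIsometricSMul G X]
variable {D : Set X} {A : Bool → Set X}

private lemma ends3_pow_smul {g : G} {B : Set X} (hg : g • B ⊆ B) :
    ∀ n : ℕ, g ^ n • B ⊆ B := by
  intro n
  induction n with
  | zero => simp
  | succ n ih =>
    rw [pow_succ', mul_smul]
    exact (smul_set_mono ih).trans hg

private lemma ends3_pow_axis {g : G} {c : ℝ → X} {l : ℝ} (hgc : ∀ t, g • c t = c (t + l)) :
    ∀ (n : ℕ) (t : ℝ), g ^ n • c t = c (t + n * l) := by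
  intro n
  induction n with
  | zero => intro t; simp
  | succ n ih =>
    intro t
    rw [pow_succ, mul_smul, hgc, ih]
    congr 1
    push_cast
    ring

private lemma ends3_joined {u v : X} (h : dist u v < infDist v D) : JoinedIn Dᶜ u v := by
  apply joinedIn_of_pt
  intro t ht hcon
  have h1 : infDist v D ≤ dist v (pt u v t) := infDist_le_dist_of_mem hcon
  rw [dist_comm, dist_pt_right u v ht] at h1
  have h2 : (1 - t) * dist u v ≤ 1 * dist u v :=
    mul_le_mul_of_nonneg_right (by linarith [ht.1]) dist_nonneg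
  linarith

lemma axis_fwd (h : Wall D A) {i : Bool} {g : G} (hg : g • A i ⊆ A i) {c : ℝ → X}
    (hc : Isometry c) {l : ℝ} (hl : 0 < l) (hgc : ∀ t, g • c t = c (t + l))
    (ht : Tendsto (fun t => infDist (c t) D) atTop atTop) : ∀ᶠ t in atTop, c t ∈ A i := by
  obtain ⟨x, hx, hA⟩ := h.side i
  have hxA : x ∈ A i := by
    rw [hA]
    exact mem_side_self hx
  filter_upwards [ht.eventually_gt_atTop (dist x (c 0) + l), eventually_ge_atTop 0] with t h1 h2
  set n : ℕ := ⌊t / l⌋₊ with hn
  have h3 : (n : ℝ) * l ≤ t := by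
    have := Nat.floor_le (div_nonneg h2 hl.le)
    rwa [← hn, le_div_iff₀ hl] at this
  have h4 : t < (n + 1 : ℝ) * l := by
    have := Nat.lt_floor_add_one (t / l)
    rwa [← hn, div_lt_iff₀ hl] at this
  have h5 : g ^ n • x ∈ A i := ends3_pow_smul hg n (smul_mem_smul_set hxA)
  have h6 : dist (g ^ n • x) (c (n * l)) = dist x (c 0) := by
    have := ends3_pow_axis hgc n 0
    rw [zero_add] at this
    rw [← this, dist_smul]
  have h7 : dist (c (n * l)) (c t) ≤ l := by
    rw [hc.dist_eq, Real.dist_eq, abs_le]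
    constructor <;> linarith
  have h8 : JoinedIn Dᶜ (g ^ n • x) (c t) := by
    apply ends3_joined
    have := dist_triangle (g ^ n • x) (c (n * l)) (c t)
    linarith
  rw [hA] at h5 ⊢
  exact (mem_side.mp h5).trans h8

lemma axis_bwd (h : Wall D A) {i : Bool} {g : G} (hg : g • A i ⊆ A i) {c : ℝ → X}
    (hc : Isometry c) {l : ℝ} (hl : 0 < l) (hgc : ∀ t, g • c t = c (t + l))
    (ht : Tendsto (fun t => infDist (c t) D) atBot atTop) :
    ∀ᶠ t in atBot, c t ∉ D ∪ A i := by
  obtain ⟨x, hx, hA⟩ := h.side (!i)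
  have hxA : x ∈ A (!i) := by
    rw [hA]
    exact mem_side_self hx
  have hdis : Disjoint (A i) (A (!i)) := by
    cases i
    · exact h.disj
    · exact h.disj.symm
  have hx1 : x ∉ D ∪ A i := by
    rintro (h1 | h1)
    · exact hx h1
    · exact Set.disjoint_left.mp hdis h1 hxA
  have hcl : g • (D ∪ A i) ⊆ D ∪ A i := by
    rw [← h.closure_eq i, ← closure_smul]
    exact closure_mono hg
  filter_upwards [ht.eventually_gt_atTop (dist x (c 0) + l), eventually_le_atBot 0] with t h1 h2
  set n : ℕ := ⌊(-t) / l⌋₊ with hn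
  have h3 : (n : ℝ) * l ≤ -t := by
    have := Nat.floor_le (div_nonneg (neg_nonneg.mpr h2) hl.le)
    rwa [← hn, le_div_iff₀ hl] at this
  have h4 : -t < (n + 1 : ℝ) * l := by
    have := Nat.lt_floor_add_one ((-t) / l)
    rwa [← hn, div_lt_iff₀ hl] at this
  set y : X := (g ^ n)⁻¹ • x with hy
  have hgy : g ^ n • y = x := smul_inv_smul _ _
  have h5 : y ∉ D ∪ A i := by
    intro hcon
    apply hx1
    rw [← hgy]
    exact ends3_pow_smul hcl n (smul_mem_smul_set hcon)
  have h6 : dist y (c (-(n * l))) = dist x (c 0) := by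
    have := ends3_pow_axis hgc n (-(n * l))
    rw [neg_add_cancel] at this
    rw [← this, ← hgy, dist_smul]
  have h7 : dist (c (-(n * l))) (c t) ≤ l := by
    rw [hc.dist_eq, Real.dist_eq, abs_le]
    constructor <;> linarith
  have h8 : JoinedIn Dᶜ y (c t) := by
    apply ends3_joined
    have := dist_triangle y (c (-(n * l))) (c t)
    linarith
  rintro (h9 | h9)
  · exact h8.target_mem h9
  · apply h5
    right
    obtain ⟨z, _, hz⟩ := h.side i
    rw [hz] at h9 ⊢
    exact (mem_side.mp h9).trans h8.symm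

end Pool.Agent.H75.SF
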