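import Pool.Agent.H75.SF.Bus1

/-!
# SF-3: flats

`φ : V → X` an isometric embedding of an inner product space.
* `flat_pt`: `eq_pt` and norms.
* `gconvex_range`: `flat_pt`.  `isClosed_range_flat`: `V` is complete, `Isometry.isClosedEmbedding`.
* `isRay_flat`, `dist_flat`: `dist (φ (u + s • v)) (φ (u + t • v)) = ‖(s - t) • v‖`.
* `busR_flat`: `‖w - u - t • v‖ - t → - ⟪w - u, v⟫` as `t → ∞` (square: `‖a‖^2 - 2 t ⟪a, v⟫ + t^2`, divide
  by `‖a - t v‖ + t`); with `tendsto_busR` and uniqueness of limits.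
* `convexOn_comp_flat`: `flat_pt`.
* `rec_dir`: for `s > t`, `u + t • v = lim_{s → ∞} ((1 - t / s) • u + (t / s) • (u' + s • v))`, so
  `h (u + t • v) ≤ lim ((1 - t / s) * h u + (t / s) * M) = h u`.
* `line_in_flat`: `ℓ s = φ (λ s)` for a unique isometry `λ : ℝ → V`, which is affine
  (`Isometry.affineIsometryOfStrictConvexSpace`).
-/

open Set Filter Topology Metric
open Pool.Agent.H29 Pool.Agent.H29.RR
open scoped RealInnerProductSpace

set_option linter.unusedSectionVars false

namespace Pool.Agent.H75.SF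

variable {X : Type*} [MetricSpace X] [IsCAT0 X]
variable {V : Type*} [NormedAddCommGroup V] [InnerProductSpace ℝ V] {φ : V → X}

lemma flat_pt (hφ : Isometry φ) (u w : V) {t : ℝ} (ht : t ∈ Icc (0 : ℝ) 1) :
    φ ((1 - t) • u + t • w) = pt (φ u) (φ w) t := by
  apply eq_pt ht
  · rw [hφ.dist_eq, hφ.dist_eq, dist_eq_norm, dist_eq_norm]
    have h1 : u - ((1 - t) • u + t • w) = t • (u - w) := by module
    rw [h1, norm_smul, Real.norm_eq_abs, abs_of_nonneg ht.1]
  · rw [hφ.dist_eq, hφ.dist_eq, dist_eq_norm, dist_eq_norm]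
    have h1 : ((1 - t) • u + t • w) - w = (1 - t) • (u - w) := by module
    rw [h1, norm_smul, Real.norm_eq_abs, abs_of_nonneg (by linarith [ht.2])]

lemma gconvex_range (hφ : Isometry φ) : GConvex (range φ) := by
  rintro x ⟨u, rfl⟩ y ⟨w, rfl⟩ t ht
  rw [← flat_pt hφ u w ht]
  exact mem_range_self _

lemma isClosed_range_flat [FiniteDimensional ℝ V] (hφ : Isometry φ) : IsClosed (range φ) := by
  have : CompleteSpace V := FiniteDimensional.complete ℝ V
  exact hφ.isClosedEmbedding.isClosed_range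

lemma dist_flat (hφ : Isometry φ) (u w v v' : V) {t : ℝ} (ht : 0 ≤ t) :
    dist (φ (u + t • v)) (φ (w + t • v')) ≤ ‖v - v'‖ * t + ‖u - w‖ := by
  rw [hφ.dist_eq, dist_eq_norm]
  have h1 : u + t • v - (w + t • v') = t • (v - v') + (u - w) := by module
  rw [h1]
  refine (norm_add_le _ _).trans ?_
  rw [norm_smul, Real.norm_eq_abs, abs_of_nonneg ht, mul_comm]

lemma isRay_flat (hφ : Isometry φ) (u : V) {v : V} (hv : ‖v‖ = 1) :
    IsRay (fun t => φ (u + t • v)) := by
  intro s t _ _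
  show dist (φ (u + s • v)) (φ (u + t • v)) = |s - t|
  rw [hφ.dist_eq, dist_eq_norm]
  have h1 : u + s • v - (u + t • v) = (s - t) • v := by module
  rw [h1, norm_smul, hv, mul_one, Real.norm_eq_abs]

lemma isRay_dir (hφ : Isometry φ) {v : V} (hv : ‖v‖ = 1) : IsRay (dir φ v) := by
  have h1 := isRay_flat hφ 0 hv
  simp only [zero_add] at h1
  exact h1

lemma flat1_tendsto_norm_sub_smul (a : V) {v : V} (hv : ‖v‖ = 1) :
    Tendsto (fun t : ℝ => ‖a - t • v‖ - t) atTop (𝓝 (- ⟪a, v⟫)) := by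
  set b : ℝ := ⟪a, v⟫ with hb
  set c : ℝ := ‖a‖ ^ 2 - b ^ 2 with hc
  have hbn : |b| ≤ ‖a‖ := by
    have := abs_real_inner_le_norm a v
    rwa [hv, mul_one] at this
  have hc0 : 0 ≤ c := by
    have := sq_le_sq' (neg_le_of_abs_le hbn) (le_of_abs_le hbn)
    linarith
  have hsq : ∀ t : ℝ, ‖a - t • v‖ ^ 2 = (t - b) ^ 2 + c := by
    intro t
    rw [@norm_sub_sq ℝ, norm_smul, hv, mul_one, Real.norm_eq_abs, sq_abs, inner_smul_right,
      RCLike.re_to_real]
    simp only [hc, ← hb]
    ring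
  have hlim : Tendsto (fun t : ℝ => - b + c / (2 * (t - b))) atTop (𝓝 (- b)) := by
    have h1 : Tendsto (fun t : ℝ => 2 * (t - b)) atTop atTop := by
      apply Tendsto.const_mul_atTop (by norm_num)
      exact tendsto_atTop_add_const_right _ _ tendsto_id
    have h2 : Tendsto (fun t : ℝ => c / (2 * (t - b))) atTop (𝓝 0) := h1.const_div_atTop c
    simpa using h2.const_add (- b)
  refine tendsto_of_tendsto_of_tendsto_of_le_of_le' tendsto_const_nhds hlim ?_ ?_
  · filter_upwards with t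
    have h1 : (t - b) ^ 2 ≤ ‖a - t • v‖ ^ 2 := by rw [hsq]; linarith
    have h2 := abs_le_of_sq_le_sq h1 (norm_nonneg _)
    have h3 := le_abs_self (t - b)
    linarith
  · filter_upwards [eventually_gt_atTop b] with t ht
    have htb : 0 < t - b := by linarith
    have h1 : ‖a - t • v‖ ^ 2 ≤ ((t - b) + c / (2 * (t - b))) ^ 2 := by
      rw [hsq]
      have h2 : ((t - b) + c / (2 * (t - b))) ^ 2 =
          (t - b) ^ 2 + c + (c / (2 * (t - b))) ^ 2 := by
        field_simp
        ring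
      rw [h2]
      have := sq_nonneg (c / (2 * (t - b)))
      linarith
    have h3 := abs_le_of_sq_le_sq h1 (by positivity)
    rw [abs_of_nonneg (norm_nonneg _)] at h3
    linarith

lemma busR_flat (hφ : Isometry φ) (u w : V) {v : V} (hv : ‖v‖ = 1) :
    busR (fun t => φ (u + t • v)) (φ w) = - ⟪w - u, v⟫ := by
  apply tendsto_nhds_unique (tendsto_busR (isRay_flat hφ u hv) (φ w))
  refine (flat1_tendsto_norm_sub_smul (w - u) hv).congr fun t => ?_
  rw [hφ.dist_eq, dist_eq_norm]
  congr 2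
  module

lemma busR_dir (hφ : Isometry φ) (w : V) {v : V} (hv : ‖v‖ = 1) :
    busR (dir φ v) (φ w) = - ⟪w, v⟫ := by
  have h1 := busR_flat hφ 0 w hv
  simp only [zero_add, sub_zero] at h1
  exact h1

lemma convexOn_comp_flat (hφ : Isometry φ) {f : X → ℝ} (hf : GConvexFun f) :
    ConvexOn ℝ univ (fun u => f (φ u)) := by
  refine ⟨convex_univ, fun x _ y _ a b ha hb hab => ?_⟩
  have h1 : a = 1 - b := by linarith
  have hbI : b ∈ Icc (0 : ℝ) 1 := ⟨hb, by linarith⟩
  subst h1
  show f (φ ((1 - b) • x + b • y)) ≤ (1 - b) • f (φ x) + b • f (φ y)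
  rw [flat_pt hφ x y hbI]
  exact hf _ _ b hbI

/-- a continuous convex function bounded above on one ray of direction `v` does not increase in
the direction `v` -/
lemma rec_dir {h : V → ℝ} (hc : ConvexOn ℝ univ h) (hcont : Continuous h) {u' v : V} {M : ℝ}
    (hM : ∀ t : ℝ, 0 ≤ t → h (u' + t • v) ≤ M) (u : V) {t : ℝ} (ht : 0 ≤ t) :
    h (u + t • v) ≤ h u := by
  have h0 : Tendsto (fun s : ℝ => t / s) atTop (𝓝 0) := tendsto_id.const_div_atTop t
  have h1 : Tendsto (fun s : ℝ => h (u + (t / s) • (u' - u) + t • v)) atTop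
      (𝓝 (h (u + t • v))) := by
    refine (hcont.tendsto _).comp ?_
    have h2 : Tendsto (fun s : ℝ => (t / s) • (u' - u)) atTop (𝓝 ((0 : ℝ) • (u' - u))) :=
      h0.smul_const _
    rw [zero_smul] at h2
    have h3 := (h2.const_add u).add_const (t • v)
    simpa using h3
  have h2 : Tendsto (fun s : ℝ => (1 - t / s) * h u + (t / s) * M) atTop (𝓝 (h u)) := by
    have h3 : Tendsto (fun s : ℝ => (1 - t / s) * h u + (t / s) * M) atTop
        (𝓝 ((1 - 0) * h u + 0 * M)) :=
      ((h0.const_sub 1).mul_const _).add (h0.mul_const _)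
    simpa using h3
  refine le_of_tendsto_of_tendsto h1 h2 ?_
  filter_upwards [eventually_gt_atTop 0, eventually_ge_atTop t] with s hs hst
  have hts0 : 0 ≤ t / s := by positivity
  have hts1 : t / s ≤ 1 := (div_le_one hs).2 hst
  have h3 := hc.2 (mem_univ u) (mem_univ (u' + s • v)) (by linarith : 0 ≤ 1 - t / s) hts0
    (by ring)
  have h4 : (1 - t / s) • u + (t / s) • (u' + s • v) = u + (t / s) • (u' - u) + t • v := by
    have h5 : (t / s) • (s • v) = t • v := by
      rw [smul_smul, div_mul_cancel₀ t hs.ne']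
    rw [smul_add, h5]
    module
  rw [h4] at h3
  refine h3.trans ?_
  rw [smul_eq_mul, smul_eq_mul]
  have h6 := mul_le_mul_of_nonneg_left (hM s hs.le) hts0
  linarith

lemma line_in_flat (hφ : Isometry φ) {ℓ : ℝ → X} (hℓ : Isometry ℓ) (h : ∀ s, ℓ s ∈ range φ) :
    ∃ z w : V, ‖w‖ = 1 ∧ ∀ s : ℝ, φ (z + s • w) = ℓ s := by
  choose lam hlam using h
  have hiso : Isometry lam := by
    refine Isometry.of_dist_eq fun s t => ?_
    rw [← hφ.dist_eq, hlam, hlam, hℓ.dist_eq]
  set A := hiso.affineIsometryOfStrictConvexSpace with hA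
  have hAa : ∀ s, A s = lam s := fun s => rfl
  refine ⟨lam 0, A.linearIsometry 1, ?_, fun s => ?_⟩
  · rw [LinearIsometry.norm_map]
    simp
  · rw [← hlam s]
    congr 1
    have h1 := A.map_vadd 0 s
    rw [hAa, hAa] at h1
    simp only [vadd_eq_add, add_zero] at h1
    rw [h1, ← LinearIsometry.map_smul, smul_eq_mul, mul_one, add_comm]

end Pool.Agent.H75.SF
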