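import Pool.Agent.H75.SF.Ends

/-!
# SF-21: a half-plane along the axis crosses all translates of the wall

`(D, A)` a wall, `g • A i ⊆ A i`, `c` an axis of `g` (`g • c t = c (t + l)`, `l > 0`), `infDist (c t) D → ∞` at both ends, `c t ∈ A i` for `t → ∞`,
`c t ∉ D ∪ A i` for `t → -∞`.  `F : ℝ → ℝ → X` is a flat half-plane with `F t 0 = c t`.

* `HPlane.pt`: `eq_pt` (both distances from the square formula: `l` times, resp. `1 - l` times the distance).
* `linear_growth`: `f t = infDist (c t) D` is convex, nonnegative and tends to `∞` at both ends: choose `t₁ > 0` with `f t ≥ f 0 + 1` for `t ≥ t₁` and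
  for `t ≤ -t₁`; convexity gives `f t ≥ f 0 + |t| / t₁` for `|t| ≥ t₁` (between `0` and `t`), so `κ = 1 / t₁`, `B = 1` will do.
* `exists_first`: for `s ≥ 0`, a wall `(D', A')` with `F t s ∈ D' ∪ A' i` for some `t`, `F t s ∉ D' ∪ A' i` for `t → -∞`: `E = {t | F t s ∈ D' ∪ A' i}` is closed
  (`t ↦ F t s` is an isometry), nonempty, bounded below; `α = sInf E ∈ E`; `F α s ∈ A' i` is impossible, as `A' i` is open; so `F α s ∈ D'`.
* `exists_crossings`: apply `exists_first` to `(g ^ n • D, g ^ n • A)` (`Wall.smul`).  For `t` large `F t s ∈ g ^ n • A i`: `c t = g ^ n • c (t - n l) ∈ g ^ n • A i`, and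
  `dist (F t s) (c t) = s < infDist (c (t - n l)) D = infDist (c t) (g ^ n • D)`, so `F t s` is joined to `c t` outside `g ^ n • D` (`joinedIn_of_pt`).
  Similarly `F t s ∉ g ^ n • D ∪ g ^ n • A i` for `t → -∞`.  Put `α n s` = the first point.
  - monotone: `F (α (n + 1) s) s ∈ g ^ (n + 1) • D ⊆ g ^ n • (D ∪ A i)` (`g • D ⊆ closure (g • A i) ⊆ closure (A i) = D ∪ A i`, `Wall.closure_eq`), so not `α (n + 1) s < α n s`.
  - `α n 0 = α 0 0 + n * l`: `c t ∈ g ^ n • (D ∪ A i) ↔ c (t - n l) ∈ D ∪ A i`.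
  - bound: `s = dist (F (α n s) s) (c (α n s)) ≥ infDist (c (α n s)) (g ^ n • D) = infDist (c (α n s - n l)) D ≥ κ * |α n s - n l| - B`.
-/

open Set Filter Topology Metric
open Pool.Agent.H29 Pool.Agent.H29.RR
open scoped Pointwise

set_option linter.unusedSectionVars false

namespace Pool.Agent.H75.SF

variable {X : Type*} [MetricSpace X] [IsCAT0 X] [ProperSpace X]
variable {G : Type*} [Group G] [MulAction G X] [IsIsometricSMul G X]
variable {D : Set X} {A : Bool → Set X}

omit [IsCAT0 X] [ProperSpace X] in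
/-- flat half-planes -/
def HPlane (F : ℝ → ℝ → X) : Prop :=
  ∀ t s t' s' : ℝ, 0 ≤ s → 0 ≤ s' → dist (F t s) (F t' s') ^ 2 = (t - t') ^ 2 + (s - s') ^ 2

omit [IsCAT0 X] [ProperSpace X] in
lemma HPlane.isometry {F : ℝ → ℝ → X} (h : HPlane F) {s : ℝ} (hs : 0 ≤ s) :
    Isometry (fun t => F t s) := by
  apply Isometry.of_dist_eq
  intro a b
  have h1 := h a s b s hs hs
  rw [sub_self, zero_pow two_ne_zero, add_zero] at h1
  show dist (F a s) (F b s) = dist a b
  rw [Real.dist_eq]
  have h2 : dist (F a s) (F b s) ^ 2 = |a - b| ^ 2 := by rw [h1, sq_abs]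
  exact (sq_eq_sq₀ dist_nonneg (abs_nonneg _)).mp h2

lemma HPlane.pt_eq {F : ℝ → ℝ → X} (h : HPlane F) {t s t' s' : ℝ} (hs : 0 ≤ s) (hs' : 0 ≤ s')
    {l : ℝ} (hl : l ∈ Icc (0 : ℝ) 1) :
    F ((1 - l) * t + l * t') ((1 - l) * s + l * s') = pt (F t s) (F t' s') l := by
  have hl0 : 0 ≤ l := hl.1
  have hl1 : 0 ≤ 1 - l := by linarith [hl.2]
  have hm : 0 ≤ (1 - l) * s + l * s' := by positivity
  have h0 := h t s t' s' hs hs'
  apply eq_pt hl
  · have h1 := h t s ((1 - l) * t + l * t') ((1 - l) * s + l * s') hs hm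
    have h2 : dist (F t s) (F ((1 - l) * t + l * t') ((1 - l) * s + l * s')) ^ 2
        = (l * dist (F t s) (F t' s')) ^ 2 := by
      rw [h1, mul_pow, h0]
      ring
    exact (sq_eq_sq₀ dist_nonneg (by positivity)).mp h2
  · have h1 := h ((1 - l) * t + l * t') ((1 - l) * s + l * s') t' s' hm hs'
    have h2 : dist (F ((1 - l) * t + l * t') ((1 - l) * s + l * s')) (F t' s') ^ 2
        = ((1 - l) * dist (F t s) (F t' s')) ^ 2 := by
      rw [h1, mul_pow, h0]
      ring
    exact (sq_eq_sq₀ dist_nonneg (by positivity)).mp h2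

lemma linear_growth (hcl : IsClosed D) (hcv : GConvex D) (hne : D.Nonempty) {c : ℝ → X}
    (hc : Isometry c) (h1 : Tendsto (fun t => infDist (c t) D) atTop atTop)
    (h2 : Tendsto (fun t => infDist (c t) D) atBot atTop) :
    ∃ κ B : ℝ, 0 < κ ∧ ∀ t, κ * |t| - B ≤ infDist (c t) D := by
  have hconv := (gconvexFun_infDist hcl hne hcv).comp_line hc
  obtain ⟨a, ha⟩ := (tendsto_atTop_atTop.mp h1) (infDist (c 0) D + 1)
  obtain ⟨b, hb⟩ := (tendsto_atBot_atTop.mp h2) (infDist (c 0) D + 1)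
  obtain ⟨T, hT1, hT2, hT3⟩ : ∃ T : ℝ, a ≤ T ∧ -b ≤ T ∧ 0 < T :=
    ⟨max (max a (-b)) 1, (le_max_left _ _).trans (le_max_left _ _),
      (le_max_right _ _).trans (le_max_left _ _), lt_of_lt_of_le one_pos (le_max_right _ _)⟩
  have h0 : 0 ≤ infDist (c 0) D := infDist_nonneg
  have key : ∀ v : ℝ, v ≠ 0 → (infDist (c 0) D + 1 ≤ infDist (c (T / |v| * v)) D) → T ≤ |v| →
      1 / T * |v| - 1 ≤ infDist (c v) D := by
    intro v hv h3 h4
    have hvp : 0 < |v| := abs_pos.mpr hv
    have hl : T / |v| ∈ Icc (0 : ℝ) 1 :=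
      ⟨by positivity, (div_le_one hvp).mpr h4⟩
    have h5 := hconv 0 v (T / |v|) hl
    simp only [mul_zero, zero_add] at h5
    have h6 : 1 ≤ T / |v| * (infDist (c v) D - infDist (c 0) D) := by
      nlinarith [h3, h5]
    have h7 : |v| / T ≤ infDist (c v) D - infDist (c 0) D := by
      rw [div_le_iff₀ hT3]
      have h8 : |v| * 1 ≤ |v| * (T / |v| * (infDist (c v) D - infDist (c 0) D)) :=
        mul_le_mul_of_nonneg_left h6 hvp.le
      have h9 : |v| * (T / |v| * (infDist (c v) D - infDist (c 0) D))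
          = (infDist (c v) D - infDist (c 0) D) * T := by
        field_simp
      rw [h9, mul_one] at h8
      exact h8
    have h10 : 1 / T * |v| = |v| / T := by ring
    rw [h10]
    linarith
  refine ⟨1 / T, 1, by positivity, fun t => ?_⟩
  by_cases hTt : T ≤ |t|
  · have ht0 : t ≠ 0 := by
      intro h
      rw [h, abs_zero] at hTt
      linarith
    apply key t ht0 _ hTt
    rcases le_or_gt 0 t with h | h
    · rw [abs_of_nonneg h, div_mul_cancel₀ _ ht0]
      exact ha T hT1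
    · rw [abs_of_neg h]
      have : T / -t * t = -T := by
        field_simp
      rw [this]
      exact hb (-T) (by linarith)
  · push Not at hTt
    have h3 : 1 / T * |t| ≤ 1 := by
      rw [one_div, inv_mul_le_iff₀ hT3, mul_one]
      exact hTt.le
    have h4 : 0 ≤ infDist (c t) D := infDist_nonneg
    linarith

lemma exists_first (h : Wall D A) {i : Bool} {F : ℝ → ℝ → X} (hF : HPlane F) {s : ℝ}
    (hs : 0 ≤ s) (h1 : ∃ t, F t s ∈ D ∪ A i) (h2 : ∀ᶠ t in atBot, F t s ∉ D ∪ A i) :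
    ∃ α : ℝ, F α s ∈ D ∧ ∀ t < α, F t s ∉ D ∪ A i := by
  obtain ⟨x, hx, hAx⟩ := h.side i
  have hcl : IsClosed (D ∪ A i) := by
    rw [hAx]
    exact isClosed_union_side h.closed x
  have hop : IsOpen (A i) := by
    rw [hAx]
    exact isOpen_side h.closed x
  have hcont : Continuous (fun t => F t s) := (hF.isometry hs).continuous
  set E : Set ℝ := {t | F t s ∈ D ∪ A i} with hE
  have hEcl : IsClosed E := hcl.preimage hcont
  have hEne : E.Nonempty := h1
  obtain ⟨b, hb⟩ := (eventually_atBot.mp h2)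
  have hEb : BddBelow E := by
    refine ⟨b, fun t ht => ?_⟩
    by_contra hlt
    push Not at hlt
    exact hb t hlt.le ht
  have hmem : sInf E ∈ E := hEcl.csInf_mem hEne hEb
  refine ⟨sInf E, ?_, fun t ht hm => ?_⟩
  · rcases hmem with h3 | h3
    · exact h3
    · exfalso
      have h4 : (fun t => F t s) ⁻¹' (A i) ∈ 𝓝 (sInf E) :=
        (hop.preimage hcont).mem_nhds h3
      obtain ⟨ε, hε, hball⟩ := Metric.mem_nhds_iff.mp h4
      have h5 : sInf E - ε / 2 ∈ ball (sInf E) ε := by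
        rw [mem_ball, Real.dist_eq]
        have : sInf E - ε / 2 - sInf E = -(ε / 2) := by ring
        rw [this, abs_neg, abs_of_pos (by positivity)]
        linarith
      have h6 : sInf E - ε / 2 ∈ E := Or.inr (hball h5)
      have h7 := csInf_le hEb h6
      linarith
  · exact notMem_of_lt_csInf ht hEb hm

end Pool.Agent.H75.SF
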