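import Pool.Agent.H75.SF.Ends
import Pool.Agent.H75.SF.HP1a

/-!
# SF-21: a half-plane along the axis crosses all translates of the wall

`(D, A)` a wall, `g • A i ⊆ A i`, `c` an axis of `g` (`g • c t = c (t + l)`, `l > 0`), `infDist (c t) D → ∞` at both ends, `c t ∈ A i` for `t → ∞`,
`c t ∉ D ∪ A i` for `t → -∞`.  `F : ℝ → ℝ → X` is a flat half-plane with `F t 0 = c t`.

* `HPlane.pt`: `eq_pt` (both distances from the square formula: `l` times, resp. `1 - l` times the distance).
* `linear_growth`: `f t = infDist (c t) D` is convex, nonnegative and tends to `∞` at both ends: choose `t₁ > 0` with `f t ≥ f 0 + 1` for `t ≥ t₁` and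
  for `t ≤ -t₁`; convexity gives `f t ≥ f 0 + |t| / t₁` for `|t| ≥ t₁` (between `0` and `t`), so `κ = 1 / t₁`, `B = 1` will do.
* `exists_first`: for `s ≥ 0`, a wall `(D', A')` with `F t s ∈ D' ∪ A' i` for some `t`, `F t s ∉ D' ∪ A' i` for `t → -∞`: `E = {t | F t s ∈ D' ∪ A' i}` is closed
  (`t ↦ F t s` is an isometry), nonempty, bounded below; `α = sInf E ∈ E`; `F α s ∈ A' i` is impossible, as `A' i` is open; so `F α s ∈ D'`.
* `exists_crossings`: apply `exists_first` to `(g ^ n • D, g ^ n • A)` (`Wall.smul`).  For `t` large `F t s ∈ g ^ n • A i`: `c t = g ^ n • c (t - n l) ∈ g ^ n • A i`, and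
  `dist (F t s) (c t) = s < infDist (c (t - n l)) D = infDist (c t) (g ^ n • D)`, so `F t s` is joined to `c t` outside `g ^ n • D` (`joinedIn_of_pt`).
  Similarly `F t s ∉ g ^ n • D ∪ g ^ n • A i` for `t → -∞`.  Put `α n s` = the first point.
  - monotone: `F (α (n + 1) s) s ∈ g ^ (n + 1) • D ⊆ g ^ n • (D ∪ A i)` (`g • D ⊆ closure (g • A i) ⊆ closure (A i) = D ∪ A i`, `Wall.closure_eq`), so not `α (n + 1) s < α n s`.
  - `α n 0 = α 0 0 + n * l`: `c t ∈ g ^ n • (D ∪ A i) ↔ c (t - n l) ∈ D ∪ A i`.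
  - bound: `s = dist (F (α n s) s) (c (α n s)) ≥ infDist (c (α n s)) (g ^ n • D) = infDist (c (α n s - n l)) D ≥ κ * |α n s - n l| - B`.
-/

open Set Filter Topology Metric
open Pool.Agent.H29 Pool.Agent.H29.RR
open scoped Pointwise

set_option linter.unusedSectionVars false

namespace Pool.Agent.H75.SF

variable {X : Type*} [MetricSpace X] [IsCAT0 X] [ProperSpace X]
variable {G : Type*} [Group G] [MulAction G X] [IsIsometricSMul G X]
variable {D : Set X} {A : Bool → Set X}

private lemma hp1_joined {E : Set X} {x y : X} (h : dist x y < infDist x E) :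
    JoinedIn Eᶜ x y := by
  apply joinedIn_of_pt
  intro t ht hcon
  have h1 := infDist_le_dist_of_mem (x := x) hcon
  rw [dist_left_pt x y ht] at h1
  have h2 : t * dist x y ≤ 1 * dist x y := mul_le_mul_of_nonneg_right ht.2 dist_nonneg
  linarith

lemma exists_crossings (h : Wall D A) (hne : D.Nonempty) {i : Bool} {g : G}
    (hg : g • A i ⊆ A i) {c : ℝ → X} (hc : Isometry c) {l : ℝ} (hl : 0 < l)
    (hgc : ∀ t, g • c t = c (t + l))
    (h1 : Tendsto (fun t => infDist (c t) D) atTop atTop)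
    (h2 : Tendsto (fun t => infDist (c t) D) atBot atTop)
    (h3 : ∀ᶠ t in atTop, c t ∈ A i) (h4 : ∀ᶠ t in atBot, c t ∉ D ∪ A i)
    {F : ℝ → ℝ → X} (hF : HPlane F) (hF0 : ∀ t, F t 0 = c t) :
    ∃ (α : ℕ → ℝ → ℝ) (κ B : ℝ), 0 < κ ∧
      (∀ n s, 0 ≤ s → F (α n s) s ∈ g ^ n • D) ∧
      (∀ n s, 0 ≤ s → α n s ≤ α (n + 1) s) ∧
      (∀ n, α n 0 = α 0 0 + n * l) ∧
      ∀ n s, 0 ≤ s → |α n s - n * l| ≤ (s + B) / κ := by
  obtain ⟨x₀, hx₀, hA⟩ := h.side i
  have hcl : IsClosed (D ∪ A i) := by
    rw [hA]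
    exact isClosed_union_side h.closed x₀
  have hgn : ∀ (n : ℕ) (t : ℝ), g ^ n • c t = c (t + n * l) := by
    intro n
    induction n with
    | zero => intro t; simp
    | succ n ih =>
      intro t
      rw [pow_succ', mul_smul, ih, hgc]
      congr 1
      push_cast
      ring
  have hgn' : ∀ (n : ℕ) (t : ℝ), c t = g ^ n • c (t - n * l) := by
    intro n t
    rw [hgn, sub_add_cancel]
  have hmem : ∀ (n : ℕ) (t : ℝ) (S : Set X), c t ∈ g ^ n • S ↔ c (t - n * l) ∈ S := by
    intro n t S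
    rw [hgn' n t, Set.smul_mem_smul_set_iff]
  have hinf : ∀ (n : ℕ) (t : ℝ), infDist (c t) (g ^ n • D) = infDist (c (t - n * l)) D := by
    intro n t
    rw [hgn' n t, infDist_smul_smul]
  have hdist : ∀ t s : ℝ, 0 ≤ s → dist (c t) (F t s) = s := by
    intro t s hs
    rw [← hF0 t]
    have h5 := hF t 0 t s le_rfl hs
    have h6 : dist (F t 0) (F t s) ^ 2 = s ^ 2 := by rw [h5]; ring
    exact (pow_left_inj₀ dist_nonneg hs two_ne_zero).1 h6
  have hshT : ∀ n : ℕ, Tendsto (fun t : ℝ => t - n * l) atTop atTop :=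
    fun n => tendsto_atTop_add_const_right _ _ tendsto_id
  have hshB : ∀ n : ℕ, Tendsto (fun t : ℝ => t - n * l) atBot atBot :=
    fun n => tendsto_atBot_add_const_right _ _ tendsto_id
  have key : ∀ (n : ℕ) (s : ℝ), ∃ α : ℝ, 0 ≤ s → F α s ∈ g ^ n • D ∧
      ∀ t < α, F t s ∉ g ^ n • D ∪ g ^ n • A i := by
    intro n s
    by_cases hs : 0 ≤ s
    · have hside : g ^ n • A i = Side (g ^ n • D) (g ^ n • x₀) := by
        rw [hA, side_smul]
      have e1 : ∃ t, F t s ∈ g ^ n • D ∪ g ^ n • A i := by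
        have ev1 := (hshT n).eventually h3
        have ev2 := (h1.comp (hshT n)).eventually (eventually_gt_atTop s)
        obtain ⟨t, ht1, ht2⟩ := (ev1.and ev2).exists
        refine ⟨t, Or.inr ?_⟩
        have hct : c t ∈ g ^ n • A i := (hmem n t _).2 ht1
        have hj : JoinedIn (g ^ n • D)ᶜ (c t) (F t s) := by
          apply hp1_joined
          rw [hdist t s hs, hinf]
          exact ht2
        rw [hside] at hct ⊢
        exact (mem_side.mp hct).trans hj
      have e2 : ∀ᶠ t in atBot, F t s ∉ g ^ n • D ∪ g ^ n • A i := by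
        have ev1 := (hshB n).eventually h4
        have ev2 := (h2.comp (hshB n)).eventually (eventually_gt_atTop s)
        filter_upwards [ev1, ev2] with t ht1 ht2
        have hj : JoinedIn (g ^ n • D)ᶜ (c t) (F t s) := by
          apply hp1_joined
          rw [hdist t s hs, hinf]
          exact ht2
        rintro (h5 | h5)
        · exact hj.target_mem h5
        · apply ht1
          right
          rw [← hmem n t, hside]
          rw [hside] at h5
          exact (mem_side.mp h5).trans hj.symm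
      obtain ⟨α, hα1, hα2⟩ := exists_first (h.smul (g ^ n)) (i := i) hF hs e1 e2
      exact ⟨α, fun _ => ⟨hα1, hα2⟩⟩
    · exact ⟨0, fun h => absurd h hs⟩
  choose α hα using key
  obtain ⟨κ, B, hκ, hgr⟩ := linear_growth h.closed h.convex hne hc h1 h2
  refine ⟨α, κ, B, hκ, fun n s hs => (hα n s hs).1, ?_, ?_, ?_⟩
  · intro n s hs
    by_contra hlt
    rw [not_le] at hlt
    have h5 := (hα n s hs).2 _ hlt
    apply h5
    have h6 := (hα (n + 1) s hs).1
    have h7 : g • D ⊆ D ∪ A i := by
      have h8 : g • D ⊆ closure (g • A i) := (h.smul g).adj i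
      refine h8.trans (closure_minimal ?_ hcl)
      exact hg.trans subset_union_right
    rw [pow_succ, mul_smul] at h6
    have h9 : g ^ n • (g • D) ⊆ g ^ n • (D ∪ A i) := Set.smul_set_mono h7
    rw [Set.smul_set_union] at h9
    exact h9 h6
  · intro n
    have e1 := hα n 0 le_rfl
    have e2 := hα 0 0 le_rfl
    rw [hF0, hmem] at e1
    rw [hF0, pow_zero, one_smul] at e2
    apply le_antisymm
    · by_contra hlt
      rw [not_le] at hlt
      have h5 := e1.2 _ hlt
      rw [hF0, ← Set.smul_set_union, hmem, add_sub_cancel_right] at h5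
      exact h5 (Or.inl e2.1)
    · by_contra hlt
      rw [not_le] at hlt
      have h5 := e2.2 (α n 0 - n * l) (by linarith)
      rw [hF0, one_smul] at h5
      exact h5 (Or.inl e1.1)
  · intro n s hs
    have h5 := infDist_le_dist_of_mem (x := c (α n s)) (hα n s hs).1
    rw [hdist _ _ hs, hinf] at h5
    have h6 := hgr (α n s - n * l)
    rw [le_div_iff₀ hκ]
    linarith

end Pool.Agent.H75.SF
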