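import Pool.Agent.H75.SF.HP1

/-!
# SF-22: slopes

* `exists_slope`: `F` a half-plane, `D` closed and convex, `α : ℝ → ℝ` with `F (α s) s ∈ D` for `s ≥ 0`. Let `U = hyperfilter ℕ` and suppose `α k / k → a` along `U`
  (`k : ℕ`).  Then `F (α 0 + a * s) s ∈ D` for `s ≥ 0`: for `k ≥ s`, `k ≥ 1` the point `pt (F (α 0) 0) (F (α k) k) (s / k)` is in `D` and equals
  `F ((1 - s / k) * α 0 + s / k * α k) s` (`HPlane.pt_eq`); as `k → ∞` along `U`, `(1 - s / k) * α 0 + s / k * α k → α 0 + a * s`, and `t ↦ F t s` is continuous.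
* `exists_slopes`: from the data of `exists_crossings` (`α, κ, B`): for each `n` the sequence `k ↦ α n k / k` is bounded for `k ≥ 1` by
  `(1 + |B|) / κ + n * l`, so it converges along `U` to some `a n` with `|a n| ≤ 1 / κ` (as `|α n k / k| ≤ (1 + B / k) / κ + n * l / k → 1 / κ`).
  `a` is monotone since `α n k ≤ α (n + 1) k`.  `α n 0 = α 0 0 + n * l =: b + n * l`.
-/

open Set Filter Topology Metric
open Pool.Agent.H29 Pool.Agent.H29.RR
open scoped Pointwise

set_option linter.unusedSectionVars false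

namespace Pool.Agent.H75.SF

variable {X : Type*} [MetricSpace X] [IsCAT0 X] [ProperSpace X]
variable {G : Type*} [Group G] [MulAction G X] [IsIsometricSMul G X]
variable {D : Set X}

omit [IsCAT0 X] [ProperSpace X] in
private lemma hp2_isometry {F : ℝ → ℝ → X} (hF : HPlane F) {s : ℝ} (hs : 0 ≤ s) :
    Isometry (fun t => F t s) := by
  apply Isometry.of_dist_eq
  intro t t'
  have h1 := hF t s t' s hs hs
  have h2 : dist (F t s) (F t' s) ^ 2 = |t - t'| ^ 2 := by
    rw [h1, sq_abs]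
    ring
  rw [Real.dist_eq]
  exact (pow_left_inj₀ dist_nonneg (abs_nonneg _) two_ne_zero).1 h2

lemma exists_slope (hcl : IsClosed D) (hcv : GConvex D) {F : ℝ → ℝ → X} (hF : HPlane F)
    {α : ℝ → ℝ} (hα : ∀ s, 0 ≤ s → F (α s) s ∈ D) {a : ℝ}
    (ha : Tendsto (fun k : ℕ => α k / k) (hyperfilter ℕ : Filter ℕ) (𝓝 a)) {s : ℝ}
    (hs : 0 ≤ s) : F (α 0 + a * s) s ∈ D := by
  have hU : (hyperfilter ℕ : Filter ℕ) ≤ atTop := Nat.hyperfilter_le_atTop
  have h0 : Tendsto (fun k : ℕ => s / (k : ℝ)) (hyperfilter ℕ : Filter ℕ) (𝓝 0) :=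
    ((tendsto_const_nhds (x := s)).div_atTop tendsto_natCast_atTop_atTop).mono_left hU
  have hβ : Tendsto (fun k : ℕ => (1 - s / (k : ℝ)) * α 0 + s / k * α k)
      (hyperfilter ℕ : Filter ℕ) (𝓝 (α 0 + a * s)) := by
    have h1 : Tendsto (fun k : ℕ => (1 - s / (k : ℝ)) * α 0 + s * (α k / k))
        (hyperfilter ℕ : Filter ℕ) (𝓝 ((1 - 0) * α 0 + s * a)) :=
      ((tendsto_const_nhds.sub h0).mul_const _).add (ha.const_mul s)
    have e1 : (1 - 0) * α 0 + s * a = α 0 + a * s := by ring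
    rw [e1] at h1
    refine h1.congr fun k => ?_
    ring
  have hc : Tendsto (fun k : ℕ => F ((1 - s / (k : ℝ)) * α 0 + s / k * α k) s)
      (hyperfilter ℕ : Filter ℕ) (𝓝 (F (α 0 + a * s) s)) :=
    ((hp2_isometry hF hs).continuous.tendsto _).comp hβ
  refine hcl.mem_of_tendsto hc ?_
  have hev : ∀ᶠ k : ℕ in atTop, F ((1 - s / (k : ℝ)) * α 0 + s / k * α k) s ∈ D := by
    obtain ⟨N, hN⟩ := exists_nat_ge (max s 1)
    filter_upwards [eventually_ge_atTop N] with k hk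
    have hkN : (N : ℝ) ≤ k := by exact_mod_cast hk
    have hk1 : (1 : ℝ) ≤ k := (le_max_right _ _).trans (hN.trans hkN)
    have hks : s ≤ k := (le_max_left _ _).trans (hN.trans hkN)
    have hk0 : (0 : ℝ) < k := by linarith
    have hl : s / (k : ℝ) ∈ Icc (0 : ℝ) 1 := ⟨div_nonneg hs hk0.le, (div_le_one hk0).2 hks⟩
    have h2 := hF.pt_eq (t := α 0) (s := 0) (t' := α k) (s' := k) le_rfl hk0.le hl
    have e2 : (1 - s / (k : ℝ)) * 0 + s / k * k = s := by field_simp; ring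
    rw [e2] at h2
    rw [h2]
    exact hcv _ (hα 0 le_rfl) _ (hα k hk0.le) _ hl
  exact hU hev

/-- rays of slope `a n` in the `n`-th translate of `D` -/
structure Slopes (g : G) (D : Set X) (l : ℝ) (F : ℝ → ℝ → X) (b : ℝ) (a : ℕ → ℝ) : Prop where
  mono : Monotone a
  bdd : ∃ L, ∀ n, |a n| ≤ L
  mem : ∀ (n : ℕ) (s : ℝ), 0 ≤ s → F (b + n * l + a n * s) s ∈ g ^ n • D

omit [ProperSpace X] in
private lemma hp2_gconvex_smul {D : Set X} (h : GConvex D) (g : G) : GConvex (g • D) := by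
  rintro x ⟨a, ha, rfl⟩ y ⟨b, hb, rfl⟩ t ht
  exact ⟨pt a b t, h a ha b hb t ht, smul_pt g a b ht⟩

lemma exists_slopes (hcl : IsClosed D) (hcv : GConvex D) {g : G} {l : ℝ}
    {F : ℝ → ℝ → X} (hF : HPlane F) {α : ℕ → ℝ → ℝ} {κ B : ℝ} (hκ : 0 < κ)
    (h1 : ∀ n s, 0 ≤ s → F (α n s) s ∈ g ^ n • D)
    (h2 : ∀ n s, 0 ≤ s → α n s ≤ α (n + 1) s)
    (h3 : ∀ n : ℕ, α n 0 = α 0 0 + n * l)
    (h4 : ∀ (n : ℕ) s, 0 ≤ s → |α n s - n * l| ≤ (s + B) / κ) :
    ∃ (b : ℝ) (a : ℕ → ℝ), Slopes g D l F b a := by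
  have hU : (hyperfilter ℕ : Filter ℕ) ≤ atTop := Nat.hyperfilter_le_atTop
  have hbd : ∀ (n k : ℕ), 1 ≤ k → |α n k / k| ≤ 1 / κ + (|B| / κ + |n * l|) / k := by
    intro n k hk
    have hk0 : (0 : ℝ) < k := by exact_mod_cast hk
    have e1 := h4 n k hk0.le
    have e2 : |α n k| ≤ (k + |B|) / κ + |n * l| := by
      have e3 : |α n k| ≤ |α n k - n * l| + |n * l| := by
        have := abs_add_le (α n k - n * l) (n * l)
        rwa [sub_add_cancel] at this
      have e4 : ((k : ℝ) + B) / κ ≤ (k + |B|) / κ :=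
        div_le_div_of_nonneg_right (by linarith [le_abs_self B]) hκ.le
      linarith
    rw [abs_div, abs_of_pos hk0, div_le_iff₀ hk0]
    have e5 : (1 / κ + (|B| / κ + |n * l|) / k) * k = (k + |B|) / κ + |n * l| := by
      field_simp
      ring
    rw [e5]
    exact e2
  have hlim : ∀ n : ℕ, Tendsto (fun k : ℕ => 1 / κ + (|B| / κ + |n * l|) / (k : ℝ))
      (hyperfilter ℕ : Filter ℕ) (𝓝 (1 / κ + 0)) := by
    intro n
    refine (tendsto_const_nhds.add ?_).mono_left hU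
    exact (tendsto_const_nhds (x := |B| / κ + |(n : ℝ) * l|)).div_atTop
      tendsto_natCast_atTop_atTop
  have key : ∀ n : ℕ, ∃ a : ℝ, Tendsto (fun k : ℕ => α n k / k)
      (hyperfilter ℕ : Filter ℕ) (𝓝 a) := by
    intro n
    set C : ℝ := 1 / κ + (|B| / κ + |n * l|) with hC
    have hc : IsCompact (Icc (-C) C) := isCompact_Icc
    have hev : ∀ᶠ k : ℕ in (hyperfilter ℕ : Filter ℕ), α n k / k ∈ Icc (-C) C := by
      apply hU
      filter_upwards [eventually_ge_atTop 1] with k hk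
      have hk1 : (1 : ℝ) ≤ k := by exact_mod_cast hk
      have e1 := hbd n k hk
      have e2 : (|B| / κ + |n * l|) / (k : ℝ) ≤ |B| / κ + |n * l| :=
        div_le_self (by positivity) hk1
      exact abs_le.1 (by rw [hC]; linarith)
    obtain ⟨a, -, ha⟩ := hc.ultrafilter_le_nhds ((hyperfilter ℕ).map (fun k : ℕ => α n k / k))
      (by
        rw [le_principal_iff]
        exact hev)
    exact ⟨a, ha⟩
  choose a ha using key
  refine ⟨α 0 0, a, ?_, ?_, ?_⟩
  · apply monotone_nat_of_le_succ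
    intro n
    refine le_of_tendsto_of_tendsto (ha n) (ha (n + 1)) (Eventually.of_forall fun k => ?_)
    exact div_le_div_of_nonneg_right (h2 n k (Nat.cast_nonneg k)) (Nat.cast_nonneg k)
  · refine ⟨1 / κ + 0, fun n => ?_⟩
    refine le_of_tendsto_of_tendsto (ha n).abs (hlim n) ?_
    apply hU
    filter_upwards [eventually_ge_atTop 1] with k hk
    exact hbd n k hk
  · intro n s hs
    have h5 := exists_slope (hcl.smul (g ^ n)) (hp2_gconvex_smul hcv (g ^ n)) hF (h1 n) (ha n) hs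
    rw [h3] at h5
    exact h5

end Pool.Agent.H75.SF
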