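import Pool.Agent.H75.SF.OrthRay

/-!
# SF-5: limits of orthogonal rays and the limit principle

* `exists_orth_limit`: the maps `ρ a` (restricted to `[0,∞)`, i.e. `t ↦ ρ a (max t 0)`) are pointwise bounded, so
  `exists_limit_map` gives the pointwise limit `σ` along the ultrafilter; distances and `infDist · C` pass to the limit
  (see `exists_ray_limit` in `Pool.Agent.H29.RR.Ray`).
* `Orth.busR_eq_of_asym`: asymptotic orthogonal rays have the same Busemann function: the difference is a constant `k`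
  (`busR_asym`), both are `≥ 0` on `C` and vanish at the foot of their own ray, so `k = 0`.
* `limit_principle`: suppose not: for every `n : ℕ` there are `t n ≥ n`, `ρ' n`, `τ n ≥ 0`, `u' n` with
  `dist (ρ' n (τ n)) (ρ (t n)) ≤ s` violating the conclusion.  The foot `φ (u' n) = ρ' n 0 = proj C (ρ' n (τ n))` is
  within `s` of `ρ 0 = proj C (ρ (t n))` (`Orth.proj_eq`, `proj_lipschitz`), and `|τ n - t n| ≤ s` since `infDist · C` is
  1-Lipschitz. So `dist (ρ' n (τ n)) (ρ (τ n)) ≤ 2 s`, and by convexity (`ray_pt`, `dist_pt_pt_le`)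
  `dist (ρ' n r) (ρ r) ≤ 2 s` for `0 ≤ r ≤ τ n`.  Let `σ` be the limit of the `ρ' n` along `U = hyperfilter ℕ`: it is
  orthogonal and asymptotic to `ρ`, so `busR σ = busR ρ`, `Kset φ σ = Kset φ ρ`, `Qset φ σ = Qset φ ρ`.
  The `u' n` are bounded (`dist (φ (u' n)) (ρ 0) ≤ s`), so `u' n → u'` along `U` with `φ u' = σ 0`, `u' ∈ Kset φ σ = Kset φ ρ`;
  so the second conclusion holds for `U`-many `n`.  If the first is violated for `U`-many `n` then there are
  `v n ∈ Qset φ (ρ' n)` outside `thickening δ (Qset φ ρ)`, `v n → v` along `U` (unit sphere compact), and `v` is still outside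
  (the complement of the thickening is closed).  For `r, t ≥ 0`: `u' n + t • v n ∈ Kset φ (ρ' n)`, so by `busR_lower` (with
  `T = r`) and as `dist (ρ' n 0) (φ (u' n + t • v n)) = t`: `dist (φ (u' n + t • v n)) (ρ' n r) ^ 2 ≤ r ^ 2 + t ^ 2`.  In the limit
  `dist (φ (u' + t • v)) (σ r) ^ 2 ≤ r ^ 2 + t ^ 2` for all `r > 0`, and so `busR σ (φ (u' + t • v)) ≤ 0`.  Hence
  `v ∈ Qset φ σ = Qset φ ρ` by `Qset_of_ray`, contradiction (`self_subset_thickening`).
-/

open Set Filter Topology Metric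
open Pool.Agent.H29 Pool.Agent.H29.RR
open scoped RealInnerProductSpace

set_option linter.unusedSectionVars false

namespace Pool.Agent.H75.SF

variable {X : Type*} [MetricSpace X] [IsCAT0 X] [ProperSpace X]
variable {V : Type*} [NormedAddCommGroup V] [InnerProductSpace ℝ V] {φ : V → X}
variable {C : Set X} {ρ : ℝ → X}

lemma exists_orth_limit {α : Type*} (U : Ultrafilter α) {ρ : α → ℝ → X} {o : X} {R : ℝ}
    (hρ : ∀ᶠ a in (U : Filter α), Orth C (ρ a) ∧ dist (ρ a 0) o ≤ R) :
    ∃ σ : ℝ → X, Orth C σ ∧ ∀ t, 0 ≤ t → Tendsto (fun a => ρ a t) U (𝓝 (σ t)) := by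
  obtain ⟨σ, hσ⟩ := exists_limit_map U (fun a t => ρ a (max t 0)) o (by
    intro t
    refine ⟨max t 0 + R, ?_⟩
    filter_upwards [hρ] with a ha
    have h1 := dist_triangle (ρ a (max t 0)) (ρ a 0) o
    rw [ha.1.ray _ _ (le_max_right _ _) le_rfl, sub_zero, abs_of_nonneg (le_max_right _ _)] at h1
    linarith [ha.2])
  have hσ' : ∀ t, 0 ≤ t → Tendsto (fun a => ρ a t) U (𝓝 (σ t)) := by
    intro t ht
    have := hσ t
    simpa only [max_eq_left ht] using this
  refine ⟨σ, ⟨?_, ?_⟩, hσ'⟩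
  · intro s t hs ht
    have h1 : Tendsto (fun a => dist (ρ a s) (ρ a t)) U (𝓝 (dist (σ s) (σ t))) :=
      (hσ' s hs).dist (hσ' t ht)
    apply tendsto_nhds_unique h1
    apply tendsto_const_nhds.congr'
    filter_upwards [hρ] with a ha
    exact (ha.1.ray s t hs ht).symm
  · intro t ht
    have h1 : Tendsto (fun a => infDist (ρ a t) C) U (𝓝 (infDist (σ t) C)) :=
      ((continuous_infDist_pt C).tendsto _).comp (hσ' t ht)
    apply tendsto_nhds_unique h1
    apply tendsto_const_nhds.congr'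
    filter_upwards [hρ] with a ha
    exact (ha.1.infDist t ht).symm

lemma Orth.busR_eq_of_asym (hC : FSide φ C) {σ : ℝ → X} (h : Orth C ρ) (h' : Orth C σ)
    (hasym : Asym ρ σ) : busR σ = busR ρ := by
  funext x
  have h1 := busR_asym h.ray h'.ray hasym x (σ 0)
  have h2 := busR_asym h.ray h'.ray hasym (ρ 0) (σ 0)
  have h3 := h.busR_foot
  have h4 := h'.busR_foot
  have h5 := h.busR_nonneg (h'.mem hC)
  have h6 := h'.busR_nonneg (h.mem hC)
  rw [h3] at h2
  rw [h4] at h1 h2
  linarith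

end Pool.Agent.H75.SF
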