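import Pool.Agent.H75.SF.OrthRay
import Pool.Agent.H75.SF.LP1

/-!
# SF-5: limits of orthogonal rays and the limit principle

* `exists_orth_limit`: the maps `ρ a` (restricted to `[0,∞)`, i.e. `t ↦ ρ a (max t 0)`) are pointwise bounded, so
  `exists_limit_map` gives the pointwise limit `σ` along the ultrafilter; distances and `infDist · C` pass to the limit
  (see `exists_ray_limit` in `Pool.Agent.H29.RR.Ray`).
* `Orth.busR_eq_of_asym`: asymptotic orthogonal rays have the same Busemann function: the difference is a constant `k`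
  (`busR_asym`), both are `≥ 0` on `C` and vanish at the foot of their own ray, so `k = 0`.
* `limit_principle`: suppose not: for every `n : ℕ` there are `t n ≥ n`, `ρ' n`, `τ n ≥ 0`, `u' n` with
  `dist (ρ' n (τ n)) (ρ (t n)) ≤ s` violating the conclusion.  The foot `φ (u' n) = ρ' n 0 = proj C (ρ' n (τ n))` is
  within `s` of `ρ 0 = proj C (ρ (t n))` (`Orth.proj_eq`, `proj_lipschitz`), and `|τ n - t n| ≤ s` since `infDist · C` is
  1-Lipschitz. So `dist (ρ' n (τ n)) (ρ (τ n)) ≤ 2 s`, and by convexity (`ray_pt`, `dist_pt_pt_le`)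
  `dist (ρ' n r) (ρ r) ≤ 2 s` for `0 ≤ r ≤ τ n`.  Let `σ` be the limit of the `ρ' n` along `U = hyperfilter ℕ`: it is
  orthogonal and asymptotic to `ρ`, so `busR σ = busR ρ`, `Kset φ σ = Kset φ ρ`, `Qset φ σ = Qset φ ρ`.
  The `u' n` are bounded (`dist (φ (u' n)) (ρ 0) ≤ s`), so `u' n → u'` along `U` with `φ u' = σ 0`, `u' ∈ Kset φ σ = Kset φ ρ`;
  so the second conclusion holds for `U`-many `n`.  If the first is violated for `U`-many `n` then there are
  `v n ∈ Qset φ (ρ' n)` outside `thickening δ (Qset φ ρ)`, `v n → v` along `U` (unit sphere compact), and `v` is still outside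
  (the complement of the thickening is closed).  For `r, t ≥ 0`: `u' n + t • v n ∈ Kset φ (ρ' n)`, so by `busR_lower` (with
  `T = r`) and as `dist (ρ' n 0) (φ (u' n + t • v n)) = t`: `dist (φ (u' n + t • v n)) (ρ' n r) ^ 2 ≤ r ^ 2 + t ^ 2`.  In the limit
  `dist (φ (u' + t • v)) (σ r) ^ 2 ≤ r ^ 2 + t ^ 2` for all `r > 0`, and so `busR σ (φ (u' + t • v)) ≤ 0`.  Hence
  `v ∈ Qset φ σ = Qset φ ρ` by `Qset_of_ray`, contradiction (`self_subset_thickening`).
-/

open Set Filter Topology Metric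
open Pool.Agent.H29 Pool.Agent.H29.RR
open scoped RealInnerProductSpace

set_option linter.unusedSectionVars false

namespace Pool.Agent.H75.SF

variable {X : Type*} [MetricSpace X] [IsCAT0 X] [ProperSpace X]
variable {V : Type*} [NormedAddCommGroup V] [InnerProductSpace ℝ V] {φ : V → X}
variable {C : Set X} {ρ : ℝ → X}

theorem limit_principle [FiniteDimensional ℝ V] (hφ : Isometry φ) (hC : FSide φ C)
    (h : Orth C ρ) {δ s : ℝ} (hδ : 0 < δ) (hs : 0 ≤ s) :
    ∃ H : ℝ, ∀ t, H ≤ t → ∀ (ρ' : ℝ → X) (τ : ℝ), 0 ≤ τ → Orth C ρ' →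
      dist (ρ' τ) (ρ t) ≤ s →
      Qset φ ρ' ⊆ thickening δ (Qset φ ρ) ∧
        ∀ u', φ u' = ρ' 0 → ∃ u ∈ Kset φ ρ, dist u' u < δ := by
  by_contra hcon
  push Not at hcon
  choose tt htt ρ' τ hτ hO hd hbad using fun n : ℕ => hcon (n : ℝ)
  have : ProperSpace V := FiniteDimensional.proper ℝ V
  set U : Ultrafilter ℕ := Filter.hyperfilter ℕ with hU
  have hUle : (U : Filter ℕ) ≤ atTop := by
    rw [← Nat.cofinite_eq_atTop]
    exact Filter.hyperfilter_le_cofinite
  have hne : C.Nonempty := ⟨ρ 0, h.mem hC⟩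
  have htt0 : ∀ n, 0 ≤ tt n := fun n => (Nat.cast_nonneg n).trans (htt n)
  -- F1
  have F1 : ∀ n, dist (ρ' n 0) (ρ 0) ≤ s := by
    intro n
    have h1 := proj_lipschitz hC.closed hne hC.convex (ρ' n (τ n)) (ρ (tt n))
    rw [(hO n).proj_eq hC (hτ n), h.proj_eq hC (htt0 n)] at h1
    exact h1.trans (hd n)
  have F2 : ∀ n, |τ n - tt n| ≤ s := by
    intro n
    have h1 := infDist_le_infDist_add_dist (s := C) (x := ρ' n (τ n)) (y := ρ (tt n))
    have h2 := infDist_le_infDist_add_dist (s := C) (x := ρ (tt n)) (y := ρ' n (τ n))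
    rw [(hO n).infDist _ (hτ n), h.infDist _ (htt0 n)] at h1 h2
    rw [dist_comm] at h2
    have h3 := hd n
    rw [abs_le]
    constructor <;> linarith
  have F3 : ∀ n, dist (ρ' n (τ n)) (ρ (τ n)) ≤ 2 * s := by
    intro n
    have h1 := dist_triangle (ρ' n (τ n)) (ρ (tt n)) (ρ (τ n))
    rw [h.ray _ _ (htt0 n) (hτ n), abs_sub_comm] at h1
    have h2 := F2 n
    have h3 := hd n
    linarith
  have F4 : ∀ n r, 0 ≤ r → r ≤ τ n → dist (ρ' n r) (ρ r) ≤ 2 * s := by
    intro n r hr hrn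
    rcases eq_or_lt_of_le (hτ n) with h0 | h0
    · have : r = 0 := le_antisymm (by rw [h0]; exact hrn) hr
      rw [this]
      have := F1 n
      linarith
    · have hl : r / τ n ∈ Icc (0 : ℝ) 1 := ⟨div_nonneg hr h0.le, (div_le_one h0).2 hrn⟩
      have e : r / τ n * τ n = r := div_mul_cancel₀ _ h0.ne'
      have h1 := ray_pt (hO n).ray h0.le hl
      have h2 := ray_pt h.ray h0.le hl
      rw [e] at h1 h2
      rw [h1, h2]
      refine (dist_pt_pt_le _ _ _ _ hl).trans ?_
      have h3 := mul_le_mul_of_nonneg_left (F1 n) (show 0 ≤ 1 - r / τ n by linarith [hl.2])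
      have h4 := mul_le_mul_of_nonneg_left (F3 n) hl.1
      have h5 : 0 ≤ (1 - r / τ n) * s := mul_nonneg (by linarith [hl.2]) hs
      nlinarith
  have Flarge : ∀ r : ℝ, ∀ᶠ n : ℕ in (U : Filter ℕ), r ≤ τ n := by
    intro r
    have h1 : ∀ᶠ n : ℕ in atTop, r + s ≤ (n : ℝ) :=
      tendsto_natCast_atTop_atTop.eventually_ge_atTop _
    apply hUle
    filter_upwards [h1] with n hn
    have h2 := htt n
    have h3 := (abs_le.1 (F2 n)).1
    linarith
  -- the limit ray
  obtain ⟨σ, hσ, hlim⟩ := exists_orth_limit (C := C) U (ρ := ρ') (o := ρ 0) (R := s)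
    (Eventually.of_forall fun n => ⟨hO n, F1 n⟩)
  have hasym : Asym ρ σ := by
    refine ⟨2 * s, fun r hr => ?_⟩
    have h1 : Tendsto (fun n => dist (ρ r) (ρ' n r)) U (𝓝 (dist (ρ r) (σ r))) :=
      tendsto_const_nhds.dist (hlim r hr)
    refine le_of_tendsto h1 ?_
    filter_upwards [Flarge r] with n hn
    rw [dist_comm]
    exact F4 n r hr hn
  have hbus : busR σ = busR ρ := Orth.busR_eq_of_asym hC h hσ hasym
  have hK : Kset φ σ = Kset φ ρ := by
    unfold Kset
    rw [hbus]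
  have hQ : Qset φ σ = Qset φ ρ := by
    unfold Qset
    rw [hK]
  -- the feet
  choose u' hu' using fun n => (hO n).foot hC
  obtain ⟨uρ, huρ⟩ := h.foot hC
  have hub : ∀ n, u' n ∈ closedBall uρ s := by
    intro n
    rw [mem_closedBall, ← hφ.dist_eq, hu', huρ]
    exact F1 n
  obtain ⟨uL, -, huL⟩ := (isCompact_iff_ultrafilter_le_nhds.1 (isCompact_closedBall uρ s))
    (U.map u') (by
      rw [le_principal_iff]
      have : ∀ᶠ n in (U : Filter ℕ), u' n ∈ closedBall uρ s := Eventually.of_forall hub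
      exact this)
  have huL' : Tendsto u' U (𝓝 uL) := huL
  have hφuL : φ uL = σ 0 := by
    have h1 : Tendsto (fun n => φ (u' n)) U (𝓝 (φ uL)) := (hφ.continuous.tendsto _).comp huL'
    have h2 : Tendsto (fun n => φ (u' n)) U (𝓝 (σ 0)) := by
      simp only [hu']
      exact hlim 0 le_rfl
    exact tendsto_nhds_unique h1 h2
  have huLK : uL ∈ Kset φ ρ := by
    rw [← hK]
    change busR σ (φ uL) ≤ 0
    rw [hφuL, hσ.busR_foot]
  have hsecond : ∀ᶠ n in (U : Filter ℕ), ∀ u'', φ u'' = ρ' n 0 → ∃ u ∈ Kset φ ρ, dist u'' u < δ := by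
    have h1 := (Metric.tendsto_nhds.1 huL') δ hδ
    filter_upwards [h1] with n hn u'' hu''
    have : u'' = u' n := hφ.injective (hu''.trans (hu' n).symm)
    rw [this]
    exact ⟨uL, huLK, hn⟩
  have hfirst : ∀ᶠ n in (U : Filter ℕ), ¬ (Qset φ (ρ' n) ⊆ thickening δ (Qset φ ρ)) := by
    filter_upwards [hsecond] with n hn hsub
    obtain ⟨u'', h1, h2⟩ := hbad n hsub
    obtain ⟨u, h3, h4⟩ := hn u'' h1
    exact absurd h4 (not_lt.2 (h2 u h3))
  have hv : ∀ n, ∃ v : V, ¬ (Qset φ (ρ' n) ⊆ thickening δ (Qset φ ρ)) →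
      v ∈ Qset φ (ρ' n) ∧ v ∉ thickening δ (Qset φ ρ) := by
    intro n
    by_cases hn : Qset φ (ρ' n) ⊆ thickening δ (Qset φ ρ)
    · exact ⟨0, fun h => absurd hn h⟩
    · obtain ⟨v, h1, h2⟩ := Set.not_subset.1 hn
      exact ⟨v, fun _ => ⟨h1, h2⟩⟩
  choose v hv using hv
  have hvQ : ∀ᶠ n in (U : Filter ℕ), v n ∈ Qset φ (ρ' n) ∧ v n ∉ thickening δ (Qset φ ρ) := by
    filter_upwards [hfirst] with n hn
    exact hv n hn
  obtain ⟨vL, -, hvL⟩ := (isCompact_iff_ultrafilter_le_nhds.1 (isCompact_closedBall (0 : V) 1))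
    (U.map v) (by
      rw [le_principal_iff]
      have : ∀ᶠ n in (U : Filter ℕ), v n ∈ closedBall (0 : V) 1 := by
        filter_upwards [hvQ] with n hn
        rw [mem_closedBall_zero_iff, hn.1.1]
      exact this)
  have hvL' : Tendsto v U (𝓝 vL) := hvL
  have hvLn : ‖vL‖ = 1 := by
    have h1 : Tendsto (fun n => ‖v n‖) U (𝓝 ‖vL‖) := hvL'.norm
    have h2 : Tendsto (fun n => ‖v n‖) U (𝓝 1) := by
      apply tendsto_const_nhds.congr'
      filter_upwards [hvQ] with n hn
      exact hn.1.1.symm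
    exact tendsto_nhds_unique h1 h2
  have hvLnot : vL ∈ (thickening δ (Qset φ ρ))ᶜ := by
    refine isOpen_thickening.isClosed_compl.mem_of_tendsto hvL' ?_
    filter_upwards [hvQ] with n hn
    exact hn.2
  -- the ray from `uL` in the direction `vL` stays in `Kset φ σ`
  have hsq : ∀ t r : ℝ, 0 ≤ t → 0 < r →
      dist (φ (uL + t • vL)) (σ r) ^ 2 ≤ r ^ 2 + t ^ 2 := by
    intro t r ht hr
    have h1 : Tendsto (fun n => dist (φ (u' n + t • v n)) (ρ' n r) ^ 2) U
        (𝓝 (dist (φ (uL + t • vL)) (σ r) ^ 2)) := by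
      refine Tendsto.pow (Tendsto.dist ?_ (hlim r hr.le)) 2
      exact (hφ.continuous.tendsto _).comp (huL'.add (hvL'.const_smul t))
    refine le_of_tendsto h1 ?_
    filter_upwards [hvQ] with n hn
    have h2 : u' n ∈ Kset φ (ρ' n) := by
      change busR (ρ' n) (φ (u' n)) ≤ 0
      rw [hu', (hO n).busR_foot]
    have h3 : busR (ρ' n) (φ (u' n + t • v n)) ≤ 0 := hn.1.2 _ h2 t ht
    have h4 := (busR_lower (hO n).ray (φ (u' n + t • v n)) hr).trans h3
    rw [div_le_iff₀ (by linarith), zero_mul] at h4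
    have h5 : dist (φ (u' n + t • v n)) (ρ' n 0) = t := by
      rw [← hu' n, hφ.dist_eq, dist_eq_norm, add_sub_cancel_left, norm_smul, hn.1.1, mul_one,
        Real.norm_of_nonneg ht]
    rw [h5] at h4
    linarith
  have hray : ∀ t : ℝ, 0 ≤ t → uL + t • vL ∈ Kset φ σ := by
    intro t ht
    change busR σ (φ (uL + t • vL)) ≤ 0
    by_contra hpos
    push Not at hpos
    set b := busR σ (φ (uL + t • vL)) with hb
    have hr : 0 < (t ^ 2 + 1) / b := by positivity
    have h1 := hsq t _ ht hr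
    have h2 := busR_le hσ.ray (φ (uL + t • vL)) hr.le
    rw [← hb] at h2
    have h3 : (b + (t ^ 2 + 1) / b) ^ 2 ≤ dist (φ (uL + t • vL)) (σ ((t ^ 2 + 1) / b)) ^ 2 := by
      apply pow_le_pow_left₀ (by positivity)
      linarith
    have h4 : b * ((t ^ 2 + 1) / b) = t ^ 2 + 1 := by
      field_simp
    nlinarith [sq_nonneg b, sq_nonneg t]
  have hfin : vL ∈ Qset φ ρ := by
    rw [← hQ]
    exact Qset_of_ray hφ hσ.ray hvLn hray
  exact hvLnot (self_subset_thickening hδ _ hfin)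

end Pool.Agent.H75.SF
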