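import Pool.Agent.H75.SF.RankThm
import Pool.Agent.H75.SF.Trans
import Pool.Agent.H75.SF.Omega
import Pool.Agent.H75.SF.Kill

/-!
# Rank rigidity for spaces with a two-sided separating flat (assembly)
-/

open Set Filter Topology Metric
open Pool.Agent.H29 Pool.Agent.H29.RR
open scoped Pointwise

set_option linter.unusedSectionVars false

namespace Pool.Agent.H75.SF

universe u

variable {X : Type u} [MetricSpace X] [IsCAT0 X] [ProperSpace X]
variable {G : Type*} [Group G] [MulAction G X] [IsIsometricSMul G X]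
variable {V : Type*} [NormedAddCommGroup V] [InnerProductSpace ℝ V] [FiniteDimensional ℝ V]
variable {φ : V → X} {A : Bool → Set X}

lemma Wall.compl_ne (h : Wall (range φ) A) (i : Bool) : (A i)ᶜ ≠ univ := by
  obtain ⟨x, hx, hA⟩ := h.side i
  intro hcon
  have h1 : x ∈ A i := by rw [hA]; exact mem_side_self hx
  exact (eq_univ_iff_forall.mp hcon x) h1

theorem exists_poles (hcoc : Cocompact G X) (hgc : GeodesicallyComplete X)
    (hirr : MetricIrreducible X) (hdim : 2 ≤ Module.finrank ℝ V) (hφ : Isometry φ)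
    (h : Wall (range φ) A) : ∃ (ρ : Bool → ℝ → X) (c T : ℝ), Poles φ A ρ c T := by
  have key : ∀ i, ∃ (ρ : ℝ → X) (c T : ℝ), 0 < c ∧ 0 < T ∧ Orth (A i)ᶜ ρ ∧
      ∀ t, T ≤ t → ∀ v : V, ‖v‖ = 1 → ∀ ℓ : ℝ → X, Isometry ℓ →
      Asym ℓ (dir φ v) → Asym (fun t => ℓ (-t)) (dir φ (-v)) →
        ∀ s, c * t ≤ dist (ρ t) (ℓ s) := by
    intro i
    obtain ⟨ρ, hρ, hb⟩ := exists_strong_pole hcoc hgc hirr hdim hφ (h.fside i) (h.compl_ne i)
    obtain ⟨c, T, hc, hT, hfar⟩ := parallel_far hφ (h.fside i) hρ hb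
    exact ⟨ρ, c, T, hc, hT, hρ, hfar⟩
  choose ρ c T hc hT hρ hfar using key
  refine ⟨ρ, min (c false) (c true), max (T false) (T true), lt_min (hc _) (hc _),
    lt_max_of_lt_left (hT _), hρ, ?_⟩
  intro i t ht v hv ℓ hℓ h1 h2 s
  have ht' : T i ≤ t := by
    cases i
    · exact (le_max_left _ _).trans ht
    · exact (le_max_right _ _).trans ht
  have hc' : min (c false) (c true) ≤ c i := by
    cases i
    · exact min_le_left _ _
    · exact min_le_right _ _
  have ht0 : 0 ≤ t := (hT i).le.trans ht'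
  exact (mul_le_mul_of_nonneg_right hc' ht0).trans (hfar i t ht' v hv ℓ hℓ h1 h2 s)

theorem rankOne_of_flat [ProperlyDiscontinuousSMul G X] (hcoc : Cocompact G X)
    (hgc : GeodesicallyComplete X) (hirr : MetricIrreducible X)
    (hdim : 2 ≤ Module.finrank ℝ V) (hφ : Isometry φ) (h : Wall (range φ) A) :
    ∃ g : G, IsRankOne (X := X) g := by
  obtain ⟨ρ, c, T, hP⟩ := exists_poles hcoc hgc hirr hdim hφ h
  have hne : (range φ).Nonempty := ⟨φ 0, mem_range_self 0⟩
  obtain ⟨R₁, N, ε, h1, h2, h3, h4⟩ := kill (G := G) hcoc h.closed hne h.convex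
    (fun r hr => omega hcoc hgc hirr hdim hφ (h.fside false) (h.compl_ne false) hr)
  obtain ⟨a, b, i, hab, hno⟩ := exists_translation hdim hφ h hP ⟨h1, h2, h3, h4⟩
  have hW := h.smul a
  have e1 : (b * a⁻¹) • (a • A i) = b • A i := by
    rw [smul_smul, inv_mul_cancel_right]
  have e2 : (b * a⁻¹) • (a • range φ) = b • range φ := by
    rw [smul_smul, inv_mul_cancel_right]
  refine ⟨b * a⁻¹, rankOne_of_translation hcoc hW (hne.smul_set) (i := i) ?_ ?_ ?_⟩
  · show (b * a⁻¹) • (a • A i) ⊆ a • A i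
    rw [e1]
    exact hab
  · intro r hr hr1
    rw [e2]
    exact hno r hr hr1
  · have : Nontrivial V := Module.nontrivial_of_finrank_pos (R := ℝ) (by omega)
    obtain ⟨v, hv⟩ := exists_norm_eq V (zero_le_one (α := ℝ))
    refine ⟨fun t => a • φ (t • v), (isRay_dir hφ hv).smul a, 0, fun t _ => ?_⟩
    rw [infDist_zero_of_mem]
    exact smul_mem_smul_set (mem_range_self _)

/-- **Rank rigidity for spaces with a two-sided separating flat.** -/
theorem rankOne_of_separating_flat [ProperlyDiscontinuousSMul G X] (hcoc : Cocompact G X)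
    (hgc : GeodesicallyComplete X) (hirr : MetricIrreducible X)
    (hdim : 2 ≤ Module.finrank ℝ V) (hφ : Isometry φ) {x y : X} (hx : x ∉ range φ)
    (hy : y ∉ range φ) (hxy : ¬ JoinedIn (range φ)ᶜ x y)
    (hx' : range φ ⊆ closure {z | JoinedIn (range φ)ᶜ x z})
    (hy' : range φ ⊆ closure {z | JoinedIn (range φ)ᶜ y z}) :
    ∃ g : G, IsRankOne (X := X) g := by
  refine rankOne_of_flat hcoc hgc hirr hdim hφ
    (A := fun i => Side (range φ) (if i then y else x))
    ⟨isClosed_range_flat hφ, gconvex_range hφ, ?_, ?_, ?_⟩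
  · intro i
    cases i
    · exact ⟨x, hx, rfl⟩
    · exact ⟨y, hy, rfl⟩
  · rw [Set.disjoint_left]
    intro z hz1 hz2
    exact hxy ((mem_side.mp hz1).trans (mem_side.mp hz2).symm)
  · intro i
    cases i
    · exact hx'
    · exact hy'

end Pool.Agent.H75.SF
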