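import Pool.Agent.H75.SF.LP
import Pool.Agent.H75.SF.Min
import Pool.Agent.H75.SF.NegDir

/-!
# SF-7: a minimal good set is symmetric

`Q` a minimal good set, `e ∈ Q`.  `Q` is closed, so for `-e ∈ Q` it suffices to find, for every small `ε > 0`
(say `ε < 1 / 100`), a point of `Q` at distance at most `2 * (2 * √ε + ε) + ε` from `-e`.

Let `δ₀` be given by `Good.near` for `e` and `ε`; put `δ = min δ₀ ε / 2`.  As `Q` is good there is an orthogonal ray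
`ρ` with `Qset φ ρ ⊆ thickening δ Q`, and `Good.near` gives `e' ∈ Qset φ ρ`, `dist e' e < ε`.  Let `φ u₀ = ρ 0`.

Claim: for all `s > 0` there is `k ∈ Kset φ ρ` with `‖k - (u₀ - s • e)‖ ≤ (2 * √ε + ε) * s + δ`.  Let `H` be given by
`limit_principle` for `ρ, δ, s`; `h = max H (s + 1)`, `x = ρ h`.  `exists_busR_up` for the ray `dir φ e'`: `y` with
`dist x y = s`, `busR (dir φ e') y = busR (dir φ e') x + s`.  As `infDist x C = h > s`, `y ∉ C`; `exists_orth`: orthogonal ray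
`ρ'` with `ρ' τ = y`, `τ = infDist y C`.  By `limit_principle` `Qset φ ρ' ⊆ thickening δ (Qset φ ρ) ⊆ thickening δ₀ Q`, so there is
`v ∈ Qset φ ρ'`, `dist v e < ε`; so `‖v - e'‖ < 2 ε`.  Let `φ u' = ρ' 0`.  Then
`⟪u₀ - u', v⟫ = busR (dir φ v) (ρ' 0) - busR (dir φ v) (ρ 0)` (`busR_dir`) `≥ busR (dir φ v) y - busR (dir φ v) x`
(`Orth.busR_const` for `ρ'`; `busR_proj_le` at `x` with `Orth.proj_eq`) `≥ busR (dir φ e') y - busR (dir φ e') x - 2 ε s =
(1 - 2 ε) s` (`busR_compare` with `L = ‖v - e'‖`, `dist_flat`).  Also `‖u₀ - u'‖ = dist (ρ 0) (ρ' 0) ≤ s` (`proj_lipschitz`).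
So `‖u₀ - u' - s • v‖ ^ 2 ≤ s ^ 2 - 2 s (1 - 2 ε) s + s ^ 2 = 4 ε s ^ 2`, hence `‖u' - (u₀ - s • e)‖ ≤ 2 √ε s + ε s`; and `limit_principle`
gives `k ∈ Kset φ ρ` with `dist u' k < δ`.

`neg_dir_of_claim` (pure convexity; `K = Kset φ ρ` is closed and convex in `V`): the unit-speed directions `(k n - u₀) / n`
for `s = n` are bounded; let `w` be their limit along `hyperfilter ℕ`: `‖w + e‖ ≤ 2 √ε + ε =: η ≤ 1/2`, and `u₀ + t • w ∈ K` for all `t ≥ 0`
(it is the limit of `(1 - t / n) • u₀ + (t / n) • k n`).  So `w ≠ 0`, `w' = w / ‖w‖` satisfies `‖w' + e‖ ≤ 2 η` and is a recession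
direction: `w' ∈ Qset φ ρ` by `Qset_of_ray`.  Finally `w' ∈ thickening δ Q`, which gives a point of `Q` within `2 η + δ` of `-e`.
-/

open Set Filter Topology Metric
open Pool.Agent.H29 Pool.Agent.H29.RR
open scoped RealInnerProductSpace

set_option linter.unusedSectionVars false

namespace Pool.Agent.H75.SF

variable {X : Type*} [MetricSpace X] [IsCAT0 X] [ProperSpace X]
variable {V : Type*} [NormedAddCommGroup V] [InnerProductSpace ℝ V] {φ : V → X}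
variable {C : Set X} {Q : Set V}

/-- the claim in the header -/
lemma near_Kset [FiniteDimensional ℝ V] (hgc : GeodesicallyComplete X) (hφ : Isometry φ)
    (hC : FSide φ C) {ρ : ℝ → X} (h : Orth C ρ) {e e' u₀ : V} (hu : φ u₀ = ρ 0)
    (he : ‖e‖ = 1) (he' : e' ∈ Qset φ ρ) {ε δ : ℝ} (hε : 0 < ε) (hδ : 0 < δ)
    (hee : dist e' e < ε)
    (hnear : ∀ ρ' : ℝ → X, Orth C ρ' → Qset φ ρ' ⊆ thickening δ (Qset φ ρ) →
      ∃ v ∈ Qset φ ρ', dist v e < ε) {s : ℝ} (hs : 0 < s) :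
    ∃ k ∈ Kset φ ρ, ‖k - (u₀ - s • e)‖ ≤ (2 * √ε + ε) * s + δ := by
  obtain ⟨H, hH⟩ := limit_principle hφ hC h hδ hs.le
  obtain ⟨t, ht⟩ : ∃ t, t = max H (s + 1) := ⟨_, rfl⟩
  have htH : H ≤ t := by rw [ht]; exact le_max_left _ _
  have hts : s + 1 ≤ t := by rw [ht]; exact le_max_right _ _
  have ht0 : 0 ≤ t := by linarith
  obtain ⟨y, hxy, hby⟩ := exists_busR_up hgc (isRay_dir hφ he'.1) (ρ t) hs.le
  have hy : y ∉ C := by
    intro hyC
    have h1 := Metric.infDist_le_dist_of_mem (x := ρ t) hyC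
    rw [h.infDist t ht0, hxy] at h1
    linarith
  obtain ⟨ρ', hρ', hτ⟩ := exists_orth hgc hC hy
  obtain ⟨hQ, hK⟩ := hH t htH ρ' (infDist y C) Metric.infDist_nonneg hρ'
    (by rw [hτ, dist_comm, hxy])
  obtain ⟨v, hv, hve⟩ := hnear ρ' hρ' hQ
  obtain ⟨u', hu'⟩ := hρ'.foot hC
  obtain ⟨k, hk, huk⟩ := hK u' hu'
  refine ⟨k, hk, ?_⟩
  have hL : ‖v - e'‖ ≤ 2 * ε := by
    have h1 := dist_triangle v e e'
    rw [dist_comm e e'] at h1
    rw [← dist_eq_norm]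
    linarith
  have hA : busR (dir φ v) (ρ' 0) = - ⟪u', v⟫ := by rw [← hu', busR_dir hφ u' hv.1]
  have hB : busR (dir φ v) (ρ 0) = - ⟪u₀, v⟫ := by rw [← hu, busR_dir hφ u₀ hv.1]
  have hC1 : busR (dir φ v) y = busR (dir φ v) (ρ' 0) := by
    have h1 := hρ'.busR_const hφ hC hv (t := infDist y C) Metric.infDist_nonneg
    rwa [hτ] at h1
  have hC2 : busR (dir φ v) (ρ 0) ≤ busR (dir φ v) (ρ t) := by
    have h1 := busR_proj_le hφ hC hv.1 (ρ t)
    rwa [h.proj_eq hC ht0] at h1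
  have hcmp := busR_compare (isRay_dir hφ hv.1) (isRay_dir hφ he'.1) (L := ‖v - e'‖) (M := 0)
    (fun r hr => by
      have h1 := dist_flat hφ 0 0 v e' hr
      simpa [dir] using h1) (ρ t) y
  rw [hxy] at hcmp
  have hcmp2 := (abs_le.1 hcmp).1
  have hLs : ‖v - e'‖ * s ≤ 2 * ε * s := mul_le_mul_of_nonneg_right hL hs.le
  have hin : (1 - 2 * ε) * s ≤ ⟪u₀ - u', v⟫ := by
    rw [inner_sub_left]
    linarith
  have hd : ‖u₀ - u'‖ ≤ s := by
    rw [← dist_eq_norm, ← hφ.dist_eq, hu, hu']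
    have h1 : proj C y = ρ' 0 := by
      have h2 := hρ'.proj_eq hC (t := infDist y C) Metric.infDist_nonneg
      rwa [hτ] at h2
    rw [← h.proj_eq hC ht0, ← h1, ← hxy]
    exact proj_lipschitz hC.closed ⟨ρ 0, h.mem hC⟩ hC.convex _ _
  have hsq : ‖u₀ - u' - s • v‖ ^ 2 ≤ (2 * √ε * s) ^ 2 := by
    rw [norm_sub_sq_real, inner_smul_right, norm_smul, hv.1, Real.norm_of_nonneg hs.le, mul_pow,
      mul_pow, mul_pow, Real.sq_sqrt hε.le]
    have h1 : ‖u₀ - u'‖ ^ 2 ≤ s ^ 2 := pow_le_pow_left₀ (norm_nonneg _) hd 2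
    have h2 := mul_le_mul_of_nonneg_left hin hs.le
    nlinarith
  have hn : ‖u₀ - u' - s • v‖ ≤ 2 * √ε * s := (sq_le_sq₀ (norm_nonneg _) (by positivity)).1 hsq
  have hke : k - (u₀ - s • e) = (k - u') - (u₀ - u' - s • v) + s • (e - v) := by
    rw [smul_sub]
    abel
  have hku : ‖k - u'‖ ≤ δ := by
    rw [← dist_eq_norm, dist_comm]
    exact huk.le
  have hev : ‖s • (e - v)‖ ≤ ε * s := by
    rw [norm_smul, Real.norm_of_nonneg hs.le, mul_comm, ← dist_eq_norm, dist_comm]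
    exact mul_le_mul_of_nonneg_right hve.le hs.le
  rw [hke]
  calc ‖(k - u') - (u₀ - u' - s • v) + s • (e - v)‖
      ≤ ‖(k - u') - (u₀ - u' - s • v)‖ + ‖s • (e - v)‖ := norm_add_le _ _
    _ ≤ (‖k - u'‖ + ‖u₀ - u' - s • v‖) + ‖s • (e - v)‖ := by
        gcongr
        exact norm_sub_le _ _
    _ ≤ (2 * √ε + ε) * s + δ := by linarith

end Pool.Agent.H75.SF
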