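import Pool.Agent.H75.SF.Bus2
import Pool.Agent.H75.SF.Flat1

/-!
# SF-4: rays orthogonal to `C`

* `Orth.mem`: `infDist (ρ 0) C = 0` and `C` closed (`IsClosed.mem_iff_infDist_zero`).
* `exists_orth`: let `q = proj C y`, `d = dist q y = infDist y C > 0`.  `hgc.line` gives a line `c` with `c 0 = q`,
  `c d = y`; `f t = infDist (c t) C` is convex along `c`, `f 0 = 0`, `f d = d`, `f` is 1-Lipschitz.  For `t ≥ d`:
  convexity gives `d = f d ≤ (d / t) * f t`, so `f t ≥ t`; for `0 ≤ t ≤ d`: `f t ≥ f d - (d - t) = t`; and `f t ≤ dist (c t) q = t`.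
  (See `exists_deep_point` in `Pool.Agent.H29.RR.Geo3`.)  `ρ = c`.
* `Orth.proj_eq`: `eq_proj`.  `Orth.foot`: if `ρ 0 ∉ range φ` then `ρ 0` lies in the open set `C \ range φ`, so
  `ρ t ∈ C` for small `t > 0`, but `infDist (ρ t) C = t > 0`.
* `Orth.busR_nonneg`: `dist x (ρ t) ≥ infDist (ρ t) C = t`, pass to the limit.  `Orth.busR_foot`: `busR_apply`.
* `Orth.sq_le`: `proj_obtuse` and `proj_eq`.
* `Orth.mem_range_of_busR`: let `x ∈ C`, `busR ρ x ≤ 0`, `x ∉ range φ`: `x` lies in the open set `C \ range φ`, so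
  `closedBall x s ⊆ C` for some `s > 0`; `exists_busR_down` gives `y ∈ C` with `busR ρ y = busR ρ x - s < 0`.
* `busR_proj_le` (T3): for `w` with `proj C x = p`: `dist p (φ (t • v)) ≤ dist x (φ (t • v))` by `proj_obtuse`
  (`φ (t • v) ∈ C`), let `t → ∞`.
* `Orth.busR_const` (T3): let `φ u = ρ 0` (`Orth.foot`), `σ t' = φ (u + t' • v)`, asymptotic to `dir φ v`. For `t' ≥ 0`:
  `u + t' • v ∈ Kset` (as `u ∈ Kset` and `v ∈ Qset`), so by `busR_lower hρ (σ t')` with `T = t > 0`: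
  `dist (σ t') (ρ t) ^ 2 ≤ t ^ 2 + t' ^ 2`, and `≥` by `Orth.sq_le`; so `dist (ρ t) (σ t') - t' → 0`, i.e.
  `busR σ (ρ t) = 0 = busR σ (ρ 0)`; `busR_asym`.
* `Qset_of_ray`: if `u₀ ∈ Kset` and the ray from `u₀` in direction `v` stays in `Kset`, then `v ∈ Qset` (`rec_dir` with
  `h u = busR ρ (φ u)`, `M = 0`).
* `Qset_nonempty`: if the closed convex set `Kset φ ρ` (`convexOn_comp_flat`, `continuous_busR`) is unbounded, then there
  is `v ∈ Qset`: take `u n ∈ Kset` with `‖u n - u₀‖ ≥ n + 1`, a limit `v` of the unit vectors `(u n - u₀) / ‖u n - u₀‖`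
  (unit sphere of `V` compact), then `u₀ + t • v = lim (u₀ + (t / ‖u n - u₀‖) • (u n - u₀)) ∈ Kset`.
-/

open Set Filter Topology Metric
open Pool.Agent.H29 Pool.Agent.H29.RR
open scoped RealInnerProductSpace

set_option linter.unusedSectionVars false

namespace Pool.Agent.H75.SF

variable {X : Type*} [MetricSpace X] [IsCAT0 X] [ProperSpace X]
variable {V : Type*} [NormedAddCommGroup V] [InnerProductSpace ℝ V] {φ : V → X}
variable {C : Set X} {ρ : ℝ → X}

lemma FSide.nonempty (hC : FSide φ C) : C.Nonempty := ⟨φ 0, hC.sub (mem_range_self 0)⟩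

lemma Orth.mem (hC : FSide φ C) (h : Orth C ρ) : ρ 0 ∈ C := by
  rw [hC.closed.mem_iff_infDist_zero hC.nonempty]
  exact h.infDist 0 le_rfl

lemma exists_orth (hgc : GeodesicallyComplete X) (hC : FSide φ C) {y : X} (hy : y ∉ C) :
    ∃ ρ, Orth C ρ ∧ ρ (infDist y C) = y := by
  have hne := hC.nonempty
  set q := proj C y with hq
  have hqC : q ∈ C := proj_mem hC.closed hne y
  have hqy : q ≠ y := fun h => hy (h ▸ hqC)
  obtain ⟨c, hc, hc0, hcd⟩ := hgc.line hqy
  have hd : infDist y C = dist q y := by rw [← dist_proj hC.closed hne, ← hq, dist_comm]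
  rw [hd]
  set δ := dist q y with hδ
  have hδpos : 0 < δ := dist_pos.mpr hqy
  have hφ := (gconvexFun_infDist hC.closed hne hC.convex).comp_line hc
  have hφ0 : infDist (c 0) C = 0 := by rw [hc0]; exact infDist_zero_of_mem hqC
  have hφδ : infDist (c δ) C = δ := by rw [hcd, hd]
  have hge : ∀ t, 0 ≤ t → t ≤ infDist (c t) C := by
    intro t ht0
    rcases le_total δ t with ht | ht
    · have htpos : 0 < t := lt_of_lt_of_le hδpos ht
      have hl : δ / t ∈ Icc (0 : ℝ) 1 := ⟨by positivity, (div_le_one htpos).mpr ht⟩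
      have h1 := hφ 0 t (δ / t) hl
      simp only [mul_zero, zero_add, hφ0] at h1
      rw [div_mul_cancel₀ _ htpos.ne', hφδ, div_mul_eq_mul_div, le_div_iff₀ htpos] at h1
      exact le_of_mul_le_mul_left (by linarith) hδpos
    · have h1 : infDist (c δ) C ≤ infDist (c t) C + dist (c δ) (c t) := infDist_le_infDist_add_dist
      rw [hφδ, hc.dist_eq, Real.dist_eq, abs_of_nonneg (by linarith)] at h1
      linarith
  refine ⟨c, ⟨?_, ?_⟩, hcd⟩
  · intro s t _ _
    rw [hc.dist_eq, Real.dist_eq]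
  · intro t ht
    apply le_antisymm _ (hge t ht)
    refine (infDist_le_dist_of_mem hqC).trans ?_
    rw [← hc0, hc.dist_eq, Real.dist_eq, sub_zero, abs_of_nonneg ht]

lemma Orth.proj_eq (hC : FSide φ C) (h : Orth C ρ) {t : ℝ} (ht : 0 ≤ t) : proj C (ρ t) = ρ 0 := by
  symm
  apply eq_proj hC.closed hC.nonempty hC.convex (h.mem hC)
  rw [h.infDist t ht, h.ray t 0 ht le_rfl, sub_zero, abs_of_nonneg ht]

lemma Orth.foot (hC : FSide φ C) (h : Orth C ρ) : ∃ u, φ u = ρ 0 := by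
  by_contra hcon
  have h0 : ρ 0 ∈ C \ range φ := ⟨h.mem hC, hcon⟩
  obtain ⟨ε, hε, hball⟩ := Metric.isOpen_iff.1 hC.isOpen _ h0
  have h1 : ρ (ε / 2) ∈ ball (ρ 0) ε := by
    rw [mem_ball, h.ray (ε / 2) 0 (by positivity) le_rfl, sub_zero, abs_of_nonneg (by positivity)]
    linarith
  have h2 := h.infDist (ε / 2) (by positivity)
  rw [infDist_zero_of_mem (hball h1).1] at h2
  linarith

lemma Orth.busR_nonneg (h : Orth C ρ) {x : X} (hx : x ∈ C) : 0 ≤ busR ρ x := by
  apply ge_of_tendsto (tendsto_busR h.ray x)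
  filter_upwards [eventually_ge_atTop 0] with t ht
  have h1 : Metric.infDist (ρ t) C ≤ dist (ρ t) x := infDist_le_dist_of_mem hx
  rw [h.infDist t ht, dist_comm] at h1
  linarith

lemma Orth.busR_foot (h : Orth C ρ) : busR ρ (ρ 0) = 0 := by
  rw [busR_apply h.ray le_rfl, neg_zero]

lemma Orth.sq_le (hC : FSide φ C) (h : Orth C ρ) {x : X} (hx : x ∈ C) {t : ℝ} (ht : 0 ≤ t) :
    t ^ 2 + dist (ρ 0) x ^ 2 ≤ dist (ρ t) x ^ 2 := by
  have h1 := proj_obtuse hC.closed hC.nonempty hC.convex (ρ t) hx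
  rw [h.proj_eq hC ht, h.ray t 0 ht le_rfl, sub_zero, abs_of_nonneg ht] at h1
  exact h1

lemma Orth.mem_range_of_busR (hC : FSide φ C) (h : Orth C ρ) {x : X} (hx : x ∈ C)
    (hb : busR ρ x ≤ 0) : x ∈ range φ := by
  by_contra hcon
  have h0 : x ∈ C \ range φ := ⟨hx, hcon⟩
  obtain ⟨ε, hε, hball⟩ := Metric.isOpen_iff.1 hC.isOpen _ h0
  obtain ⟨y, hy1, hy2⟩ := exists_busR_down h.ray x (s := ε / 2) (by positivity)
  have h1 : y ∈ ball x ε := by
    rw [mem_ball, dist_comm, hy1]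
    linarith
  have h2 := h.busR_nonneg (hball h1).1
  linarith

end Pool.Agent.H75.SF
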