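import Pool.Agent.H75.SF.Bus2
import Pool.Agent.H75.SF.Flat1
import Pool.Agent.H75.SF.OrthRay1

/-!
# SF-4: rays orthogonal to `C`

* `Orth.mem`: `infDist (ρ 0) C = 0` and `C` closed (`IsClosed.mem_iff_infDist_zero`).
* `exists_orth`: let `q = proj C y`, `d = dist q y = infDist y C > 0`.  `hgc.line` gives a line `c` with `c 0 = q`,
  `c d = y`; `f t = infDist (c t) C` is convex along `c`, `f 0 = 0`, `f d = d`, `f` is 1-Lipschitz.  For `t ≥ d`:
  convexity gives `d = f d ≤ (d / t) * f t`, so `f t ≥ t`; for `0 ≤ t ≤ d`: `f t ≥ f d - (d - t) = t`; and `f t ≤ dist (c t) q = t`.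
  (See `exists_deep_point` in `Pool.Agent.H29.RR.Geo3`.)  `ρ = c`.
* `Orth.proj_eq`: `eq_proj`.  `Orth.foot`: if `ρ 0 ∉ range φ` then `ρ 0` lies in the open set `C \ range φ`, so
  `ρ t ∈ C` for small `t > 0`, but `infDist (ρ t) C = t > 0`.
* `Orth.busR_nonneg`: `dist x (ρ t) ≥ infDist (ρ t) C = t`, pass to the limit.  `Orth.busR_foot`: `busR_apply`.
* `Orth.sq_le`: `proj_obtuse` and `proj_eq`.
* `Orth.mem_range_of_busR`: let `x ∈ C`, `busR ρ x ≤ 0`, `x ∉ range φ`: `x` lies in the open set `C \ range φ`, so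
  `closedBall x s ⊆ C` for some `s > 0`; `exists_busR_down` gives `y ∈ C` with `busR ρ y = busR ρ x - s < 0`.
* `busR_proj_le` (T3): for `w` with `proj C x = p`: `dist p (φ (t • v)) ≤ dist x (φ (t • v))` by `proj_obtuse`
  (`φ (t • v) ∈ C`), let `t → ∞`.
* `Orth.busR_const` (T3): let `φ u = ρ 0` (`Orth.foot`), `σ t' = φ (u + t' • v)`, asymptotic to `dir φ v`. For `t' ≥ 0`:
  `u + t' • v ∈ Kset` (as `u ∈ Kset` and `v ∈ Qset`), so by `busR_lower hρ (σ t')` with `T = t > 0`: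
  `dist (σ t') (ρ t) ^ 2 ≤ t ^ 2 + t' ^ 2`, and `≥` by `Orth.sq_le`; so `dist (ρ t) (σ t') - t' → 0`, i.e.
  `busR σ (ρ t) = 0 = busR σ (ρ 0)`; `busR_asym`.
* `Qset_of_ray`: if `u₀ ∈ Kset` and the ray from `u₀` in direction `v` stays in `Kset`, then `v ∈ Qset` (`rec_dir` with
  `h u = busR ρ (φ u)`, `M = 0`).
* `Qset_nonempty`: if the closed convex set `Kset φ ρ` (`convexOn_comp_flat`, `continuous_busR`) is unbounded, then there
  is `v ∈ Qset`: take `u n ∈ Kset` with `‖u n - u₀‖ ≥ n + 1`, a limit `v` of the unit vectors `(u n - u₀) / ‖u n - u₀‖`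
  (unit sphere of `V` compact), then `u₀ + t • v = lim (u₀ + (t / ‖u n - u₀‖) • (u n - u₀)) ∈ Kset`.
-/

open Set Filter Topology Metric
open Pool.Agent.H29 Pool.Agent.H29.RR
open scoped RealInnerProductSpace

set_option linter.unusedSectionVars false

namespace Pool.Agent.H75.SF

variable {X : Type*} [MetricSpace X] [IsCAT0 X] [ProperSpace X]
variable {V : Type*} [NormedAddCommGroup V] [InnerProductSpace ℝ V] {φ : V → X}
variable {C : Set X} {ρ : ℝ → X}

lemma busR_proj_le (hφ : Isometry φ) (hC : FSide φ C) {v : V} (hv : ‖v‖ = 1) (x : X) :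
    busR (dir φ v) (proj C x) ≤ busR (dir φ v) x := by
  have hne : C.Nonempty := ⟨φ 0, hC.sub (mem_range_self 0)⟩
  refine le_of_tendsto_of_tendsto' (tendsto_busR (isRay_dir hφ hv) (proj C x))
    (tendsto_busR (isRay_dir hφ hv) x) fun t => ?_
  have h1 := proj_obtuse hC.closed hne hC.convex x
    (show dir φ v t ∈ C from hC.sub (mem_range_self _))
  have h2 : dist (proj C x) (dir φ v t) ≤ dist x (dir φ v t) := by
    refine le_of_abs_le (abs_le_of_sq_le_sq ?_ dist_nonneg)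
    nlinarith [sq_nonneg (dist x (proj C x))]
  linarith

lemma Orth.busR_const (hφ : Isometry φ) (hC : FSide φ C) (h : Orth C ρ) {v : V}
    (hv : v ∈ Qset φ ρ) {t : ℝ} (ht : 0 ≤ t) :
    busR (dir φ v) (ρ t) = busR (dir φ v) (ρ 0) := by
  rcases ht.eq_or_lt with rfl | ht0
  · rfl
  obtain ⟨u, hu⟩ := h.foot hC
  have hv1 : ‖v‖ = 1 := hv.1
  have huK : u ∈ Kset φ ρ := by
    show busR ρ (φ u) ≤ 0
    rw [hu, h.busR_foot]
  have hσ : IsRay (fun t => φ (u + t • v)) := isRay_flat hφ u hv1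
  have hσ0 : (fun t : ℝ => φ (u + t • v)) 0 = ρ 0 := by
    show φ (u + (0 : ℝ) • v) = ρ 0
    rw [zero_smul, add_zero, hu]
  have has : Asym (fun t => φ (u + t • v)) (dir φ v) := by
    refine ⟨‖u‖, fun t _ => ?_⟩
    show dist (φ (u + t • v)) (φ (t • v)) ≤ ‖u‖
    rw [hφ.dist_eq, dist_eq_norm, add_sub_cancel_right]
  have hd0 : ∀ t' : ℝ, 0 ≤ t' → dist (ρ 0) (φ (u + t' • v)) = t' := by
    intro t' ht'
    rw [← hσ0]
    have := hσ 0 t' le_rfl ht'
    rw [this, zero_sub, abs_neg, abs_of_nonneg ht']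
  -- two-sided estimate
  have hlow : ∀ t' : ℝ, 0 ≤ t' → t' ≤ dist (ρ t) (φ (u + t' • v)) := by
    intro t' ht'
    have h1 := h.sq_le hC (x := φ (u + t' • v)) (hC.sub (mem_range_self _)) ht
    rw [hd0 t' ht'] at h1
    refine le_of_abs_le (abs_le_of_sq_le_sq ?_ dist_nonneg)
    nlinarith [sq_nonneg t]
  have hupp : ∀ t' : ℝ, 0 < t' → dist (ρ t) (φ (u + t' • v)) ≤ t' + t ^ 2 / (2 * t') := by
    intro t' ht'
    have h1 := busR_lower h.ray (φ (u + t' • v)) ht0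
    have h2 : busR ρ (φ (u + t' • v)) ≤ 0 := hv.2 u huK t' ht'.le
    have h3 := h1.trans h2
    rw [div_le_iff₀ (by positivity), zero_mul, dist_comm, dist_comm (φ (u + t' • v)) (ρ 0),
      hd0 t' ht'.le] at h3
    refine le_of_abs_le (abs_le_of_sq_le_sq ?_ (by positivity))
    have h4 : (t' + t ^ 2 / (2 * t')) ^ 2 = t' ^ 2 + t ^ 2 + (t ^ 2 / (2 * t')) ^ 2 := by
      field_simp
      ring
    rw [h4]
    nlinarith [sq_nonneg (t ^ 2 / (2 * t'))]
  have hlim : Tendsto (fun t' : ℝ => dist (ρ t) (φ (u + t' • v)) - t') atTop (𝓝 0) := by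
    have h1 : Tendsto (fun t' : ℝ => t ^ 2 / (2 * t')) atTop (𝓝 0) :=
      tendsto_const_nhds.div_atTop (tendsto_id.const_mul_atTop (by norm_num))
    refine tendsto_of_tendsto_of_tendsto_of_le_of_le' tendsto_const_nhds h1 ?_ ?_
    · filter_upwards [eventually_ge_atTop 0] with t' ht'
      linarith [hlow t' ht']
    · filter_upwards [eventually_gt_atTop 0] with t' ht'
      linarith [hupp t' ht']
  have hb1 : busR (fun t => φ (u + t • v)) (ρ t) = 0 :=
    tendsto_nhds_unique (tendsto_busR hσ (ρ t)) hlim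
  have hb0 : busR (fun t => φ (u + t • v)) (ρ 0) = 0 := by
    have h1 := busR_apply hσ le_rfl
    rw [← hσ0, h1, neg_zero]
  have h5 := busR_asym hσ (isRay_dir hφ hv1) has (ρ 0) (ρ t)
  rw [hb1, hb0] at h5
  linarith

lemma Qset_of_ray (hφ : Isometry φ) (hρ : IsRay ρ) {u₀ v : V} (hv : ‖v‖ = 1)
    (h : ∀ t : ℝ, 0 ≤ t → u₀ + t • v ∈ Kset φ ρ) : v ∈ Qset φ ρ := by
  refine ⟨hv, fun u hu t ht => ?_⟩
  have h1 := rec_dir (h := fun u => busR ρ (φ u)) (convexOn_comp_flat hφ (gconvexFun_busR hρ))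
    ((continuous_busR hρ).comp hφ.continuous) (u' := u₀) (v := v) (M := 0) h u ht
  exact h1.trans hu

lemma Qset_nonempty [FiniteDimensional ℝ V] (hφ : Isometry φ) (hC : FSide φ C) (h : Orth C ρ)
    (hunb : ¬ Bornology.IsBounded (Kset φ ρ)) : (Qset φ ρ).Nonempty := by
  obtain ⟨u₀, hu₀⟩ := h.foot hC
  have hconv : ConvexOn ℝ univ (fun u => busR ρ (φ u)) :=
    convexOn_comp_flat hφ (gconvexFun_busR h.ray)
  have hcont : Continuous (fun u => busR ρ (φ u)) := (continuous_busR h.ray).comp hφ.continuous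
  have huK : u₀ ∈ Kset φ ρ := by
    show busR ρ (φ u₀) ≤ 0
    rw [hu₀, h.busR_foot]
  have hfar : ∀ n : ℕ, ∃ u ∈ Kset φ ρ, (n : ℝ) + 1 ≤ ‖u - u₀‖ := by
    intro n
    by_contra hn
    push Not at hn
    apply hunb
    rw [isBounded_iff_subset_closedBall u₀]
    refine ⟨(n : ℝ) + 1, fun u hu => ?_⟩
    rw [mem_closedBall, dist_eq_norm]
    exact (hn u hu).le
  choose u huK' hun using hfar
  have hpos : ∀ n, 0 < ‖u n - u₀‖ := fun n =>
    lt_of_lt_of_le (by positivity) (hun n)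
  have hw : ∀ n, (‖u n - u₀‖⁻¹) • (u n - u₀) ∈ sphere (0 : V) 1 := by
    intro n
    rw [mem_sphere_zero_iff_norm, norm_smul, norm_inv, norm_norm, inv_mul_cancel₀ (hpos n).ne']
  obtain ⟨v, hv, θ, hθ, hlim⟩ := (isCompact_sphere (0 : V) 1).tendsto_subseq hw
  rw [mem_sphere_zero_iff_norm] at hv
  refine ⟨v, Qset_of_ray hφ h.ray hv (u₀ := u₀) fun t ht => ?_⟩
  have hclosed : IsClosed (Kset φ ρ) := isClosed_le hcont continuous_const
  have hlim2 : Tendsto (fun n => u₀ + t • ((‖u (θ n) - u₀‖⁻¹) • (u (θ n) - u₀))) atTop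
      (𝓝 (u₀ + t • v)) := tendsto_const_nhds.add (hlim.const_smul t)
  refine hclosed.mem_of_tendsto hlim2 ?_
  obtain ⟨N, hN⟩ := exists_nat_ge t
  filter_upwards [eventually_ge_atTop N] with n hn
  have h1 : t ≤ ‖u (θ n) - u₀‖ := by
    have h2 := hun (θ n)
    have h3 : (n : ℝ) ≤ (θ n : ℝ) := by exact_mod_cast hθ.id_le n
    have h4 : (N : ℝ) ≤ (n : ℝ) := by exact_mod_cast hn
    linarith
  have hp := hpos (θ n)
  have hs1 : t * ‖u (θ n) - u₀‖⁻¹ ≤ 1 := by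
    rw [← div_eq_mul_inv, div_le_one hp]
    exact h1
  have hs0 : 0 ≤ t * ‖u (θ n) - u₀‖⁻¹ := by positivity
  have h2 := hconv.2 (mem_univ u₀) (mem_univ (u (θ n))) (sub_nonneg.2 hs1) hs0
    (sub_add_cancel _ _)
  have h3 : u₀ + t • ((‖u (θ n) - u₀‖⁻¹) • (u (θ n) - u₀)) =
      (1 - t * ‖u (θ n) - u₀‖⁻¹) • u₀ + (t * ‖u (θ n) - u₀‖⁻¹) • u (θ n) := by
    rw [smul_smul, smul_sub, sub_smul, one_smul]
    abel
  show busR ρ (φ _) ≤ 0
  rw [h3]
  refine h2.trans ?_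
  have h4 : busR ρ (φ u₀) ≤ 0 := huK
  have h5 : busR ρ (φ (u (θ n))) ≤ 0 := huK' (θ n)
  simp only [smul_eq_mul]
  nlinarith [sub_nonneg.2 hs1]

end Pool.Agent.H75.SF
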