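import Pool.Agent.H75.SF.HP3

/-!
# Translations of half-spaces without common rays are rank one (assembly)
-/

open Set Filter Topology Metric
open Pool.Agent.H29 Pool.Agent.H29.RR
open scoped Pointwise

set_option linter.unusedSectionVars false

namespace Pool.Agent.H75.SF

variable {X : Type*} [MetricSpace X] [IsCAT0 X] [ProperSpace X]
variable {G : Type*} [Group G] [MulAction G X] [IsIsometricSMul G X]
variable {D : Set X} {A : Bool → Set X}

theorem rankOne_of_translation [ProperlyDiscontinuousSMul G X] (hcoc : Cocompact G X)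
    (h : Wall D A) (hne : D.Nonempty) {i : Bool} {g : G} (hg : g • A i ⊆ A i)
    (hno : ∀ r : ℝ → X, IsRay r → Bdd r D → ¬ Bdd r (g • D))
    (hray : ∃ r : ℝ → X, IsRay r ∧ Bdd r D) : IsRankOne (X := X) g := by
  have : Nonempty X := hne.to_type
  obtain ⟨c, hc, l, hl, hgc⟩ := exists_axis hcoc (h.inf_order hg hno hray)
  obtain ⟨h1, h2⟩ := tendsto_infDist_axis h hne hc hl hgc hno
  refine ⟨c, hc, ⟨l, hl.ne', hgc⟩, ?_⟩
  rintro ⟨F, hF0, hF⟩
  obtain ⟨α, κ, B, hκ, a1, a2, a3, a4⟩ := exists_crossings h hne hg hc hl hgc h1 h2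
    (axis_fwd h hg hc hl hgc h1) (axis_bwd h hg hc hl hgc h2) hF hF0
  obtain ⟨b, a, hs⟩ := exists_slopes h.closed h.convex hF hκ a1 a2 a3 a4
  obtain ⟨r, hr, hr1, hr2⟩ := common_ray_of_slopes h.closed hgc hF hF0 hs
  exact hno r hr hr1 hr2

end Pool.Agent.H75.SF
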