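import Pool.Agent.H75.SF.LP
import Pool.Agent.H75.SF.Min
import Pool.Agent.H75.SF.NegDir
import Pool.Agent.H75.SF.NearK

/-!
# SF-7: a minimal good set is symmetric

`Q` a minimal good set, `e ∈ Q`.  `Q` is closed, so for `-e ∈ Q` it suffices to find, for every small `ε > 0`
(say `ε < 1 / 100`), a point of `Q` at distance at most `2 * (2 * √ε + ε) + ε` from `-e`.

Let `δ₀` be given by `Good.near` for `e` and `ε`; put `δ = min δ₀ ε / 2`.  As `Q` is good there is an orthogonal ray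
`ρ` with `Qset φ ρ ⊆ thickening δ Q`, and `Good.near` gives `e' ∈ Qset φ ρ`, `dist e' e < ε`.  Let `φ u₀ = ρ 0`.

Claim: for all `s > 0` there is `k ∈ Kset φ ρ` with `‖k - (u₀ - s • e)‖ ≤ (2 * √ε + ε) * s + δ`.  Let `H` be given by
`limit_principle` for `ρ, δ, s`; `h = max H (s + 1)`, `x = ρ h`.  `exists_busR_up` for the ray `dir φ e'`: `y` with
`dist x y = s`, `busR (dir φ e') y = busR (dir φ e') x + s`.  As `infDist x C = h > s`, `y ∉ C`; `exists_orth`: orthogonal ray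
`ρ'` with `ρ' τ = y`, `τ = infDist y C`.  By `limit_principle` `Qset φ ρ' ⊆ thickening δ (Qset φ ρ) ⊆ thickening δ₀ Q`, so there is
`v ∈ Qset φ ρ'`, `dist v e < ε`; so `‖v - e'‖ < 2 ε`.  Let `φ u' = ρ' 0`.  Then
`⟪u₀ - u', v⟫ = busR (dir φ v) (ρ' 0) - busR (dir φ v) (ρ 0)` (`busR_dir`) `≥ busR (dir φ v) y - busR (dir φ v) x`
(`Orth.busR_const` for `ρ'`; `busR_proj_le` at `x` with `Orth.proj_eq`) `≥ busR (dir φ e') y - busR (dir φ e') x - 2 ε s =
(1 - 2 ε) s` (`busR_compare` with `L = ‖v - e'‖`, `dist_flat`).  Also `‖u₀ - u'‖ = dist (ρ 0) (ρ' 0) ≤ s` (`proj_lipschitz`).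
So `‖u₀ - u' - s • v‖ ^ 2 ≤ s ^ 2 - 2 s (1 - 2 ε) s + s ^ 2 = 4 ε s ^ 2`, hence `‖u' - (u₀ - s • e)‖ ≤ 2 √ε s + ε s`; and `limit_principle`
gives `k ∈ Kset φ ρ` with `dist u' k < δ`.

`neg_dir_of_claim` (pure convexity; `K = Kset φ ρ` is closed and convex in `V`): the unit-speed directions `(k n - u₀) / n`
for `s = n` are bounded; let `w` be their limit along `hyperfilter ℕ`: `‖w + e‖ ≤ 2 √ε + ε =: η ≤ 1/2`, and `u₀ + t • w ∈ K` for all `t ≥ 0`
(it is the limit of `(1 - t / n) • u₀ + (t / n) • k n`).  So `w ≠ 0`, `w' = w / ‖w‖` satisfies `‖w' + e‖ ≤ 2 η` and is a recession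
direction: `w' ∈ Qset φ ρ` by `Qset_of_ray`.  Finally `w' ∈ thickening δ Q`, which gives a point of `Q` within `2 η + δ` of `-e`.
-/

open Set Filter Topology Metric
open Pool.Agent.H29 Pool.Agent.H29.RR
open scoped RealInnerProductSpace

set_option linter.unusedSectionVars false

namespace Pool.Agent.H75.SF

variable {X : Type*} [MetricSpace X] [IsCAT0 X] [ProperSpace X]
variable {V : Type*} [NormedAddCommGroup V] [InnerProductSpace ℝ V] {φ : V → X}
variable {C : Set X} {Q : Set V}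

theorem minimal_symm [FiniteDimensional ℝ V] (hgc : GeodesicallyComplete X) (hφ : Isometry φ)
    (hC : FSide φ C) (hQ : Good φ C Q) (hmin : ∀ Q' ⊆ Q, Good φ C Q' → Q ⊆ Q') {e : V}
    (he : e ∈ Q) : -e ∈ Q := by
  have he1 : ‖e‖ = 1 := by simpa using hQ.2.1 he
  rw [← hQ.1.closure_eq, Metric.mem_closure_iff]
  intro ε₁ hε₁
  set r : ℝ := min (1 / 10) (ε₁ / 10) with hr
  have hr0 : 0 < r := lt_min (by norm_num) (by linarith)
  have hr1 : r ≤ 1 / 10 := min_le_left _ _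
  have hr2 : r ≤ ε₁ / 10 := min_le_right _ _
  set ε : ℝ := r ^ 2 with hε
  have hε0 : 0 < ε := by positivity
  have hsq : √ε = r := by rw [hε, Real.sqrt_sq hr0.le]
  have hεr : ε ≤ r := by rw [hε]; nlinarith
  obtain ⟨δ₀, hδ₀, hnear⟩ := hQ.near hmin he hε0
  set δ : ℝ := min δ₀ ε / 2 with hδ
  have hδ0 : 0 < δ := by rw [hδ]; have := lt_min hδ₀ hε0; linarith
  have hδ1 : δ + δ ≤ δ₀ := by rw [hδ]; have := min_le_left δ₀ ε; linarith
  have hδ2 : δ ≤ ε := by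
    rw [hδ]; have := min_le_right δ₀ ε; have := lt_min hδ₀ hε0; linarith
  obtain ⟨ρ, hρ, hρQ⟩ := hQ.2.2 δ hδ0
  obtain ⟨e', he', hee⟩ := hnear ρ hρ (hρQ.trans (thickening_mono (by linarith) Q))
  obtain ⟨u₀, hu₀⟩ := hρ.foot hC
  have hclaim : ∀ s : ℝ, 0 < s → ∃ k ∈ Kset φ ρ, ‖k - (u₀ - s • e)‖ ≤ (2 * √ε + ε) * s + δ := by
    intro s hs
    refine near_Kset hgc hφ hC hρ hu₀ he1 he' hε0 hδ0 hee ?_ hs
    intro ρ' hρ' hsub
    apply hnear ρ' hρ'
    intro v hv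
    have h1 := hsub hv
    rw [mem_thickening_iff] at h1
    obtain ⟨z, hz, hvz⟩ := h1
    have h2 := hρQ hz
    rw [mem_thickening_iff] at h2
    obtain ⟨z', hz', hzz'⟩ := h2
    rw [mem_thickening_iff]
    refine ⟨z', hz', ?_⟩
    have := dist_triangle v z z'
    linarith
  have hKc : IsClosed (Kset φ ρ) :=
    isClosed_le ((continuous_busR hρ.ray).comp hφ.continuous) continuous_const
  have hKv : Convex ℝ (Kset φ ρ) := by
    have h1 := (convexOn_comp_flat hφ (gconvexFun_busR hρ.ray)).convex_le 0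
    have h2 : Kset φ ρ = {x | x ∈ univ ∧ busR ρ (φ x) ≤ 0} := by
      ext x; simp [Kset]
    rw [h2]
    exact h1
  have hu₀K : u₀ ∈ Kset φ ρ := by
    show busR ρ (φ u₀) ≤ 0
    rw [hu₀, hρ.busR_foot]
  obtain ⟨w, hw1, hw2, hw3⟩ := neg_dir_of_claim hKc hKv hu₀K he1 (η := 2 * √ε + ε)
    (by positivity) (by rw [hsq]; linarith) hclaim
  have hwQ : w ∈ Qset φ ρ := Qset_of_ray hφ hρ.ray hw1 hw3
  have h3 := hρQ hwQ
  rw [mem_thickening_iff] at h3
  obtain ⟨q, hq, hwq⟩ := h3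
  refine ⟨q, hq, ?_⟩
  have h4 : dist (-e) w ≤ 2 * (2 * √ε + ε) := by
    rw [dist_comm, dist_eq_norm, sub_neg_eq_add]
    exact hw2
  rw [hsq] at h4
  have h5 := dist_triangle (-e) w q
  linarith

end Pool.Agent.H75.SF
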